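import Pool.Agent.H234RC.Defs

set_option autoImplicit false

/-! Blueprint: every `theorem` here is a task (see table h234_tasks).  Prove it in a file of your
own `Pool/Agent/H234RC/T_<task>.lean` importing `Pool.Agent.H234RC.Defs` (namespace
`Pool.Agent.H234RC`), same name and statement. -/

namespace Pool.Agent.H234RC

open Finset

/-! T1: clique posets and graph isomorphisms -/

theorem card_iso {V W : Type} [Fintype V] [Fintype W] (G : SimpleGraph V) (H : SimpleGraph W)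
    (v : V) (w : W) (h : Nonempty (TCard G v ≃o TCard H w)) :
    ∃ e : {x : V // x ≠ v} ≃ {y : W // y ≠ w}, ∀ x y, H.Adj (e x : W) (e y : W) ↔ G.Adj (x : V) (y : V) := by
  sorry

theorem whole_iso {V W : Type} (G : SimpleGraph V) (H : SimpleGraph W) (e : V ≃ W)
    (he : ∀ x y, H.Adj (e x) (e y) ↔ G.Adj x y) : Nonempty (TLat G ≃o TLat H) := by
  sorry

theorem exists_hypo {V : Type} [Fintype V] (G : SimpleGraph V) (hG : ¬ Reconstructible G) :
    ∃ (H : SimpleGraph V) (π : V → Equiv.Perm V), Hypo G H π ∧ NonIso G H := by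
  sorry

/-! T2: weight bound -/

theorem weight_bound {V : Type} [Fintype V] [DecidableEq V] (p : ℝ) (hp0 : 0 ≤ p) (hp1 : p ≤ 1)
    (𝒢 : Finset (SimpleGraph V)) (r : Sym2 V → Sym2 V → Prop)
    (h : ∀ G ∈ 𝒢, ∀ G' ∈ 𝒢, ∀ a b : Sym2 V, r a b →
      ((a ∈ G.edgeSet ↔ a ∈ G'.edgeSet) ↔ (b ∈ G.edgeSet ↔ b ∈ G'.edgeSet))) :
    ∑ G ∈ 𝒢, p ^ G.edgeSet.ncard * (1 - p) ^ ((Fintype.card V).choose 2 - G.edgeSet.ncard) ≤
      (max p (1 - p)) ^ ((Fintype.card V).choose 2 - ncl r) := by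
  sorry

/-! T3: counting classes, kind 1 -/

theorem ncl_kind1 {V : Type} [Fintype V] [DecidableEq V] {m : ℕ} (hm : 1 ≤ m)
    (c : Fin m → NAut V)
    (hc : ∀ i j, i ≠ j →
      3 * (univ.filter (fun x => (c i).1 x = (c j).1 x)).card ≤ 2 * Fintype.card V) :
    (ncl (L1 c) : ℝ) ≤ (Fintype.card V : ℝ) ^ 2 / (2 * m) + (2 / 9) * (Fintype.card V : ℝ) ^ 2
      + (2 * m + 1) * (Fintype.card V : ℝ) := by
  sorry

/-! T4: asymptotics -/

theorem asym (q : ℝ) (hq0 : 0 < q) (hq1 : q < 1) :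
    ∃ n₀ : ℕ, ∀ n : ℕ, n₀ ≤ n → ∃ t h : ℕ, 1 ≤ t ∧ n < t * h ∧
      ((n.factorial : ℝ) * n ^ 2) ^ 50 *
          q ^ ((n.choose 2 : ℝ) - ((n : ℝ) ^ 2 / 100 + (2 / 9) * (n : ℝ) ^ 2 + 101 * n)) +
      (((n.factorial : ℝ) * n ^ 2) ^ t * (n : ℝ) ^ n * (((n : ℝ) + 1) ^ (h + 2)) ^ n *
          ((n : ℝ) ^ 2) ^ n * 2 ^ n) *
          q ^ ((n.choose 2 : ℝ) - ((238 / 1000) * (n : ℝ) ^ 2 +
            (50 + 2 * (t : ℝ) + 20 * (t : ℝ) ^ 2) * n)) ≤
      q ^ ((13 / 25 : ℝ) * (n.choose 2 : ℝ)) := by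
  sorry

/-! T5: general counting lemmas on images -/

theorem image_card_le_four {α β : Type} [DecidableEq α] [DecidableEq β] (A U E : Finset α)
    (f : α → β)
    (h4 : ∀ a ∈ A, a ∉ E → a ∉ U → 4 ≤ (A.filter (fun b => f b = f a)).card)
    (h2 : ∀ a ∈ A, a ∉ E → 2 ≤ (A.filter (fun b => f b = f a)).card) :
    4 * (A.image f).card ≤ A.card + U.card + 3 * E.card := by
  sorry

theorem image_card_le_two {α β : Type} [DecidableEq α] [DecidableEq β] (A E : Finset α)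
    (f : α → β)
    (h2 : ∀ a ∈ A, a ∉ E → 2 ≤ (A.filter (fun b => f b = f a)).card) :
    2 * (A.image f).card ≤ A.card + E.card := by
  sorry

/-- half of the points can be ranked downwards along a fixed-point-free map -/
theorem exists_half_rank {V : Type} [Fintype V] [DecidableEq V] (S : Finset V) (y : V → V)
    (hy : ∀ x ∈ S, y x ≠ x) :
    ∃ (X : Finset V) (ρ : V → ℕ), X ⊆ S ∧ S.card ≤ 2 * X.card ∧ ∀ x ∈ X, ρ (y x) < ρ x := by
  sorry

/-! T6: merging lemma (Bondy type) -/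

theorem merge_bound {α ι : Type} [Fintype α] [DecidableEq ι] (r0 : α → α → Prop)
    (lam : α → ι → Prop) (R : Finset ι)
    (hlam : ∀ a b, r0 a b → ∀ z ∈ R, (lam a z ↔ lam b z)) (x x' : ι → α)
    (hx : ∀ v ∈ R, ∀ z ∈ R, ((lam (x v) z ↔ lam (x' v) z) ↔ z ≠ v)) :
    Nat.card (Quotient (Relation.EqvGen.setoid
        (fun a b => r0 a b ∨ ∃ v ∈ R, a = x v ∧ b = x' v))) + R.card ≤
      Nat.card (Quotient (Relation.EqvGen.setoid r0)) := by
  sorry

section kind2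

variable {V : Type} [Fintype V] [DecidableEq V] {t d K : ℕ}

/-- class of a position -/
noncomputable def cl (c : Cert V t d) (a : Sym2 V) :
    Quotient (Relation.EqvGen.setoid c.Lk) := Quotient.mk _ a

open Classical in
/-- T7: region `Rz × M`. `κ` is a number of classes on `M`. -/
theorem region_RM (c : Cert V t d) (G : SimpleGraph V) (hv : c.Valid K) (hc : c.Compat G) :
    ∃ κ : ℕ, (((Pos V).filter (fun a => ∃ v ∈ c.Rz, ∃ x ∈ c.M, a = s(v, x))).image
        (cl c)).card ≤ c.Rz.card * κ ∧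
      2 * κ ≤ c.M.card + 2 * t ∧
      2 * κ + 2 * c.Rz.card ≤ 2 * c.S.card + c.M0.card + 2 * t := by
  sorry

open Classical in
/-- T8: region `S × M0` -/
theorem region_SM (c : Cert V t d) (G : SimpleGraph V) (hv : c.Valid K) (hc : c.Compat G) :
    2 * (((Pos V).filter (fun a => ∃ x ∈ c.S, ∃ z ∈ c.M0, a = s(x, z))).image (cl c)).card ≤
      c.S.card * c.M0.card + 8 * t * Fintype.card V := by
  sorry

open Classical in
/-- T9: region `M0 × M0` -/
theorem region_MM (c : Cert V t d) (G : SimpleGraph V) (hv : c.Valid K) (hc : c.Compat G) :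
    24 * (((Pos V).filter (fun a => ∃ x ∈ c.M0, ∃ z ∈ c.M0, a = s(x, z))).image (cl c)).card ≤
      3 * c.M0.card ^ 2 + c.M0.card * Fintype.card V + 24 * (4 * t + 4 * t ^ 2) * Fintype.card V := by
  sorry

open Classical in
/-- T10: region `S × S` -/
theorem region_SS (c : Cert V t d) (G : SimpleGraph V) (hv : c.Valid K) (hc : c.Compat G) :
    8 * ((((Pos V).filter (fun a => ∃ x ∈ c.S, ∃ z ∈ c.S, a = s(x, z))).image (cl c)) \
      (((Pos V).filter (fun a => ∃ x ∈ c.S, ∃ z ∈ c.M0, a = s(x, z))).image (cl c))).card ≤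
      c.S.card ^ 2 + 8 * Fintype.card V := by
  sorry

/-- T11: kind 2 count -/
theorem ncl_kind2 (c : Cert V t d) (G : SimpleGraph V) (ht : 1 ≤ t) (hv : c.Valid K)
    (hc : c.Compat G) :
    (ncl c.Lk : ℝ) ≤ (238 / 1000) * (Fintype.card V : ℝ) ^ 2 +
      (K + 20 * (t : ℝ) ^ 2) * Fintype.card V := by
  sorry

end kind2

/-! T12: extraction of a certificate -/

theorem extract {V : Type} [Fintype V] [DecidableEq V] (G H : SimpleGraph V)
    (π : V → Equiv.Perm V) (hH : Hypo G H π) (hn : 3 ≤ Fintype.card V) (hni : NonIso G H)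
    (m t h : ℕ) (hm : 1 ≤ m) (ht : 1 ≤ t) (hth : Fintype.card V < t * h) :
    (∃ c : Fin m → NAut V, (∀ i, IsNA G (c i)) ∧ ∀ i j, i ≠ j →
      3 * (univ.filter (fun x => (c i).1 x = (c j).1 x)).card ≤ 2 * Fintype.card V) ∨
    (∃ c : Cert V t (h + 2), c.Valid (m + 2 * t) ∧ c.Compat G) := by
  sorry

end Pool.Agent.H234RC
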