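import Pool.Agent.H234RC.Defs

set_option autoImplicit false

/-! The class of a position (shared by T7–T11). -/

namespace Pool.Agent.H234RC

section

variable {V : Type} [Fintype V] [DecidableEq V] {t d : ℕ}

/-- class of a position -/
noncomputable def cl (c : Cert V t d) (a : Sym2 V) :
    Quotient (Relation.EqvGen.setoid c.Lk) := Quotient.mk _ a

end

end Pool.Agent.H234RC
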