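import Mathlib

set_option autoImplicit false

/-!
Definitions for: all but a tiny proportion of graphs are reconstructible
(MP_552896_co).  See table h234_tasks for the written proofs.
-/

namespace Pool.Agent.H234RC

open Finset

/-- Nonempty cliques of `G`, ordered by inclusion: the truncated clique lattice. -/
abbrev TLat {V : Type} (G : SimpleGraph V) : Type :=
  {s : Finset V // s.Nonempty ∧ G.IsClique (s : Set V)}

/-- The maximal filter deleted subset at `v`: nonempty cliques avoiding `v`. -/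
abbrev TCard {V : Type} (G : SimpleGraph V) (v : V) : Type :=
  {s : Finset V // s.Nonempty ∧ G.IsClique (s : Set V) ∧ v ∉ s}

/-- The truncated clique lattices of `G` and `H` have the same deck. -/
def SameDeck {V W : Type} (G : SimpleGraph V) (H : SimpleGraph W) : Prop :=
  ∃ f : V ≃ W, ∀ v : V, Nonempty (TCard G v ≃o TCard H (f v))

/-- `T(G)` is reconstructible from its deck. -/
def Reconstructible {V : Type} (G : SimpleGraph V) : Prop :=
  ∀ (W : Type) [Fintype W] (H : SimpleGraph W), SameDeck G H → Nonempty (TLat G ≃o TLat H)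

/-- Hypomorphic graphs on the same vertex set, with the card isomorphisms `π v` (normalised so
that `π v v = v`). -/
structure Hypo {V : Type} (G H : SimpleGraph V) (π : V → Equiv.Perm V) : Prop where
  fix : ∀ v, π v v = v
  adj : ∀ v x y, x ≠ v → y ≠ v → (H.Adj (π v x) (π v y) ↔ G.Adj x y)

/-- `G` and `H` are not isomorphic. -/
def NonIso {V : Type} (G H : SimpleGraph V) : Prop :=
  ¬ ∃ σ : Equiv.Perm V, ∀ x y, H.Adj (σ x) (σ y) ↔ G.Adj x y

/-- A permutation together with two break points. -/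
abbrev NAut (V : Type) := Equiv.Perm V × V × V

/-- Near-automorphism: preserves the adjacency of all pairs that avoid the two break points. -/
def IsNA {V : Type} (G : SimpleGraph V) (φ : NAut V) : Prop :=
  ∀ x y : V, x ≠ φ.2.1 → x ≠ φ.2.2 → y ≠ φ.2.1 → y ≠ φ.2.2 →
    (G.Adj (φ.1 x) (φ.1 y) ↔ G.Adj x y)

/-- The points moved by `φ`, break points excluded. -/
def mv {V : Type} [Fintype V] [DecidableEq V] (φ : NAut V) : Finset V :=
  univ.filter (fun x => x ≠ φ.2.1 ∧ x ≠ φ.2.2 ∧ φ.1 x ≠ x)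

/-- The positions: unordered pairs of distinct vertices. -/
def Pos (V : Type) [Fintype V] [DecidableEq V] : Finset (Sym2 V) :=
  univ.filter (fun e => ¬ e.IsDiag)

/-- Links of a family of near-automorphisms. -/
def L1 {V : Type} {m : ℕ} (Φ : Fin m → NAut V) (a b : Sym2 V) : Prop :=
  ∃ (i : Fin m) (x y : V), x ≠ (Φ i).2.1 ∧ x ≠ (Φ i).2.2 ∧ y ≠ (Φ i).2.1 ∧ y ≠ (Φ i).2.2 ∧
    a = s(x, y) ∧ b = s((Φ i).1 x, (Φ i).1 y)

/-- Number of classes of positions under the equivalence relation generated by `r`. -/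
noncomputable def ncl {V : Type} [Fintype V] [DecidableEq V] (r : Sym2 V → Sym2 V → Prop) : ℕ := by
  classical
  exact ((Pos V).image (fun a => (Quotient.mk (Relation.EqvGen.setoid r) a))).card

/-! ### Kind 2 certificates -/

/-- `(Φ, y, D, e, Rz)`. -/
abbrev Cert (V : Type) (t d : ℕ) :=
  (Fin t → NAut V) × (V → V) × (V → Fin d → Option V) × (V → V × V) × Finset V

namespace Cert

variable {V : Type} {t d : ℕ}

def Φ (c : Cert V t d) : Fin t → NAut V := c.1
def y (c : Cert V t d) : V → V := c.2.1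
def D (c : Cert V t d) : V → Fin d → Option V := c.2.2.1
def e (c : Cert V t d) : V → V × V := c.2.2.2.1
def Rz (c : Cert V t d) : Finset V := c.2.2.2.2

variable [Fintype V] [DecidableEq V]

/-- vertices moved by the `Φ i` -/
def M0 (c : Cert V t d) : Finset V := univ.biUnion (fun i => mv (c.Φ i))

/-- vertices outside `M0` with a near twin `y x` -/
def S (c : Cert V t d) : Finset V := univ.filter (fun x => x ∉ c.M0 ∧ c.y x ≠ x)

def M (c : Cert V t d) : Finset V := c.M0 ∪ c.S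

/-- Valid certificate. -/
structure Valid (c : Cert V t d) (K : ℕ) : Prop where
  supp : ∀ i, 3 * (mv (c.Φ i)).card ≤ Fintype.card V
  yM : ∀ x ∈ c.S, c.y x ∈ c.M
  RzM : ∀ z ∈ c.Rz, z ∉ c.M
  Rzbr : ∀ z ∈ c.Rz, ∀ i, z ≠ (c.Φ i).2.1 ∧ z ≠ (c.Φ i).2.2
  Rcard : (univ \ (c.M ∪ c.Rz)).card ≤ K
  eM : ∀ v ∈ c.Rz, (c.e v).1 ∈ c.M ∧ (c.e v).2 ∈ c.M

/-- `G` is compatible with the certificate. -/
structure Compat (c : Cert V t d) (G : SimpleGraph V) : Prop where
  na : ∀ i, IsNA G (c.Φ i)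
  tw : ∀ x ∈ c.S, ∀ z ∉ c.M0, z ≠ x → z ≠ c.y x →
    ((G.Adj x z ↔ G.Adj (c.y x) z) ↔ ¬ ∃ j, c.D x j = some z)
  lb : ∀ v ∈ c.Rz, ∀ z ∈ c.Rz, ((G.Adj z (c.e v).1 ↔ G.Adj z (c.e v).2) ↔ z ≠ v)

/-- twin links -/
def L2 (c : Cert V t d) (a b : Sym2 V) : Prop :=
  ∃ x ∈ c.S, ∃ z ∉ c.M0, z ≠ x ∧ z ≠ c.y x ∧ a = s(x, z) ∧ b = s(c.y x, z)

/-- label links -/
def L3 (c : Cert V t d) (a b : Sym2 V) : Prop :=
  ∃ v ∈ c.Rz, ∃ z ∈ c.Rz, a = s(z, (c.e v).1) ∧ b = s(z, (c.e v).2)

/-- all links of the certificate -/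
def Lk (c : Cert V t d) (a b : Sym2 V) : Prop := L1 c.Φ a b ∨ c.L2 a b ∨ c.L3 a b

end Cert

end Pool.Agent.H234RC
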