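import Pool.Agent.H234RC.Defs

set_option autoImplicit false

/-! T3: counting classes, kind 1. -/

namespace Pool.Agent.H234RC

open Finset

namespace T3aux

/-- Counting the values of `g` on `P`: exceptional points plus weights. -/
lemma image_card_le_weight {α β : Type*} [DecidableEq α] [DecidableEq β] (P : Finset α) (g : α → β) (E : Finset α) :
    ((P.image g).card : ℝ) ≤ (E.card : ℝ) +
      ∑ p ∈ P.filter (fun p => p ∉ E), 1 / ((P.filter (fun b => g b = g p)).card : ℝ) := by
  set Q : Finset β := (P.image g) \ (E.image g) with hQ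
  have h1 : (P.image g).card ≤ (E.image g).card + Q.card := by
    rw [hQ, add_comm]
    exact Finset.card_le_card_sdiff_add_card
  have h2 : (E.image g).card ≤ E.card := Finset.card_image_le
  have h3 : (Q.card : ℝ) = ∑ p ∈ P.filter (fun p => g p ∈ Q),
      1 / ((P.filter (fun b => g b = g p)).card : ℝ) := by
    rw [← Finset.sum_fiberwise_of_maps_to (s := P.filter (fun p => g p ∈ Q)) (t := Q) (g := g)
      (fun p hp => (Finset.mem_filter.mp hp).2)]
    rw [Finset.card_eq_sum_ones, Nat.cast_sum]
    apply Finset.sum_congr rfl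
    intro q hq
    have hfil : (P.filter (fun p => g p ∈ Q)).filter (fun p => g p = q) =
        P.filter (fun p => g p = q) := by
      ext p
      simp only [Finset.mem_filter]
      constructor
      · rintro ⟨⟨a, b⟩, c⟩; exact ⟨a, c⟩
      · rintro ⟨a, c⟩; exact ⟨⟨a, by rw [c]; exact hq⟩, c⟩
    rw [hfil]
    have hne : (P.filter (fun p => g p = q)).Nonempty := by
      have : q ∈ P.image g := (Finset.mem_sdiff.mp hq).1
      obtain ⟨p, hp, hpq⟩ := Finset.mem_image.mp this
      exact ⟨p, Finset.mem_filter.mpr ⟨hp, hpq⟩⟩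
    have hc : ((P.filter (fun p => g p = q)).card : ℝ) ≠ 0 := by
      have := Finset.card_pos.mpr hne
      positivity
    have : ∀ p ∈ P.filter (fun p => g p = q),
        1 / ((P.filter (fun b => g b = g p)).card : ℝ) =
        1 / ((P.filter (fun b => g b = q)).card : ℝ) := by
      intro p hp
      rw [(Finset.mem_filter.mp hp).2]
    rw [Finset.sum_congr rfl this, Finset.sum_const, nsmul_eq_mul]
    field_simp
    simp
  have h4 : (Q.card : ℝ) ≤ ∑ p ∈ P.filter (fun p => p ∉ E),
      1 / ((P.filter (fun b => g b = g p)).card : ℝ) := by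
    rw [h3]
    apply Finset.sum_le_sum_of_subset_of_nonneg
    · intro p hp
      rw [Finset.mem_filter] at hp ⊢
      refine ⟨hp.1, fun hE => ?_⟩
      have := (Finset.mem_sdiff.mp hp.2).2
      exact this (Finset.mem_image_of_mem g hE)
    · intro p _ _
      positivity
  have h5 : ((P.image g).card : ℝ) ≤ (E.card : ℝ) + (Q.card : ℝ) := by
    have : (P.image g).card ≤ E.card + Q.card := by omega
    exact_mod_cast this
  linarith

/-- Cauchy–Schwarz for collisions. -/
lemma collisions {α : Type*} [DecidableEq α] {m : ℕ} (f : Fin m → α) :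
    ((m : ℝ)) ^ 2 ≤ ((univ.image f).card : ℝ) *
      ∑ i : Fin m, ∑ j : Fin m, (if f i = f j then (1 : ℝ) else 0) := by
  have h1 : ∑ a ∈ univ.image f, (((univ : Finset (Fin m)).filter (fun i => f i = a)).card : ℝ)
      = m := by
    have := Finset.card_eq_sum_card_image f (univ : Finset (Fin m))
    rw [Finset.card_univ, Fintype.card_fin] at this
    exact_mod_cast this.symm
  have h2 : ∑ i : Fin m, ∑ j : Fin m, (if f i = f j then (1 : ℝ) else 0) =
      ∑ a ∈ univ.image f, (((univ : Finset (Fin m)).filter (fun i => f i = a)).card : ℝ) ^ 2 := by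
    rw [← Finset.sum_fiberwise_of_maps_to (s := (univ : Finset (Fin m))) (t := univ.image f)
      (g := f) (fun i _ => Finset.mem_image_of_mem f (Finset.mem_univ i))]
    apply Finset.sum_congr rfl
    intro a _
    have : ∀ i ∈ (univ : Finset (Fin m)).filter (fun i => f i = a),
        ∑ j : Fin m, (if f i = f j then (1 : ℝ) else 0) =
        (((univ : Finset (Fin m)).filter (fun i => f i = a)).card : ℝ) := by
      intro i hi
      rw [(Finset.mem_filter.mp hi).2, Finset.sum_boole]
      congr 2
      ext j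
      simp [eq_comm]
    rw [Finset.sum_congr rfl this, Finset.sum_const, nsmul_eq_mul, sq]
  rw [h2]
  calc ((m : ℝ)) ^ 2 = (∑ a ∈ univ.image f,
      (((univ : Finset (Fin m)).filter (fun i => f i = a)).card : ℝ)) ^ 2 := by rw [h1]
    _ ≤ _ := sq_sum_le_card_mul_sum_sq

variable {V : Type} [Fintype V] [DecidableEq V]

lemma mem_Pos {x y : V} : s(x, y) ∈ Pos V ↔ x ≠ y := by
  simp [Pos]

lemma two_mul_card_pos (P : Sym2 V → Prop) [DecidablePred P] :
    2 * ((Pos V).filter P).card ≤
      ((univ : Finset (V × V)).filter (fun q => q.1 ≠ q.2 ∧ P s(q.1, q.2))).card := by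
  set T := (univ : Finset (V × V)).filter (fun q => q.1 ≠ q.2 ∧ P s(q.1, q.2)) with hT
  have hmap : ∀ q ∈ T, s(q.1, q.2) ∈ (Pos V).filter P := by
    intro q hq
    rw [hT, Finset.mem_filter] at hq
    rw [Finset.mem_filter]
    exact ⟨mem_Pos.mpr hq.2.1, hq.2.2⟩
  rw [Finset.card_eq_sum_card_fiberwise (f := fun q : V × V => s(q.1, q.2)) (t := (Pos V).filter P)
    hmap, mul_comm, ← smul_eq_mul]
  apply Finset.card_nsmul_le_sum
  intro p hp
  induction p using Sym2.ind with
  | _ x y =>
    rw [Finset.mem_filter] at hp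
    have hxy : x ≠ y := mem_Pos.mp hp.1
    have hsub : ({(x, y), (y, x)} : Finset (V × V)) ⊆ T.filter (fun q => s(q.1, q.2) = s(x, y)) := by
      intro q hq
      rw [Finset.mem_insert, Finset.mem_singleton] at hq
      rw [Finset.mem_filter, hT, Finset.mem_filter]
      rcases hq with rfl | rfl
      · exact ⟨⟨Finset.mem_univ _, hxy, hp.2⟩, rfl⟩
      · refine ⟨⟨Finset.mem_univ _, hxy.symm, ?_⟩, Sym2.eq_swap⟩
        change P s(y, x)
        rw [Sym2.eq_swap]
        exact hp.2
    calc 2 = ({(x, y), (y, x)} : Finset (V × V)).card := by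
          rw [Finset.card_pair]
          intro h
          exact hxy (Prod.ext_iff.mp h).1
      _ ≤ _ := Finset.card_le_card hsub

lemma two_mul_pos_le : 2 * (Pos V).card ≤ Fintype.card V ^ 2 := by
  have h := two_mul_card_pos (V := V) (fun _ => True)
  have h0 : (Pos V).filter (fun _ => True) = Pos V := Finset.filter_true_of_mem (fun _ _ => trivial)
  rw [h0] at h
  refine h.trans ?_
  calc _ ≤ (univ : Finset (V × V)).card := Finset.card_filter_le _ _
    _ = Fintype.card V ^ 2 := by rw [Finset.card_univ, Fintype.card_prod, sq]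

/-- positions on which two permutations agree -/
lemma agree_bound (σ τ : Equiv.Perm V)
    (h : 3 * (univ.filter (fun x => σ x = τ x)).card ≤ 2 * Fintype.card V) :
    ((((Pos V).filter (fun p => Sym2.map σ p = Sym2.map τ p)).card : ℕ) : ℝ) ≤
      (2 / 9) * (Fintype.card V : ℝ) ^ 2 + (Fintype.card V : ℝ) / 2 := by
  set A := univ.filter (fun x => σ x = τ x) with hA
  have h1 := two_mul_card_pos (V := V) (fun p => Sym2.map σ p = Sym2.map τ p)
  have h2 : ((univ : Finset (V × V)).filter
      (fun q => q.1 ≠ q.2 ∧ Sym2.map σ s(q.1, q.2) = Sym2.map τ s(q.1, q.2))).card ≤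
      A.card ^ 2 + Fintype.card V := by
    have hsub : ((univ : Finset (V × V)).filter
      (fun q => q.1 ≠ q.2 ∧ Sym2.map σ s(q.1, q.2) = Sym2.map τ s(q.1, q.2))) ⊆
      (A ×ˢ A) ∪ (univ.image (fun x : V => (x, τ.symm (σ x)))) := by
      rintro ⟨x, y⟩ hq
      rw [Finset.mem_filter] at hq
      have h3 := hq.2.2
      simp only [Sym2.map_mk, Sym2.eq_iff] at h3
      rw [Finset.mem_union]
      rcases h3 with ⟨h4, h5⟩ | ⟨h4, h5⟩
      · left
        rw [Finset.mem_product]
        simp [hA, h4, h5]
      · right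
        rw [Finset.mem_image]
        exact ⟨x, Finset.mem_univ _, by simp [h4]⟩
    calc _ ≤ ((A ×ˢ A) ∪ (univ.image (fun x : V => (x, τ.symm (σ x))))).card :=
          Finset.card_le_card hsub
      _ ≤ (A ×ˢ A).card + (univ.image (fun x : V => (x, τ.symm (σ x)))).card :=
          Finset.card_union_le _ _
      _ ≤ A.card ^ 2 + Fintype.card V := by
          rw [Finset.card_product, sq]
          gcongr
          exact Finset.card_image_le.trans (by rw [Finset.card_univ])
  have h3 : (2 * (((Pos V).filter (fun p => Sym2.map σ p = Sym2.map τ p)).card : ℝ)) ≤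
      (A.card : ℝ) ^ 2 + (Fintype.card V : ℝ) := by
    exact_mod_cast h1.trans h2
  have h4 : (3 * (A.card : ℝ)) ≤ 2 * (Fintype.card V : ℝ) := by exact_mod_cast h
  have h5 : (A.card : ℝ) ^ 2 ≤ (4 / 9) * (Fintype.card V : ℝ) ^ 2 := by
    have h6 : (0 : ℝ) ≤ A.card := Nat.cast_nonneg _
    nlinarith
  linarith

end T3aux

open T3aux in
theorem ncl_kind1 {V : Type} [Fintype V] [DecidableEq V] {m : ℕ} (hm : 1 ≤ m)
    (c : Fin m → NAut V)
    (hc : ∀ i j, i ≠ j →
      3 * (univ.filter (fun x => (c i).1 x = (c j).1 x)).card ≤ 2 * Fintype.card V) :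
    (ncl (L1 c) : ℝ) ≤ (Fintype.card V : ℝ) ^ 2 / (2 * m) + (2 / 9) * (Fintype.card V : ℝ) ^ 2
      + (2 * m + 1) * (Fintype.card V : ℝ) := by
  classical
  set n : ℝ := (Fintype.card V : ℝ) with hn
  have hn0 : 0 ≤ n := Nat.cast_nonneg _
  have hm0 : (1 : ℝ) ≤ m := by exact_mod_cast hm
  set g : Sym2 V → Quotient (Relation.EqvGen.setoid (L1 c)) := fun a => Quotient.mk _ a with hg
  have hncl : ncl (L1 c) = ((Pos V).image g).card := by
    unfold ncl
    congr!
  -- exceptional positions
  set B : Finset V := (univ.image (fun i => (c i).2.1)) ∪ (univ.image (fun i => (c i).2.2)) with hB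
  have hBcard : B.card ≤ 2 * m := by
    calc B.card ≤ _ := Finset.card_union_le _ _
      _ ≤ m + m := by
        gcongr
        · exact Finset.card_image_le.trans (by simp)
        · exact Finset.card_image_le.trans (by simp)
      _ = 2 * m := by ring
  set E : Finset (Sym2 V) := (B ×ˢ (univ : Finset V)).image (fun q => s(q.1, q.2)) with hE
  have hEcard : (E.card : ℝ) ≤ 2 * m * n := by
    have : E.card ≤ 2 * m * Fintype.card V := by
      calc E.card ≤ (B ×ˢ (univ : Finset V)).card := Finset.card_image_le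
        _ = B.card * Fintype.card V := by rw [Finset.card_product, Finset.card_univ]
        _ ≤ 2 * m * Fintype.card V := Nat.mul_le_mul_right _ hBcard
    rw [hn]
    exact_mod_cast this
  have hlink : ∀ p ∈ Pos V, p ∉ E → ∀ i, Sym2.map (c i).1 p ∈ (Pos V).filter (fun b => g b = g p) := by
    intro p hp hpE i
    induction p using Sym2.ind with
    | _ x y =>
      have hx : x ∉ B := by
        intro hx
        apply hpE
        rw [hE, Finset.mem_image]
        exact ⟨(x, y), Finset.mem_product.mpr ⟨hx, Finset.mem_univ _⟩, rfl⟩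
      have hy : y ∉ B := by
        intro hy
        apply hpE
        rw [hE, Finset.mem_image]
        exact ⟨(y, x), Finset.mem_product.mpr ⟨hy, Finset.mem_univ _⟩, Sym2.eq_swap⟩
      have hb1 : (c i).2.1 ∈ B := by
        rw [hB, Finset.mem_union]; left
        exact Finset.mem_image_of_mem _ (Finset.mem_univ i)
      have hb2 : (c i).2.2 ∈ B := by
        rw [hB, Finset.mem_union]; right
        exact Finset.mem_image_of_mem (fun i => (c i).2.2) (Finset.mem_univ i)
      rw [Finset.mem_filter]
      rw [Sym2.map_mk]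
      refine ⟨mem_Pos.mpr ?_, ?_⟩
      · intro h
        exact (mem_Pos.mp hp) ((c i).1.injective h)
      · apply Quotient.sound
        apply Relation.EqvGen.symm
        apply Relation.EqvGen.rel
        exact ⟨i, x, y, fun h => hx (h ▸ hb1), fun h => hx (h ▸ hb2), fun h => hy (h ▸ hb1),
          fun h => hy (h ▸ hb2), rfl, rfl⟩
  have hweight := image_card_le_weight (Pos V) g E
  rw [hncl]
  -- bound every weight
  have hw : ∀ p ∈ (Pos V).filter (fun p => p ∉ E),
      1 / (((Pos V).filter (fun b => g b = g p)).card : ℝ) ≤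
      (1 / (m : ℝ) ^ 2) * ∑ i : Fin m, ∑ j : Fin m,
        (if Sym2.map (c i).1 p = Sym2.map (c j).1 p then (1 : ℝ) else 0) := by
    intro p hp
    rw [Finset.mem_filter] at hp
    set f : Fin m → Sym2 V := fun i => Sym2.map (c i).1 p with hf
    have hsub : univ.image f ⊆ (Pos V).filter (fun b => g b = g p) := by
      intro q hq
      obtain ⟨i, _, rfl⟩ := Finset.mem_image.mp hq
      exact hlink p hp.1 hp.2 i
    have hk : ((univ.image f).card : ℝ) ≤ (((Pos V).filter (fun b => g b = g p)).card : ℝ) := by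
      exact_mod_cast Finset.card_le_card hsub
    have hkpos : (0 : ℝ) < ((univ.image f).card : ℝ) := by
      have : (univ.image f).Nonempty := ⟨f ⟨0, hm⟩, Finset.mem_image_of_mem _ (Finset.mem_univ _)⟩
      exact_mod_cast Finset.card_pos.mpr this
    have hcol := collisions f
    calc 1 / (((Pos V).filter (fun b => g b = g p)).card : ℝ)
        ≤ 1 / ((univ.image f).card : ℝ) := one_div_le_one_div_of_le hkpos hk
      _ ≤ (1 / (m : ℝ) ^ 2) * ∑ i : Fin m, ∑ j : Fin m, (if f i = f j then (1 : ℝ) else 0) := by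
        rw [one_div_mul_eq_div, div_le_div_iff₀ hkpos (by positivity)]
        linarith
  have hsum : ∑ p ∈ (Pos V).filter (fun p => p ∉ E),
      1 / (((Pos V).filter (fun b => g b = g p)).card : ℝ) ≤
      (1 / (m : ℝ) ^ 2) * ∑ i : Fin m, ∑ j : Fin m,
        (((Pos V).filter (fun p => Sym2.map (c i).1 p = Sym2.map (c j).1 p)).card : ℝ) := by
    calc _ ≤ ∑ p ∈ (Pos V).filter (fun p => p ∉ E),
        (1 / (m : ℝ) ^ 2) * ∑ i : Fin m, ∑ j : Fin m,
        (if Sym2.map (c i).1 p = Sym2.map (c j).1 p then (1 : ℝ) else 0) := Finset.sum_le_sum hw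
      _ ≤ ∑ p ∈ Pos V,
        (1 / (m : ℝ) ^ 2) * ∑ i : Fin m, ∑ j : Fin m,
        (if Sym2.map (c i).1 p = Sym2.map (c j).1 p then (1 : ℝ) else 0) := by
          apply Finset.sum_le_sum_of_subset_of_nonneg (Finset.filter_subset _ _)
          intro p _ _
          positivity
      _ = _ := by
          rw [← Finset.mul_sum, Finset.sum_comm]
          congr 1
          apply Finset.sum_congr rfl
          intro i _
          rw [Finset.sum_comm]
          apply Finset.sum_congr rfl
          intro j _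
          rw [Finset.sum_boole]
  have hpos : ((Pos V).card : ℝ) ≤ n ^ 2 / 2 := by
    have := two_mul_pos_le (V := V)
    have h2 : (2 * ((Pos V).card : ℝ)) ≤ n ^ 2 := by rw [hn]; exact_mod_cast this
    linarith
  set b : ℝ := (2 / 9) * n ^ 2 + n / 2 with hb
  have hb0 : 0 ≤ b := by positivity
  have hij : ∀ i j : Fin m,
      (((Pos V).filter (fun p => Sym2.map (c i).1 p = Sym2.map (c j).1 p)).card : ℝ) ≤
      b + (if i = j then n ^ 2 / 2 else 0) := by
    intro i j
    by_cases h : i = j
    · rw [if_pos h]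
      calc _ ≤ ((Pos V).card : ℝ) := by exact_mod_cast Finset.card_filter_le _ _
        _ ≤ _ := by linarith
    · rw [if_neg h, add_zero]
      exact agree_bound (c i).1 (c j).1 (hc i j h)
  have hfin : ∑ i : Fin m, ∑ j : Fin m,
        (((Pos V).filter (fun p => Sym2.map (c i).1 p = Sym2.map (c j).1 p)).card : ℝ) ≤
      (m : ℝ) ^ 2 * b + m * (n ^ 2 / 2) := by
    calc _ ≤ ∑ i : Fin m, ∑ j : Fin m, (b + (if i = j then n ^ 2 / 2 else 0)) :=
          Finset.sum_le_sum (fun i _ => Finset.sum_le_sum (fun j _ => hij i j))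
      _ = (m : ℝ) ^ 2 * b + m * (n ^ 2 / 2) := by
          simp only [Finset.sum_add_distrib, Finset.sum_const, Finset.card_univ, Fintype.card_fin,
            nsmul_eq_mul, Finset.sum_ite_eq, Finset.mem_univ, if_true]
          ring
  have hmm : (0 : ℝ) < (m : ℝ) ^ 2 := by positivity
  have hfin2 : (1 / (m : ℝ) ^ 2) * ∑ i : Fin m, ∑ j : Fin m,
        (((Pos V).filter (fun p => Sym2.map (c i).1 p = Sym2.map (c j).1 p)).card : ℝ) ≤
      b + n ^ 2 / (2 * m) := by
    calc _ ≤ (1 / (m : ℝ) ^ 2) * ((m : ℝ) ^ 2 * b + m * (n ^ 2 / 2)) := by gcongr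
      _ = b + n ^ 2 / (2 * m) := by field_simp
  have : ((((Pos V).image g).card : ℕ) : ℝ) ≤ 2 * m * n + (b + n ^ 2 / (2 * m)) := by linarith
  rw [hb] at this
  nlinarith

end Pool.Agent.H234RC
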