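import Pool.Agent.H234RC.Defs

set_option autoImplicit false

namespace Pool.Agent.H234RC

open Finset

theorem image_card_le_four {α β : Type} [DecidableEq α] [DecidableEq β] (A U E : Finset α)
    (f : α → β)
    (h4 : ∀ a ∈ A, a ∉ E → a ∉ U → 4 ≤ (A.filter (fun b => f b = f a)).card)
    (h2 : ∀ a ∈ A, a ∉ E → 2 ≤ (A.filter (fun b => f b = f a)).card) :
    4 * (A.image f).card ≤ A.card + U.card + 3 * E.card := by
  have key : ∀ b ∈ A.image f, 4 ≤ ∑ a ∈ A with f a = b,
      (1 + (if a ∈ U then 1 else 0) + (if a ∈ E then 3 else 0)) := by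
    intro b hb
    obtain ⟨a0, ha0, rfl⟩ := mem_image.mp hb
    by_cases hE : ∃ a ∈ A, f a = f a0 ∧ a ∈ E
    · obtain ⟨a, ha, hfa, haE⟩ := hE
      have hmem : a ∈ A.filter (fun x => f x = f a0) := mem_filter.mpr ⟨ha, hfa⟩
      refine le_trans ?_ (single_le_sum (f := fun a => (1 + (if a ∈ U then 1 else 0) + (if a ∈ E then 3 else 0) : ℕ)) (fun i _ => Nat.zero_le _) hmem)
      simp only [haE, if_true]
      omega
    · push Not at hE
      by_cases hU : ∃ a ∈ A, f a = f a0 ∧ a ∉ U
      · obtain ⟨a, ha, hfa, haU⟩ := hU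
        have := h4 a ha (hE a ha hfa) haU
        rw [hfa] at this
        calc 4 ≤ (A.filter (fun b => f b = f a0)).card := this
          _ = ∑ a ∈ A with f a = f a0, 1 := by simp
          _ ≤ _ := sum_le_sum (fun i _ => by omega)
      · push Not at hU
        have := h2 a0 ha0 (hE a0 ha0 rfl)
        calc 4 ≤ (A.filter (fun b => f b = f a0)).card * 2 := by omega
          _ = ∑ a ∈ A with f a = f a0, 2 := by simp
          _ ≤ _ := sum_le_sum (fun i hi => by
              have hi' := mem_filter.mp hi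
              simp only [hU i hi'.1 hi'.2, if_true]
              omega)
  have h1 : 4 * (A.image f).card ≤ ∑ a ∈ A, (1 + (if a ∈ U then 1 else 0) + (if a ∈ E then 3 else 0)) := by
    calc 4 * (A.image f).card = ∑ b ∈ A.image f, 4 := by simp [mul_comm]
      _ ≤ ∑ b ∈ A.image f, ∑ a ∈ A with f a = b, (1 + (if a ∈ U then 1 else 0) + (if a ∈ E then 3 else 0)) :=
          sum_le_sum key
      _ = _ := sum_fiberwise_of_maps_to (fun a ha => mem_image_of_mem f ha) _
  refine h1.trans ?_
  rw [sum_add_distrib, sum_add_distrib]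
  have e1 : ∑ a ∈ A, (if a ∈ U then 1 else 0) ≤ U.card := by
    rw [← sum_filter, sum_const, smul_eq_mul, mul_one]
    exact card_le_card (fun a ha => (mem_filter.mp ha).2)
  have e2 : ∑ a ∈ A, (if a ∈ E then 3 else 0) ≤ 3 * E.card := by
    rw [← sum_filter, sum_const, smul_eq_mul, mul_comm]
    exact Nat.mul_le_mul_left _ (card_le_card (fun a ha => (mem_filter.mp ha).2))
  have e3 : ∑ a ∈ A, 1 = A.card := by simp
  omega

theorem image_card_le_two {α β : Type} [DecidableEq α] [DecidableEq β] (A E : Finset α)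
    (f : α → β)
    (h2 : ∀ a ∈ A, a ∉ E → 2 ≤ (A.filter (fun b => f b = f a)).card) :
    2 * (A.image f).card ≤ A.card + E.card := by
  have key : ∀ b ∈ A.image f, 2 ≤ ∑ a ∈ A with f a = b, (1 + (if a ∈ E then 1 else 0)) := by
    intro b hb
    obtain ⟨a0, ha0, rfl⟩ := mem_image.mp hb
    by_cases hE : ∃ a ∈ A, f a = f a0 ∧ a ∈ E
    · obtain ⟨a, ha, hfa, haE⟩ := hE
      have hmem : a ∈ A.filter (fun x => f x = f a0) := mem_filter.mpr ⟨ha, hfa⟩
      refine le_trans ?_ (single_le_sum (f := fun a => (1 + (if a ∈ E then 1 else 0) : ℕ)) (fun i _ => Nat.zero_le _) hmem)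
      simp only [haE, if_true]
      omega
    · push Not at hE
      have := h2 a0 ha0 (hE a0 ha0 rfl)
      calc 2 ≤ (A.filter (fun b => f b = f a0)).card := this
        _ = ∑ a ∈ A with f a = f a0, 1 := by simp
        _ ≤ _ := sum_le_sum (fun i _ => by omega)
  have h1 : 2 * (A.image f).card ≤ ∑ a ∈ A, (1 + (if a ∈ E then 1 else 0)) := by
    calc 2 * (A.image f).card = ∑ b ∈ A.image f, 2 := by simp [mul_comm]
      _ ≤ ∑ b ∈ A.image f, ∑ a ∈ A with f a = b, (1 + (if a ∈ E then 1 else 0)) :=
          sum_le_sum key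
      _ = _ := sum_fiberwise_of_maps_to (fun a ha => mem_image_of_mem f ha) _
  refine h1.trans ?_
  rw [sum_add_distrib]
  have e2 : ∑ a ∈ A, (if a ∈ E then 1 else 0) ≤ E.card := by
    rw [← sum_filter, sum_const, smul_eq_mul, mul_one]
    exact card_le_card (fun a ha => (mem_filter.mp ha).2)
  have e3 : ∑ a ∈ A, 1 = A.card := by simp
  omega

/-- half of the points can be ranked downwards along a fixed-point-free map -/
theorem exists_half_rank {V : Type} [Fintype V] [DecidableEq V] (S : Finset V) (y : V → V)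
    (hy : ∀ x ∈ S, y x ≠ x) :
    ∃ (X : Finset V) (ρ : V → ℕ), X ⊆ S ∧ S.card ≤ 2 * X.card ∧ ∀ x ∈ X, ρ (y x) < ρ x := by
  classical
  let r : V → ℕ := fun x => (Fintype.equivFin V x : ℕ)
  have hr : Function.Injective r := by
    intro a b hab
    exact (Fintype.equivFin V).injective (Fin.ext hab)
  have hrlt : ∀ x, r x < Fintype.card V := fun x => (Fintype.equivFin V x).2
  let X1 := S.filter (fun x => r (y x) < r x)
  let X2 := S.filter (fun x => r x < r (y x))
  have hS : S ⊆ X1 ∪ X2 := by
    intro x hx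
    have hne : r (y x) ≠ r x := fun h => hy x hx (hr h)
    rcases lt_or_gt_of_ne hne with h | h
    · exact mem_union_left _ (mem_filter.mpr ⟨hx, h⟩)
    · exact mem_union_right _ (mem_filter.mpr ⟨hx, h⟩)
  have hc : S.card ≤ X1.card + X2.card := (card_le_card hS).trans (card_union_le _ _)
  by_cases h : X2.card ≤ X1.card
  · exact ⟨X1, r, filter_subset _ _, by omega, fun x hx => (mem_filter.mp hx).2⟩
  · refine ⟨X2, fun x => Fintype.card V - r x, filter_subset _ _, by omega, fun x hx => ?_⟩
    have h1 := (mem_filter.mp hx).2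
    have h2 := hrlt x
    have h3 := hrlt (y x)
    show Fintype.card V - r (y x) < Fintype.card V - r x
    omega

end Pool.Agent.H234RC
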