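import Pool.Agent.H234RC.Cl
import Pool.Agent.H234RC.T3
import Pool.Agent.H234RC.T5

set_option autoImplicit false

/-! T8: region `S × M0`. -/

namespace Pool.Agent.H234RC

open Finset

section kind2

variable {V : Type} [Fintype V] [DecidableEq V] {t d K : ℕ}

open Classical in
/-- T8: region `S × M0` -/
theorem region_SM (c : Cert V t d) (G : SimpleGraph V) (hv : c.Valid K) (hc : c.Compat G) :
    2 * (((Pos V).filter (fun a => ∃ x ∈ c.S, ∃ z ∈ c.M0, a = s(x, z))).image (cl c)).card ≤
      c.S.card * c.M0.card + 8 * t * Fintype.card V := by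
  set A := (Pos V).filter (fun a => ∃ x ∈ c.S, ∃ z ∈ c.M0, a = s(x, z)) with hA
  set B : Finset V := ((univ.image (fun i => (c.Φ i).2.1)) ∪ (univ.image (fun i => (c.Φ i).2.2))) ∪
    ((univ.image (fun i => (c.Φ i).1.symm (c.Φ i).2.1)) ∪
      (univ.image (fun i => (c.Φ i).1.symm (c.Φ i).2.2))) with hB
  have himg : ∀ f : Fin t → V, (univ.image f).card ≤ t := fun f =>
    Finset.card_image_le.trans (by simp)
  have hBcard : B.card ≤ 4 * t := by
    have h1 := Finset.card_union_le ((univ.image (fun i => (c.Φ i).2.1)) ∪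
      (univ.image (fun i => (c.Φ i).2.2))) ((univ.image (fun i => (c.Φ i).1.symm (c.Φ i).2.1)) ∪
      (univ.image (fun i => (c.Φ i).1.symm (c.Φ i).2.2)))
    have h2 := Finset.card_union_le (univ.image (fun i => (c.Φ i).2.1))
      (univ.image (fun i => (c.Φ i).2.2))
    have h3 := Finset.card_union_le (univ.image (fun i => (c.Φ i).1.symm (c.Φ i).2.1))
      (univ.image (fun i => (c.Φ i).1.symm (c.Φ i).2.2))
    have h4 := himg (fun i => (c.Φ i).2.1)
    have h5 := himg (fun i => (c.Φ i).2.2)
    have h6 := himg (fun i => (c.Φ i).1.symm (c.Φ i).2.1)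
    have h7 := himg (fun i => (c.Φ i).1.symm (c.Φ i).2.2)
    rw [hB]
    omega
  set E : Finset (Sym2 V) := (B ×ˢ (univ : Finset V)).image (fun q => s(q.1, q.2)) with hE
  have hEcard : E.card ≤ 4 * t * Fintype.card V := by
    calc E.card ≤ (B ×ˢ (univ : Finset V)).card := Finset.card_image_le
      _ = B.card * Fintype.card V := by rw [Finset.card_product, Finset.card_univ]
      _ ≤ 4 * t * Fintype.card V := Nat.mul_le_mul_right _ hBcard
  have hAcard : A.card ≤ c.S.card * c.M0.card := by
    calc A.card ≤ ((c.S ×ˢ c.M0).image (fun q => s(q.1, q.2))).card := by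
          apply Finset.card_le_card
          intro a ha
          obtain ⟨x, hx, z, hz, rfl⟩ := (Finset.mem_filter.mp ha).2
          exact Finset.mem_image.mpr ⟨(x, z), Finset.mem_product.mpr ⟨hx, hz⟩, rfl⟩
      _ ≤ (c.S ×ˢ c.M0).card := Finset.card_image_le
      _ = _ := Finset.card_product _ _
  have key : ∀ a ∈ A, a ∉ E → 2 ≤ (A.filter (fun b => cl c b = cl c a)).card := by
    intro a ha haE
    obtain ⟨hapos, x, hx, z, hz, rfl⟩ := Finset.mem_filter.mp ha
    have hxB : x ∉ B := by
      intro h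
      exact haE (Finset.mem_image.mpr ⟨(x, z), Finset.mem_product.mpr ⟨h, Finset.mem_univ _⟩, rfl⟩)
    have hzB : z ∉ B := by
      intro h
      exact haE (Finset.mem_image.mpr ⟨(z, x), Finset.mem_product.mpr ⟨h, Finset.mem_univ _⟩,
        Sym2.eq_swap⟩)
    have hxM0 : x ∉ c.M0 := (Finset.mem_filter.mp hx).2.1
    obtain ⟨i, _, hzi⟩ := Finset.mem_biUnion.mp hz
    have hzi' := (Finset.mem_filter.mp hzi).2
    have hb1 : (c.Φ i).2.1 ∈ B := by
      rw [hB, Finset.mem_union]; left; rw [Finset.mem_union]; left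
      exact Finset.mem_image_of_mem (fun i => (c.Φ i).2.1) (Finset.mem_univ i)
    have hb2 : (c.Φ i).2.2 ∈ B := by
      rw [hB, Finset.mem_union]; left; rw [Finset.mem_union]; right
      exact Finset.mem_image_of_mem (fun i => (c.Φ i).2.2) (Finset.mem_univ i)
    have hb3 : (c.Φ i).1.symm (c.Φ i).2.1 ∈ B := by
      rw [hB, Finset.mem_union]; right; rw [Finset.mem_union]; left
      exact Finset.mem_image_of_mem (fun i => (c.Φ i).1.symm (c.Φ i).2.1) (Finset.mem_univ i)
    have hb4 : (c.Φ i).1.symm (c.Φ i).2.2 ∈ B := by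
      rw [hB, Finset.mem_union]; right; rw [Finset.mem_union]; right
      exact Finset.mem_image_of_mem (fun i => (c.Φ i).1.symm (c.Φ i).2.2) (Finset.mem_univ i)
    have hx1 : x ≠ (c.Φ i).2.1 := fun h => hxB (h ▸ hb1)
    have hx2 : x ≠ (c.Φ i).2.2 := fun h => hxB (h ▸ hb2)
    have hfx : (c.Φ i).1 x = x := by
      by_contra h
      apply hxM0
      exact Finset.mem_biUnion.mpr ⟨i, Finset.mem_univ _,
        Finset.mem_filter.mpr ⟨Finset.mem_univ _, hx1, hx2, h⟩⟩
    set z' := (c.Φ i).1 z with hz'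
    have hz1 : z' ≠ (c.Φ i).2.1 := by
      intro h
      apply hzB
      have : z = (c.Φ i).1.symm (c.Φ i).2.1 := by rw [← h, hz']; simp
      rw [this]; exact hb3
    have hz2 : z' ≠ (c.Φ i).2.2 := by
      intro h
      apply hzB
      have : z = (c.Φ i).1.symm (c.Φ i).2.2 := by rw [← h, hz']; simp
      rw [this]; exact hb4
    have hzz : z' ≠ z := hzi'.2.2
    have hz'M : z' ∈ c.M0 := by
      apply Finset.mem_biUnion.mpr
      refine ⟨i, Finset.mem_univ _, Finset.mem_filter.mpr ⟨Finset.mem_univ _, hz1, hz2, ?_⟩⟩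
      intro h
      exact hzz ((c.Φ i).1.injective h)
    have hxz' : x ≠ z' := fun h => hxM0 (h ▸ hz'M)
    have hmem1 : s(x, z) ∈ A.filter (fun b => cl c b = cl c s(x, z)) :=
      Finset.mem_filter.mpr ⟨ha, rfl⟩
    have hmem2 : s(x, z') ∈ A.filter (fun b => cl c b = cl c s(x, z)) := by
      refine Finset.mem_filter.mpr ⟨Finset.mem_filter.mpr ⟨T3aux.mem_Pos.mpr hxz', x, hx, z', hz'M,
        rfl⟩, ?_⟩
      unfold cl
      apply Quotient.sound
      apply Relation.EqvGen.symm
      apply Relation.EqvGen.rel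
      left
      exact ⟨i, x, z, hx1, hx2, hzi'.1, hzi'.2.1, rfl, by rw [hfx]⟩
    have hne : s(x, z) ≠ s(x, z') := by
      intro h
      rw [Sym2.eq_iff] at h
      rcases h with ⟨_, h⟩ | ⟨h, _⟩
      · exact hzz h.symm
      · exact hxz' h
    calc 2 = ({s(x, z), s(x, z')} : Finset (Sym2 V)).card := (Finset.card_pair hne).symm
      _ ≤ _ := by
        apply Finset.card_le_card
        intro b hb
        rw [Finset.mem_insert, Finset.mem_singleton] at hb
        rcases hb with rfl | rfl
        · exact hmem1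
        · exact hmem2
  have h2 := image_card_le_two A E (cl c) (by convert key)
  have h3 : 2 * (A.image (cl c)).card ≤ A.card + E.card := by convert h2
  nlinarith [Nat.zero_le (t * Fintype.card V)]

end kind2

end Pool.Agent.H234RC
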