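import Pool.Agent.H234RC.Cl
import Pool.Agent.H234RC.T5

set_option autoImplicit false

namespace Pool.Agent.H234RC

open Finset

namespace T9aux

variable {V : Type} [Fintype V] [DecidableEq V] {t d K : ℕ}

/-- unordered pairs are at most half of the ordered ones -/
theorem two_mul_card_le (U : Finset (Sym2 V)) (O : Finset (V × V)) (hd : ∀ a ∈ U, ¬ a.IsDiag)
    (hU : ∀ a ∈ U, ∀ x z, a = s(x, z) → (x, z) ∈ O) : 2 * U.card ≤ O.card := by
  classical
  have h1 : U ⊆ (O.filter (fun p => s(p.1, p.2) ∈ U)).image (fun p => s(p.1, p.2)) := by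
    intro a ha
    induction a with
    | _ x z =>
      rw [mem_image]
      exact ⟨(x, z), mem_filter.2 ⟨hU _ ha x z rfl, ha⟩, rfl⟩
  have h2 : 2 * ((O.filter (fun p => s(p.1, p.2) ∈ U)).image (fun p => s(p.1, p.2))).card ≤
      (O.filter (fun p => s(p.1, p.2) ∈ U)).card := by
    apply mul_card_image_le_card
    intro b hb
    rw [mem_image] at hb
    obtain ⟨⟨x, z⟩, hp, rfl⟩ := hb
    rw [mem_filter] at hp
    have hne : x ≠ z := by
      intro h
      exact hd _ hp.2 (by simp [h])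
    have hsub : ({(x, z), (z, x)} : Finset (V × V)) ⊆
        (O.filter (fun p => s(p.1, p.2) ∈ U)).filter (fun p => s(p.1, p.2) = s(x, z)) := by
      intro p hp'
      simp only [mem_insert, mem_singleton] at hp'
      rcases hp' with rfl | rfl
      · exact mem_filter.2 ⟨mem_filter.2 hp, rfl⟩
      · refine mem_filter.2 ⟨mem_filter.2 ⟨?_, ?_⟩, ?_⟩
        · exact hU _ hp.2 z x (Sym2.eq_swap)
        · show s(z, x) ∈ U
          rw [Sym2.eq_swap]
          exact hp.2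
        · exact Sym2.eq_swap
    have hc2 : ({(x, z), (z, x)} : Finset (V × V)).card = 2 := by
      rw [card_pair]
      intro h
      exact hne (congrArg Prod.fst h)
    rw [← hc2]
    exact card_le_card hsub
  calc 2 * U.card ≤ 2 * _ := Nat.mul_le_mul_left 2 (card_le_card h1)
    _ ≤ _ := h2
    _ ≤ O.card := card_filter_le _ _

/-- break points -/
def brk (c : Cert V t d) : Finset V :=
  (univ : Finset (Fin t)).image (fun i => (c.Φ i).2.1) ∪
    (univ : Finset (Fin t)).image (fun i => (c.Φ i).2.2)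

theorem mem_brk {c : Cert V t d} {x : V} : x ∈ brk c ↔ ∃ i, x = (c.Φ i).2.1 ∨ x = (c.Φ i).2.2 := by
  simp only [brk, mem_union, mem_image, mem_univ, true_and]
  constructor
  · rintro (⟨i, h⟩ | ⟨i, h⟩)
    · exact ⟨i, Or.inl h.symm⟩
    · exact ⟨i, Or.inr h.symm⟩
  · rintro ⟨i, h | h⟩
    · exact Or.inl ⟨i, h.symm⟩
    · exact Or.inr ⟨i, h.symm⟩

theorem card_brk (c : Cert V t d) : (brk c).card ≤ 2 * t := by
  unfold brk
  refine (card_union_le _ _).trans ?_
  have h1 := card_image_le (s := (univ : Finset (Fin t))) (f := fun i => (c.Φ i).2.1)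
  have h2 := card_image_le (s := (univ : Finset (Fin t))) (f := fun i => (c.Φ i).2.2)
  simp only [card_univ, Fintype.card_fin] at h1 h2
  omega

/-- exceptional vertices -/
def exc (c : Cert V t d) : Finset V :=
  (brk c ∪ (univ ×ˢ brk c : Finset (Fin t × V)).image (fun p => (c.Φ p.1).1.symm p.2)) ∪
    ((univ : Finset (Fin t × Fin t)).image
      (fun p => (c.Φ p.1).1.symm ((c.Φ p.2).1.symm (c.Φ p.2).2.1)) ∪
    (univ : Finset (Fin t × Fin t)).image
      (fun p => (c.Φ p.1).1.symm ((c.Φ p.2).1.symm (c.Φ p.2).2.2)))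

theorem card_exc (c : Cert V t d) : (exc c).card ≤ 2 * t + 4 * t ^ 2 := by
  unfold exc
  have h1 := card_brk c
  have h2 := card_image_le (s := (univ ×ˢ brk c : Finset (Fin t × V)))
    (f := fun p => (c.Φ p.1).1.symm p.2)
  have h3 := card_image_le (s := (univ : Finset (Fin t × Fin t)))
      (f := fun p => (c.Φ p.1).1.symm ((c.Φ p.2).1.symm (c.Φ p.2).2.1))
  have h4 := card_image_le (s := (univ : Finset (Fin t × Fin t)))
      (f := fun p => (c.Φ p.1).1.symm ((c.Φ p.2).1.symm (c.Φ p.2).2.2))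
  rw [card_product, card_univ, Fintype.card_fin] at h2
  rw [card_univ, Fintype.card_prod, Fintype.card_fin] at h3 h4
  have h5 : t * (brk c).card ≤ t * (2 * t) := Nat.mul_le_mul_left t h1
  have e1 : t * (2 * t) = 2 * t ^ 2 := by ring
  have e2 : t * t = t ^ 2 := by ring
  have u1 := card_union_le (brk c ∪ (univ ×ˢ brk c : Finset (Fin t × V)).image
    (fun p => (c.Φ p.1).1.symm p.2)) ((univ : Finset (Fin t × Fin t)).image
      (fun p => (c.Φ p.1).1.symm ((c.Φ p.2).1.symm (c.Φ p.2).2.1)) ∪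
    (univ : Finset (Fin t × Fin t)).image
      (fun p => (c.Φ p.1).1.symm ((c.Φ p.2).1.symm (c.Φ p.2).2.2)))
  have u2 := card_union_le (brk c) ((univ ×ˢ brk c : Finset (Fin t × V)).image
    (fun p => (c.Φ p.1).1.symm p.2))
  have u3 := card_union_le ((univ : Finset (Fin t × Fin t)).image
      (fun p => (c.Φ p.1).1.symm ((c.Φ p.2).1.symm (c.Φ p.2).2.1)))
    ((univ : Finset (Fin t × Fin t)).image
      (fun p => (c.Φ p.1).1.symm ((c.Φ p.2).1.symm (c.Φ p.2).2.2)))
  omega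

theorem exc_spec {c : Cert V t d} {x : V} (hx : x ∉ exc c) :
    (∀ i, x ≠ (c.Φ i).2.1 ∧ x ≠ (c.Φ i).2.2) ∧
    (∀ i j, (c.Φ i).1 x ≠ (c.Φ j).2.1 ∧ (c.Φ i).1 x ≠ (c.Φ j).2.2) ∧
    (∀ i j, (c.Φ j).1 ((c.Φ i).1 x) ≠ (c.Φ j).2.1 ∧ (c.Φ j).1 ((c.Φ i).1 x) ≠ (c.Φ j).2.2) := by
  simp only [exc, mem_union, mem_image, mem_product, mem_univ, true_and, not_or, Prod.exists,
    not_exists, mem_brk] at hx
  obtain ⟨⟨h1, h2⟩, h3, h4⟩ := hx
  refine ⟨h1, fun i j => ⟨fun h => ?_, fun h => ?_⟩,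
    fun i j => ⟨fun h => ?_, fun h => ?_⟩⟩
  · exact h2 i ((c.Φ i).1 x) ⟨⟨j, Or.inl h⟩, Equiv.symm_apply_apply _ _⟩
  · exact h2 i ((c.Φ i).1 x) ⟨⟨j, Or.inr h⟩, Equiv.symm_apply_apply _ _⟩
  · apply h3 i j
    rw [← h, Equiv.symm_apply_apply, Equiv.symm_apply_apply]
  · apply h4 i j
    rw [← h, Equiv.symm_apply_apply, Equiv.symm_apply_apply]

/-- exceptional positions -/
def Eset (c : Cert V t d) : Finset (Sym2 V) :=
  (exc c ×ˢ univ : Finset (V × V)).image (fun p => s(p.1, p.2)) ∪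
    ((univ : Finset (V × Fin t)).image (fun p => s(p.1, (c.Φ p.2).1 p.1)) ∪
    (univ : Finset (V × (Fin t × Fin t))).image
      (fun p => s(p.1, (c.Φ p.2.2).1 ((c.Φ p.2.1).1 p.1))))

theorem card_Eset (c : Cert V t d) :
    (Eset c).card ≤ (3 * t + 5 * t ^ 2) * Fintype.card V := by
  unfold Eset
  have h1 := card_image_le (s := (exc c ×ˢ univ : Finset (V × V))) (f := fun p => s(p.1, p.2))
  have h2 := card_image_le (s := (univ : Finset (V × Fin t)))
    (f := fun p => s(p.1, (c.Φ p.2).1 p.1))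
  have h3 := card_image_le (s := (univ : Finset (V × (Fin t × Fin t))))
      (f := fun p => s(p.1, (c.Φ p.2.2).1 ((c.Φ p.2.1).1 p.1)))
  rw [card_product, card_univ] at h1
  rw [card_univ, Fintype.card_prod, Fintype.card_fin] at h2
  rw [card_univ, Fintype.card_prod, Fintype.card_prod, Fintype.card_fin] at h3
  have u1 := card_union_le ((exc c ×ˢ univ : Finset (V × V)).image (fun p => s(p.1, p.2)))
    (((univ : Finset (V × Fin t)).image (fun p => s(p.1, (c.Φ p.2).1 p.1)) ∪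
    (univ : Finset (V × (Fin t × Fin t))).image
      (fun p => s(p.1, (c.Φ p.2.2).1 ((c.Φ p.2.1).1 p.1)))))
  have u2 := card_union_le ((univ : Finset (V × Fin t)).image (fun p => s(p.1, (c.Φ p.2).1 p.1)))
    ((univ : Finset (V × (Fin t × Fin t))).image
      (fun p => s(p.1, (c.Φ p.2.2).1 ((c.Φ p.2.1).1 p.1))))
  have h4 := Nat.mul_le_mul_right (Fintype.card V) (card_exc c)
  have e : (3 * t + 5 * t ^ 2) * Fintype.card V = (2 * t + 4 * t ^ 2) * Fintype.card V +
    (Fintype.card V * t + Fintype.card V * (t * t)) := by ring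
  omega

theorem Eset_spec {c : Cert V t d} {x z : V} (h : s(x, z) ∉ Eset c) :
    x ∉ exc c ∧ z ∉ exc c ∧ (∀ i, z ≠ (c.Φ i).1 x) ∧ (∀ i, x ≠ (c.Φ i).1 z) ∧
    (∀ i j, z ≠ (c.Φ j).1 ((c.Φ i).1 x)) ∧ (∀ i j, x ≠ (c.Φ j).1 ((c.Φ i).1 z)) := by
  simp only [Eset, mem_union, mem_image, mem_product, mem_univ, and_true, true_and, not_or,
    Prod.exists, not_exists] at h
  obtain ⟨h1, h2, h3⟩ := h
  refine ⟨fun hx => h1 x z ⟨hx, rfl⟩, fun hz => h1 z x ⟨hz, Sym2.eq_swap⟩, fun i hi => ?_,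
    fun i hi => ?_, fun i j hi => ?_, fun i j hi => ?_⟩
  · exact h2 x i (by rw [← hi])
  · exact h2 z i (by rw [← hi]; exact Sym2.eq_swap)
  · exact h3 x i j (by rw [← hi])
  · exact h3 z i j (by rw [← hi]; exact Sym2.eq_swap)

/-- images of nonexceptional points of `M0` -/
theorem img_mem {c : Cert V t d} {x : V} (hx : x ∈ c.M0) {i : Fin t}
    (h1 : x ≠ (c.Φ i).2.1 ∧ x ≠ (c.Φ i).2.2)
    (h2 : (c.Φ i).1 x ≠ (c.Φ i).2.1 ∧ (c.Φ i).1 x ≠ (c.Φ i).2.2) : (c.Φ i).1 x ∈ c.M0 := by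
  by_cases h : (c.Φ i).1 x = x
  · rw [h]; exact hx
  · refine mem_biUnion.2 ⟨i, mem_univ _, ?_⟩
    refine mem_filter.2 ⟨mem_univ _, h2.1, h2.2, ?_⟩
    intro h'
    exact h ((c.Φ i).1.injective h')

theorem link {c : Cert V t d} (i : Fin t) {x z : V} (hx : x ≠ (c.Φ i).2.1 ∧ x ≠ (c.Φ i).2.2)
    (hz : z ≠ (c.Φ i).2.1 ∧ z ≠ (c.Φ i).2.2) :
    (Quotient.mk (Relation.EqvGen.setoid c.Lk) s(x, z)) =
      Quotient.mk (Relation.EqvGen.setoid c.Lk) s((c.Φ i).1 x, (c.Φ i).1 z) := by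
  apply Quotient.sound
  exact Relation.EqvGen.rel _ _ (Or.inl ⟨i, x, z, hx.1, hx.2, hz.1, hz.2, rfl, rfl⟩)

theorem ne_pair {a b a' b' : V} (h1 : ¬ (a = a' ∧ b = b')) (h2 : ¬ (a = b' ∧ b = a')) :
    (s(a, b) : Sym2 V) ≠ s(a', b') := by
  intro h
  rw [Sym2.eq_iff] at h
  exact h.elim h1 h2

end T9aux

open T9aux

variable {V : Type} [Fintype V] [DecidableEq V] {t d K : ℕ}

open Classical in
/-- T9: region `M0 × M0` -/
theorem region_MM (c : Cert V t d) (G : SimpleGraph V) (hv : c.Valid K) (hc : c.Compat G) :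
    24 * (((Pos V).filter (fun a => ∃ x ∈ c.M0, ∃ z ∈ c.M0, a = s(x, z))).image (cl c)).card ≤
      3 * c.M0.card ^ 2 + c.M0.card * Fintype.card V + 24 * (4 * t + 4 * t ^ 2) * Fintype.card V := by
  set A := (Pos V).filter (fun a => ∃ x ∈ c.M0, ∃ z ∈ c.M0, a = s(x, z)) with hA
  have memA : ∀ {x z : V}, x ∈ c.M0 → z ∈ c.M0 → x ≠ z → s(x, z) ∈ A := by
    intro x z hx hz hxz
    rw [hA, mem_filter]
    refine ⟨?_, x, hx, z, hz, rfl⟩
    simp only [Pos, mem_filter, mem_univ, true_and, Sym2.isDiag_iff_proj_eq]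
    exact hxz
  have ofA : ∀ {x z : V}, s(x, z) ∈ A → x ∈ c.M0 ∧ z ∈ c.M0 ∧ x ≠ z := by
    intro x z h
    rw [hA, mem_filter] at h
    obtain ⟨h1, x', hx', z', hz', he⟩ := h
    simp only [Pos, mem_filter, mem_univ, true_and, Sym2.isDiag_iff_proj_eq] at h1
    rw [Sym2.eq_iff] at he
    rcases he with ⟨rfl, rfl⟩ | ⟨rfl, rfl⟩
    · exact ⟨hx', hz', h1⟩
    · exact ⟨hz', hx', h1⟩
  set U := A.filter (fun a => ∃ x z, a = s(x, z) ∧ ∀ i, (x ∈ mv (c.Φ i) ↔ z ∈ mv (c.Φ i))) with hU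
  -- the cardinality of `A`
  have cA : 2 * A.card ≤ c.M0.card ^ 2 := by
    have := two_mul_card_le A (c.M0 ×ˢ c.M0) ?_ ?_
    · rw [card_product] at this
      calc _ ≤ _ := this
        _ = _ := by ring
    · intro a ha
      rw [hA, mem_filter] at ha
      simpa [Pos] using ha.1
    · rintro a ha x z rfl
      have := ofA ha
      exact mem_product.2 ⟨this.1, this.2.1⟩
  -- the cardinality of `U`
  have cU : 6 * U.card ≤ c.M0.card * Fintype.card V := by
    set O := (c.M0 ×ˢ (univ : Finset V)).filter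
      (fun p => ∀ i, (p.1 ∈ mv (c.Φ i) ↔ p.2 ∈ mv (c.Φ i))) with hO
    have h1 : 2 * U.card ≤ O.card := by
      apply two_mul_card_le U O
      · intro a ha
        rw [hU, mem_filter, hA, mem_filter] at ha
        simpa [Pos] using ha.1.1
      · rintro a ha x z rfl
        rw [hU, mem_filter] at ha
        obtain ⟨h1, x', z', he, hp⟩ := ha
        have h2 := ofA h1
        rw [hO, mem_filter]
        refine ⟨mem_product.2 ⟨h2.1, mem_univ _⟩, ?_⟩
        rw [Sym2.eq_iff] at he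
        rcases he with ⟨rfl, rfl⟩ | ⟨rfl, rfl⟩
        · exact hp
        · exact fun i => (hp i).symm
    have h2 : 3 * O.card ≤ c.M0.card * Fintype.card V := by
      have h3 : O.card = ∑ x ∈ c.M0, (univ.filter (fun z => ∀ i, (x ∈ mv (c.Φ i) ↔ z ∈ mv (c.Φ i)))).card := by
        rw [hO, card_filter, sum_product]
        apply sum_congr rfl
        intro x _
        rw [card_filter]
      rw [h3, mul_sum, ← smul_eq_mul c.M0.card, ← sum_const]
      apply sum_le_sum
      intro x hx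
      obtain ⟨i, _, hi⟩ := mem_biUnion.1 hx
      refine le_trans (Nat.mul_le_mul_left 3 (card_le_card ?_)) (hv.supp i)
      intro z hz
      rw [mem_filter] at hz
      exact (hz.2 i).1 hi
    omega
  have cE := card_Eset c
  -- main step
  have key := image_card_le_four A U (Eset c) (cl c) ?_ ?_
  · nlinarith [cA, cU, cE, key]
  · -- four elements
    have four : ∀ (x z : V) (i : Fin t), s(x, z) ∈ A → s(x, z) ∉ Eset c → x ∈ mv (c.Φ i) →
        z ∉ mv (c.Φ i) → 4 ≤ (A.filter (fun b => cl c b = cl c s(x, z))).card := by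
      intro x z i haA haE hxi hzi
      obtain ⟨hx, hz, hxz⟩ := ofA haA
      obtain ⟨ex, ez, e1, e2, e3, e4⟩ := Eset_spec haE
      obtain ⟨bx1, bx2, bx3⟩ := exc_spec ex
      obtain ⟨bz1, bz2, bz3⟩ := exc_spec ez
      have hφx : (c.Φ i).1 x ≠ x := ((mem_filter.1 hxi).2).2.2
      have hφz : (c.Φ i).1 z = z := by
        by_contra h
        exact hzi (mem_filter.2 ⟨mem_univ _, (bz1 i).1, (bz1 i).2, h⟩)
      obtain ⟨j, _, hzj⟩ := mem_biUnion.1 hz
      have hjz : (c.Φ j).1 z ≠ z := ((mem_filter.1 hzj).2).2.2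
      -- the four positions
      have n12 : s(x, z) ≠ s((c.Φ i).1 x, z) :=
        ne_pair (fun h => hφx h.1.symm) (fun h => hxz h.1)
      have n13 : s(x, z) ≠ s((c.Φ j).1 x, (c.Φ j).1 z) :=
        ne_pair (fun h => hjz h.2.symm) (fun h => e1 j h.2)
      have n14 : s(x, z) ≠ s((c.Φ j).1 ((c.Φ i).1 x), (c.Φ j).1 z) :=
        ne_pair (fun h => hjz h.2.symm) (fun h => e3 i j h.2)
      have n23 : s((c.Φ i).1 x, z) ≠ s((c.Φ j).1 x, (c.Φ j).1 z) :=
        ne_pair (fun h => hjz h.2.symm) (fun h => e1 j h.2)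
      have n24 : s((c.Φ i).1 x, z) ≠ s((c.Φ j).1 ((c.Φ i).1 x), (c.Φ j).1 z) :=
        ne_pair (fun h => hjz h.2.symm) (fun h => e3 i j h.2)
      have n34 : s((c.Φ j).1 x, (c.Φ j).1 z) ≠ s((c.Φ j).1 ((c.Φ i).1 x), (c.Φ j).1 z) :=
        ne_pair (fun h => hφx ((c.Φ j).1.injective h.1).symm)
          (fun h => hxz ((c.Φ j).1.injective h.1))
      have hix : (c.Φ i).1 x ∈ c.M0 := img_mem hx (bx1 i) (bx2 i i)
      have hizne : (c.Φ i).1 x ≠ z := fun h => e1 i h.symm
      have l12 : cl c s((c.Φ i).1 x, z) = cl c s(x, z) := by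
        have := link i (bx1 i) (bz1 i)
        rw [hφz] at this
        exact this.symm
      have l13 : cl c s((c.Φ j).1 x, (c.Φ j).1 z) = cl c s(x, z) :=
        (link j (bx1 j) (bz1 j)).symm
      have l14 : cl c s((c.Φ j).1 ((c.Φ i).1 x), (c.Φ j).1 z) = cl c s(x, z) := by
        rw [← l12]
        exact (link j (bx2 i j) (bz1 j)).symm
      have hcard : ({s(x, z), s((c.Φ i).1 x, z), s((c.Φ j).1 x, (c.Φ j).1 z),
          s((c.Φ j).1 ((c.Φ i).1 x), (c.Φ j).1 z)} : Finset (Sym2 V)).card = 4 := by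
        rw [card_insert_of_notMem, card_insert_of_notMem, card_pair n34]
        · simp only [mem_insert, mem_singleton, not_or]
          exact ⟨n23, n24⟩
        · simp only [mem_insert, mem_singleton, not_or]
          exact ⟨n12, n13, n14⟩
      rw [← hcard]
      apply card_le_card
      intro b hb
      simp only [mem_insert, mem_singleton] at hb
      rcases hb with rfl | rfl | rfl | rfl
      · exact mem_filter.2 ⟨haA, rfl⟩
      · exact mem_filter.2 ⟨memA hix hz hizne, l12⟩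
      · exact mem_filter.2 ⟨memA (img_mem hx (bx1 j) (bx2 j j)) (img_mem hz (bz1 j) (bz2 j j))
          (fun h => hxz ((c.Φ j).1.injective h)), l13⟩
      · exact mem_filter.2 ⟨memA (img_mem hix (bx2 i j) (bx3 i j)) (img_mem hz (bz1 j) (bz2 j j))
          (fun h => hizne ((c.Φ j).1.injective h)), l14⟩
    intro a haA haE haU
    induction a with
    | _ x z =>
    have h1 : ¬ ∀ i, (x ∈ mv (c.Φ i) ↔ z ∈ mv (c.Φ i)) := by
      intro h
      exact haU (mem_filter.2 ⟨haA, x, z, rfl, h⟩)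
    push Not at h1
    obtain ⟨i, hi⟩ := h1
    rcases hi with ⟨h2, h3⟩ | ⟨h2, h3⟩
    · exact four x z i haA haE h2 h3
    · have e : (s(x, z) : Sym2 V) = s(z, x) := Sym2.eq_swap
      rw [e] at haA haE ⊢
      exact four z x i haA haE h3 h2
  · -- two elements
    intro a haA haE
    induction a with
    | _ x z =>
    obtain ⟨hx, hz, hxz⟩ := ofA haA
    obtain ⟨ex, ez, e1, e2, e3, e4⟩ := Eset_spec haE
    obtain ⟨bx1, bx2, bx3⟩ := exc_spec ex
    obtain ⟨bz1, bz2, bz3⟩ := exc_spec ez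
    obtain ⟨i, _, hi⟩ := mem_biUnion.1 hx
    have hxi : (c.Φ i).1 x ≠ x := ((mem_filter.1 hi).2).2.2
    have hne : s(x, z) ≠ s((c.Φ i).1 x, (c.Φ i).1 z) :=
      ne_pair (fun h => hxi h.1.symm) (fun h => e1 i h.2)
    rw [← card_pair hne]
    apply card_le_card
    intro b hb
    simp only [mem_insert, mem_singleton] at hb
    rcases hb with rfl | rfl
    · exact mem_filter.2 ⟨haA, rfl⟩
    · refine mem_filter.2 ⟨memA (img_mem hx (bx1 i) (bx2 i i)) (img_mem hz (bz1 i) (bz2 i i)) ?_, ?_⟩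
      · exact fun h => hxz ((c.Φ i).1.injective h)
      · exact (link i (bx1 i) (bz1 i)).symm

end Pool.Agent.H234RC
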