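import Pool.Agent.H234RC.Defs
import Pool.Agent.H234RC.T7
import Pool.Agent.H234RC.T8
import Pool.Agent.H234RC.T9
import Pool.Agent.H234RC.T10

set_option autoImplicit false

namespace Pool.Agent.H234RC

open Finset

variable {V : Type} [Fintype V] [DecidableEq V] {t d K : ℕ}

namespace T11aux

theorem quad (n R a s θk : ℝ) (hR : 0 ≤ R) (ha : 0 ≤ a) (hs : 0 ≤ s) (hn : R + a + s ≤ n)
    (h1 : 2 * θk ≤ a + s) (h2 : 2 * θk + 2 * R ≤ 2 * s + a) :
    R ^ 2 / 2 + R * θk + s * a / 2 + a ^ 2 / 8 + a * n / 24 + s ^ 2 / 8 ≤ (238 / 1000) * n ^ 2 := by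
  have hk : θk ≤ (8 / 25) * ((a + s) / 2) + (17 / 25) * (s + a / 2 - R) := by linarith
  have hRk : R * θk ≤ R * ((8 / 25) * ((a + s) / 2) + (17 / 25) * (s + a / 2 - R)) :=
    mul_le_mul_of_nonneg_left hk hR
  have hu : 0 ≤ n - (R + a + s) := by linarith
  have key : 0 ≤ (418/1000) * (R - (197/2508)*a - (91/209)*s)^2 := by positivity
  nlinarith [mul_nonneg hu hR, mul_nonneg hu ha, mul_nonneg hu hs, mul_nonneg hu hu, key,
    sq_nonneg (a - s * (7/10)), sq_nonneg (a - s*(2/3)), sq_nonneg (s)]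

/-- positions inside a set -/
theorem card_inside (R : Finset V) (F : Finset (Sym2 V))
    (hF : ∀ a ∈ F, a ∈ Pos V ∧ ∃ x ∈ R, ∃ z ∈ R, a = s(x, z)) :
    2 * F.card ≤ R.card ^ 2 := by
  classical
  have h1 : F ⊆ R.offDiag.image (fun p => s(p.1, p.2)) := by
    intro a ha
    obtain ⟨h2, x, hx, z, hz, rfl⟩ := hF a ha
    rw [Finset.mem_image]
    refine ⟨(x, z), ?_, rfl⟩
    rw [Finset.mem_offDiag]
    refine ⟨hx, hz, ?_⟩
    intro h3
    apply (Finset.mem_filter.1 h2).2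
    simpa using h3
  have h2 := Finset.card_le_card h1
  have h3 : 2 * (R.offDiag.image (fun p => s(p.1, p.2))).card = R.offDiag.card := by
    exact Sym2.two_mul_card_image_offDiag R
  have h4 : R.offDiag.card ≤ R.card ^ 2 := by
    rw [Finset.offDiag_card, sq]
    exact Nat.sub_le _ _
  omega

/-- positions touching a set -/
theorem card_touch (A : Finset V) (F : Finset (Sym2 V))
    (hF : ∀ a ∈ F, ∃ x ∈ A, ∃ z, a = s(x, z)) :
    F.card ≤ A.card * Fintype.card V := by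
  classical
  have h1 : F ⊆ (A ×ˢ (univ : Finset V)).image (fun p => s(p.1, p.2)) := by
    intro a ha
    obtain ⟨x, hx, z, rfl⟩ := hF a ha
    rw [Finset.mem_image]
    exact ⟨(x, z), by simp [hx], rfl⟩
  refine (Finset.card_le_card h1).trans (Finset.card_image_le.trans ?_)
  rw [Finset.card_product, Finset.card_univ]

end T11aux

open T11aux in
/-- T11: kind 2 count -/
theorem ncl_kind2 (c : Cert V t d) (G : SimpleGraph V) (ht : 1 ≤ t) (hv : c.Valid K)
    (hc : c.Compat G) :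
    (ncl c.Lk : ℝ) ≤ (238 / 1000) * (Fintype.card V : ℝ) ^ 2 +
      (K + 20 * (t : ℝ) ^ 2) * Fintype.card V := by
  classical
  obtain ⟨κ, hκ1, hκ2, hκ3⟩ := region_RM c G hv hc
  have h4 := region_SM c G hv hc
  have h5 := region_MM c G hv hc
  have h6 := region_SS c G hv hc
  set A3 := ((Pos V).filter (fun a => ∃ v ∈ c.Rz, ∃ x ∈ c.M, a = s(v, x))).image (cl c) with hA3
  set A4 := ((Pos V).filter (fun a => ∃ x ∈ c.S, ∃ z ∈ c.M0, a = s(x, z))).image (cl c) with hA4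
  set A5 := ((Pos V).filter (fun a => ∃ x ∈ c.M0, ∃ z ∈ c.M0, a = s(x, z))).image (cl c) with hA5
  set A6 := ((Pos V).filter (fun a => ∃ x ∈ c.S, ∃ z ∈ c.S, a = s(x, z))).image (cl c) with hA6
  set A1 := ((Pos V).filter (fun a => ∃ x ∈ c.Rz, ∃ z ∈ c.Rz, a = s(x, z))).image (cl c) with hA1
  obtain ⟨P2, hP2⟩ : ∃ P2 : Sym2 V → Prop, ∀ a, P2 a ↔
      ∃ x ∈ (univ \ (c.M ∪ c.Rz)), ∃ z, a = s(x, z) := ⟨_, fun _ => Iff.rfl⟩
  set A2 := ((Pos V).filter P2).image (cl c) with hA2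
  have h1 : 2 * A1.card ≤ c.Rz.card ^ 2 := by
    have h7 := card_inside c.Rz
      ((Pos V).filter (fun a => ∃ x ∈ c.Rz, ∃ z ∈ c.Rz, a = s(x, z)))
      (fun a ha => Finset.mem_filter.1 ha)
    have h8 : A1.card ≤ _ := Finset.card_image_le
    omega
  have h2 : A2.card ≤ K * Fintype.card V := by
    have h7 := card_touch (univ \ (c.M ∪ c.Rz))
      ((Pos V).filter P2)
      (fun a ha => (hP2 a).1 (Finset.mem_filter.1 ha).2)
    have h8 : A2.card ≤ _ := Finset.card_image_le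
    exact h8.trans (h7.trans (Nat.mul_le_mul_right _ hv.Rcard))
  have hcover : ncl c.Lk ≤ A1.card + A2.card + A3.card + A4.card + A5.card + (A6 \ A4).card := by
    have h8 : (Pos V).image (cl c) ⊆ ((((A1 ∪ A2) ∪ A3) ∪ A4) ∪ A5) ∪ (A6 \ A4) := by
      clear h1 h2 h4 h5 h6 hκ1 hκ2 hκ3
      intro q hq
      rw [Finset.mem_image] at hq
      obtain ⟨a, ha, rfl⟩ := hq
      revert ha
      induction a using Sym2.ind with
      | _ x z =>
      intro ha
      have u1 : ∀ q, q ∈ A1 → q ∈ ((((A1 ∪ A2) ∪ A3) ∪ A4) ∪ A5) ∪ (A6 \ A4) := fun q h =>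
        Finset.mem_union_left _ (Finset.mem_union_left _ (Finset.mem_union_left _
          (Finset.mem_union_left _ (Finset.mem_union_left _ h))))
      have u2 : ∀ q, q ∈ A2 → q ∈ ((((A1 ∪ A2) ∪ A3) ∪ A4) ∪ A5) ∪ (A6 \ A4) := fun q h =>
        Finset.mem_union_left _ (Finset.mem_union_left _ (Finset.mem_union_left _
          (Finset.mem_union_left _ (Finset.mem_union_right _ h))))
      have u3 : ∀ q, q ∈ A3 → q ∈ ((((A1 ∪ A2) ∪ A3) ∪ A4) ∪ A5) ∪ (A6 \ A4) := fun q h =>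
        Finset.mem_union_left _ (Finset.mem_union_left _ (Finset.mem_union_left _
          (Finset.mem_union_right _ h)))
      have u4 : ∀ q, q ∈ A4 → q ∈ ((((A1 ∪ A2) ∪ A3) ∪ A4) ∪ A5) ∪ (A6 \ A4) := fun q h =>
        Finset.mem_union_left _ (Finset.mem_union_left _ (Finset.mem_union_right _ h))
      have u5 : ∀ q, q ∈ A5 → q ∈ ((((A1 ∪ A2) ∪ A3) ∪ A4) ∪ A5) ∪ (A6 \ A4) := fun q h =>
        Finset.mem_union_left _ (Finset.mem_union_right _ h)
      have u6 : ∀ q, q ∈ A6 → q ∈ ((((A1 ∪ A2) ∪ A3) ∪ A4) ∪ A5) ∪ (A6 \ A4) := by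
        intro q h
        by_cases h44 : q ∈ A4
        · exact u4 q h44
        · exact Finset.mem_union_right _ (Finset.mem_sdiff.2 ⟨h, h44⟩)
      have hmem : ∀ v : V, v ∈ univ \ (c.M ∪ c.Rz) ∨ v ∈ c.Rz ∨ v ∈ c.M0 ∨ v ∈ c.S := by
        intro v
        by_cases hv1 : v ∈ c.M ∪ c.Rz
        · rw [Finset.mem_union] at hv1
          rcases hv1 with hv1 | hv1
          · rw [Cert.M, Finset.mem_union] at hv1
            exact Or.inr (Or.inr hv1)
          · exact Or.inr (Or.inl hv1)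
        · left
          exact Finset.mem_sdiff.2 ⟨Finset.mem_univ _, hv1⟩
      have hM : ∀ v, v ∈ c.M0 ∨ v ∈ c.S → v ∈ c.M := by
        intro v hv1
        rw [Cert.M, Finset.mem_union]
        exact hv1
      have i1 : ∀ x z : V, s(x, z) ∈ Pos V → x ∈ c.Rz → z ∈ c.Rz → cl c s(x, z) ∈ A1 :=
        fun x z h hx hz => Finset.mem_image_of_mem _
          (Finset.mem_filter.2 ⟨h, x, hx, z, hz, rfl⟩)
      have i2 : ∀ x z : V, s(x, z) ∈ Pos V → x ∈ univ \ (c.M ∪ c.Rz) → cl c s(x, z) ∈ A2 :=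
        fun x z h hx => Finset.mem_image_of_mem _
          (Finset.mem_filter.2 ⟨h, (hP2 _).2 ⟨x, hx, z, rfl⟩⟩)
      have i3 : ∀ x z : V, s(x, z) ∈ Pos V → x ∈ c.Rz → z ∈ c.M → cl c s(x, z) ∈ A3 :=
        fun x z h hx hz => Finset.mem_image_of_mem _
          (Finset.mem_filter.2 ⟨h, x, hx, z, hz, rfl⟩)
      have i4 : ∀ x z : V, s(x, z) ∈ Pos V → x ∈ c.S → z ∈ c.M0 → cl c s(x, z) ∈ A4 :=
        fun x z h hx hz => Finset.mem_image_of_mem _
          (Finset.mem_filter.2 ⟨h, x, hx, z, hz, rfl⟩)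
      have i5 : ∀ x z : V, s(x, z) ∈ Pos V → x ∈ c.M0 → z ∈ c.M0 → cl c s(x, z) ∈ A5 :=
        fun x z h hx hz => Finset.mem_image_of_mem _
          (Finset.mem_filter.2 ⟨h, x, hx, z, hz, rfl⟩)
      have i6 : ∀ x z : V, s(x, z) ∈ Pos V → x ∈ c.S → z ∈ c.S → cl c s(x, z) ∈ A6 :=
        fun x z h hx hz => Finset.mem_image_of_mem _
          (Finset.mem_filter.2 ⟨h, x, hx, z, hz, rfl⟩)
      have ha' : s(z, x) ∈ Pos V := by rw [Sym2.eq_swap]; exact ha
      have hsw : cl c s(z, x) = cl c s(x, z) := by rw [Sym2.eq_swap]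
      clear_value A1 A2 A3 A4 A5 A6
      rcases hmem x with hx | hx | hx | hx
      · exact u2 _ (i2 x z ha hx)
      · rcases hmem z with hz | hz | hz | hz
        · exact u2 _ (hsw ▸ i2 z x ha' hz)
        · exact u1 _ (i1 x z ha hx hz)
        · exact u3 _ (i3 x z ha hx (hM z (Or.inl hz)))
        · exact u3 _ (i3 x z ha hx (hM z (Or.inr hz)))
      · rcases hmem z with hz | hz | hz | hz
        · exact u2 _ (hsw ▸ i2 z x ha' hz)
        · exact u3 _ (hsw ▸ i3 z x ha' hz (hM x (Or.inl hx)))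
        · exact u5 _ (i5 x z ha hx hz)
        · exact u4 _ (hsw ▸ i4 z x ha' hz hx)
      · rcases hmem z with hz | hz | hz | hz
        · exact u2 _ (hsw ▸ i2 z x ha' hz)
        · exact u3 _ (hsw ▸ i3 z x ha' hz (hM x (Or.inr hx)))
        · exact u4 _ (i4 x z ha hx hz)
        · exact u6 _ (i6 x z ha hx hz)
    have h9 : ncl c.Lk = ((Pos V).image (cl c)).card := by
      unfold ncl cl
      congr!
    rw [h9]
    refine (Finset.card_le_card h8).trans ?_
    refine (Finset.card_union_le _ _).trans ?_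
    refine Nat.add_le_add_right ?_ _
    refine (Finset.card_union_le _ _).trans ?_
    refine Nat.add_le_add_right ?_ _
    refine (Finset.card_union_le _ _).trans ?_
    refine Nat.add_le_add_right ?_ _
    refine (Finset.card_union_le _ _).trans ?_
    refine Nat.add_le_add_right ?_ _
    exact Finset.card_union_le _ _
  -- disjointness
  have hdisj : c.Rz.card + c.M0.card + c.S.card ≤ Fintype.card V := by
    have hd1 : Disjoint c.M0 c.S := by
      rw [Finset.disjoint_left]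
      intro v hv1 hv2
      exact (Finset.mem_filter.1 hv2).2.1 hv1
    have hMc : c.M.card = c.M0.card + c.S.card := by
      rw [Cert.M, Finset.card_union_of_disjoint hd1]
    have hd2 : Disjoint c.Rz c.M := by
      rw [Finset.disjoint_left]
      intro v hv1 hv2
      exact hv.RzM v hv1 hv2
    have := Finset.card_le_univ (c.Rz ∪ c.M)
    rw [Finset.card_union_of_disjoint hd2, hMc] at this
    omega
  have hMle : c.M.card ≤ c.M0.card + c.S.card := by
    rw [Cert.M]; exact Finset.card_union_le _ _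
  -- real arithmetic
  set n : ℝ := (Fintype.card V : ℝ) with hn
  set R : ℝ := (c.Rz.card : ℝ) with hR
  set a : ℝ := (c.M0.card : ℝ) with ha
  set s : ℝ := (c.S.card : ℝ) with hs
  have hR0 : 0 ≤ R := Nat.cast_nonneg _
  have ha0 : 0 ≤ a := Nat.cast_nonneg _
  have hs0 : 0 ≤ s := Nat.cast_nonneg _
  have hn0 : 0 ≤ n := Nat.cast_nonneg _
  have hD : R + a + s ≤ n := by rw [hR, ha, hs, hn]; exact_mod_cast hdisj
  have ht1 : (1 : ℝ) ≤ t := by exact_mod_cast ht
  have e1 : 2 * (A1.card : ℝ) ≤ R ^ 2 := by rw [hR]; exact_mod_cast h1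
  have e2 : (A2.card : ℝ) ≤ K * n := by rw [hn]; exact_mod_cast h2
  have e3 : (A3.card : ℝ) ≤ R * κ := by rw [hR]; exact_mod_cast hκ1
  have e4 : 2 * (A4.card : ℝ) ≤ s * a + 8 * t * n := by rw [hs, ha, hn]; exact_mod_cast h4
  have e5 : 24 * (A5.card : ℝ) ≤ 3 * a ^ 2 + a * n + 24 * (4 * t + 4 * t ^ 2) * n := by
    rw [ha, hn]; exact_mod_cast h5
  have e6 : 8 * ((A6 \ A4).card : ℝ) ≤ s ^ 2 + 8 * n := by rw [hs, hn]; exact_mod_cast h6
  have e7 : (ncl c.Lk : ℝ) ≤ A1.card + A2.card + A3.card + A4.card + A5.card +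
      (A6 \ A4).card := by exact_mod_cast hcover
  have k1 : 2 * (κ : ℝ) ≤ a + s + 2 * t := by
    have : 2 * κ ≤ c.M0.card + c.S.card + 2 * t := by omega
    rw [ha, hs]; exact_mod_cast this
  have k2 : 2 * (κ : ℝ) + 2 * R ≤ 2 * s + a + 2 * t := by rw [hR, ha, hs]; exact_mod_cast hκ3
  have hq := quad n R a s ((κ : ℝ) - t) hR0 ha0 hs0 hD (by linarith) (by linarith)
  have hRt : R * t ≤ n * t := mul_le_mul_of_nonneg_right (by linarith) (by linarith)
  have hfin : (9 * (t : ℝ) + 4 * t ^ 2 + 1) * n ≤ 20 * (t : ℝ) ^ 2 * n := by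
    apply mul_le_mul_of_nonneg_right _ hn0
    nlinarith
  nlinarith

end Pool.Agent.H234RC
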