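import Pool.Agent.H234RC.T12b

set_option autoImplicit false

namespace Pool.Agent.H234RC

open Finset

theorem mv_bt_card {V : Type} [Fintype V] [DecidableEq V] {π : V → Equiv.Perm V} {u v : V}
    (h : Close π u v) : 3 * (mv (bt π u v)).card ≤ Fintype.card V := by
  have h1 : mv (bt π u v) ⊆ univ \ (univ.filter (fun x => π u x = π v x)) := by
    intro x hx
    have hx' := (mem_filter.mp hx).2.2.2
    rw [mem_sdiff, mem_filter]
    refine ⟨mem_univ _, fun hh => hx' ?_⟩
    rw [bt_apply, ← hh.2]; simp
  have h2 := card_le_card h1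
  rw [card_sdiff_of_subset (subset_univ _), card_univ] at h2
  have h3 := h.2
  unfold agr at h3
  omega

theorem extract {V : Type} [Fintype V] [DecidableEq V] (G H : SimpleGraph V)
    (π : V → Equiv.Perm V) (hH : Hypo G H π) (hn : 3 ≤ Fintype.card V) (hni : NonIso G H)
    (m t h : ℕ) (hm : 1 ≤ m) (ht : 1 ≤ t) (hth : Fintype.card V < t * h) :
    (∃ c : Fin m → NAut V, (∀ i, IsNA G (c i)) ∧ ∀ i j, i ≠ j →
      3 * (univ.filter (fun x => (c i).1 x = (c j).1 x)).card ≤ 2 * Fintype.card V) ∨
    (∃ c : Cert V t (h + 2), c.Valid (m + 2 * t) ∧ c.Compat G) := by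
  classical
  have hne : Nonempty V := Fintype.card_pos_iff.mp (by omega)
  obtain ⟨a0⟩ := hne
  -- the fixed set
  let R : Finset V := univ.filter (fun x => Rf π x)
  have hRmem : ∀ x, x ∈ R ↔ Rf π x := fun x => by simp [R]
  -- separated subsets of R
  let Sep : Finset V → Prop := fun W => ∀ a ∈ W, ∀ b ∈ W, a ≠ b → 3 * agr π a b ≤ 2 * Fintype.card V
  have hSep0 : (∅ : Finset V) ∈ R.powerset.filter Sep := by
    rw [mem_filter]; exact ⟨empty_mem_powerset _, by intro a ha; simp at ha⟩
  obtain ⟨W, hW, hWmax⟩ := exists_max_image (R.powerset.filter Sep) card ⟨_, hSep0⟩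
  rw [mem_filter, mem_powerset] at hW
  obtain ⟨hWR, hWS⟩ := hW
  by_cases hWm : m ≤ W.card
  · left
    let em : Fin m → V := fun i => (W.equivFin.symm ⟨i.1, lt_of_lt_of_le i.2 hWm⟩ : W).1
    have hem : ∀ i, em i ∈ W := fun i => (W.equivFin.symm ⟨i.1, lt_of_lt_of_le i.2 hWm⟩).2
    have hinj : ∀ i j, em i = em j → i = j := by
      intro i j hij
      have := W.equivFin.symm.injective (Subtype.ext hij)
      rw [Fin.mk.injEq] at this
      exact Fin.ext this
    let u0 := em ⟨0, hm⟩
    refine ⟨fun i => bt π u0 (em i), fun i => bt_na hH _ _, fun i j hij => ?_⟩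
    have h1 : (univ.filter (fun x => (bt π u0 (em i)).1 x = (bt π u0 (em j)).1 x)) =
        univ.filter (fun x => π (em i) x = π (em j) x) := by
      ext x
      simp only [mem_filter, mem_univ, true_and, bt_apply, EmbeddingLike.apply_eq_iff_eq]
    show 3 * (univ.filter (fun x => (bt π u0 (em i)).1 x = (bt π u0 (em j)).1 x)).card ≤ _
    rw [h1]
    exact hWS _ (hem i) _ (hem j) (fun hh => hij (hinj _ _ hh))
  · right
    push Not at hWm
    -- every v in R \ W is close to some w in W
    have hclose : ∀ v ∈ R, v ∉ W → ∃ w ∈ W, Close π w v := by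
      intro v hvR hvW
      by_contra hcon
      push Not at hcon
      have hins : insert v W ∈ R.powerset.filter Sep := by
        rw [mem_filter, mem_powerset]
        refine ⟨insert_subset hvR hWR, ?_⟩
        intro a ha b hb hab
        rw [mem_insert] at ha hb
        rcases ha with rfl | ha
        · rcases hb with rfl | hb
          · exact absurd rfl hab
          · have := hcon b hb
            unfold Close at this
            push Not at this
            rw [agr_comm]
            exact this hab.symm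
        · rcases hb with rfl | hb
          · have := hcon a ha
            unfold Close at this
            push Not at this
            exact this hab
          · exact hWS a ha b hb hab
      have := hWmax _ hins
      rw [card_insert_of_notMem hvW] at this
      omega
    -- label edges
    have hlab : ∀ v, ∃ q : V × V, v ∈ R → v ∉ W → (¬ Rf π q.1 ∧ ¬ Rf π q.2 ∧
        ∀ z, Rf π z → z ∉ W → ((G.Adj z q.1 ↔ G.Adj z q.2) ↔ z ≠ v)) := by
      intro v
      by_cases hv : v ∈ R ∧ v ∉ W
      · obtain ⟨w, hwW, hwv⟩ := hclose v hv.1 hv.2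
        obtain ⟨q, hq1, hq2, hq3⟩ := lemC hH hn hni hwv ((hRmem w).1 (hWR hwW)) ((hRmem v).1 hv.1)
        exact ⟨q, fun _ _ => ⟨hq1, hq2, fun z hz hzW => hq3 z hz (fun e => hzW (e ▸ hwW))⟩⟩
      · exact ⟨(v, v), fun h1 h2 => absurd ⟨h1, h2⟩ hv⟩
    choose e he using hlab
    -- greedy family
    let N : Set (NAut V) := {φ | ∃ u v, Close π u v ∧ φ = bt π u v}
    obtain ⟨Φ, hΦN, hΦg⟩ := greedy N t h hth a0
    set M0 : Finset V := univ.biUnion (fun i => mv (Φ i)) with hM0
    have hM0R : ∀ x ∈ M0, ¬ Rf π x := by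
      intro x hx hR
      rw [hM0, mem_biUnion] at hx
      obtain ⟨i, _, hi⟩ := hx
      rcases hΦN i with ⟨u, v, huv, hφ⟩ | hφ
      · rw [hφ] at hi
        have := (mem_filter.mp hi).2
        exact this.2.2 (hR u v huv this.1 this.2.1)
      · rw [hφ, mv_id] at hi
        simp at hi
    -- twins
    have htw : ∀ x, ∃ q : V × (Fin (h + 2) → Option V), (x ∉ M0 → ¬ Rf π x →
        q.1 ≠ x ∧ ¬ Rf π q.1 ∧ ∀ z, z ∉ M0 → z ≠ x → z ≠ q.1 →
        ((G.Adj x z ↔ G.Adj q.1 z) ↔ ¬ ∃ j, q.2 j = some z)) ∧ ((x ∈ M0 ∨ Rf π x) → q.1 = x) := by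
      intro x
      by_cases hx : x ∉ M0 ∧ ¬ Rf π x
      · have hx2 := hx.2
        unfold Rf at hx2
        push Not at hx2
        obtain ⟨u, v, huv, hxv, hxu, hmov⟩ := hx2
        set y := (bt π u v).1 x with hy
        set Dx : Finset V := univ.filter (fun z => z ∉ M0 ∧ z ≠ x ∧ z ≠ y ∧
          ¬ (G.Adj x z ↔ G.Adj y z)) with hDx
        have hsub : Dx ⊆ (mv (bt π u v) \ M0) ∪ {v, (π v).symm u} := by
          intro z hz
          rw [hDx, mem_filter] at hz
          obtain ⟨_, hzM, hzx, hzy, hzG⟩ := hz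
          rw [mem_union, mem_sdiff, mem_insert, mem_singleton]
          by_contra hcon
          push Not at hcon
          obtain ⟨hc1, hc2, hc3⟩ := hcon
          have hfix : (bt π u v).1 z = z := by
            by_contra hmz
            exact hzM (hc1 (mem_filter.mpr ⟨mem_univ _, hc2, hc3, hmz⟩))
          have := bt_na hH u v x z hxv hxu hc2 hc3
          rw [hfix] at this
          exact hzG this.symm
        have hcard : Dx.card ≤ h + 2 := by
          have h1 := card_le_card hsub
          have h2 := card_union_le (mv (bt π u v) \ M0) {v, (π v).symm u}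
          have h3 := hΦg (bt π u v) ⟨u, v, huv, rfl⟩
          have h4 : ({v, (π v).symm u} : Finset V).card ≤ 2 := card_le_two
          omega
        obtain ⟨f, hf⟩ := exists_enum Dx (h + 2) hcard
        refine ⟨(y, f), fun _ _ => ⟨hmov, lemA hH huv hxv hxu hmov, ?_⟩, ?_⟩
        · intro z hzM hzx hzy
          show (G.Adj x z ↔ G.Adj y z) ↔ ¬ ∃ j, f j = some z
          rw [hf z, hDx, mem_filter]
          constructor
          · intro hiff hmem
            exact hmem.2.2.2.2 hiff
          · intro hnm
            by_contra hiff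
            exact hnm ⟨mem_univ _, hzM, hzx, hzy, hiff⟩
        · intro hor
          rcases hor with hor | hor
          · exact absurd hor hx.1
          · exact absurd hor hx.2
      · refine ⟨(x, fun _ => none), fun h1 h2 => absurd ⟨h1, h2⟩ hx, fun _ => rfl⟩
    choose yD hyD1 hyD2 using htw
    let Br : Finset V := univ.biUnion (fun i => ({(Φ i).2.1, (Φ i).2.2} : Finset V))
    have hBr : Br.card ≤ 2 * t := by
      calc Br.card ≤ ∑ i : Fin t, ({(Φ i).2.1, (Φ i).2.2} : Finset V).card := card_biUnion_le
        _ ≤ ∑ i : Fin t, 2 := sum_le_sum (fun i _ => card_le_two)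
        _ = 2 * t := by simp [mul_comm]
    let Rz : Finset V := (R \ W) \ Br
    let c : Cert V t (h + 2) := (Φ, fun x => (yD x).1, fun x => (yD x).2, e, Rz)
    have hcM0 : c.M0 = M0 := rfl
    have hcS : ∀ x, x ∈ c.S ↔ (x ∉ M0 ∧ ¬ Rf π x) := by
      intro x
      show x ∈ univ.filter (fun x => x ∉ M0 ∧ (yD x).1 ≠ x) ↔ _
      rw [mem_filter]
      constructor
      · rintro ⟨_, h1, h2⟩
        exact ⟨h1, fun hR => h2 (hyD2 x (Or.inr hR))⟩
      · rintro ⟨h1, h2⟩
        exact ⟨mem_univ _, h1, (hyD1 x h1 h2).1⟩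
    have hcM : ∀ x, x ∈ c.M ↔ ¬ Rf π x := by
      intro x
      show x ∈ c.M0 ∪ c.S ↔ _
      rw [mem_union, hcS, hcM0]
      constructor
      · rintro (h1 | h1)
        · exact hM0R x h1
        · exact h1.2
      · intro h1
        by_cases h2 : x ∈ M0
        · exact Or.inl h2
        · exact Or.inr ⟨h2, h1⟩
    have hRz : ∀ z, z ∈ Rz ↔ (Rf π z ∧ z ∉ W) ∧ z ∉ Br := by
      intro z
      show z ∈ (R \ W) \ Br ↔ _
      rw [mem_sdiff, mem_sdiff, hRmem]
    refine ⟨c, ?_, ?_⟩
    · refine ⟨?_, ?_, ?_, ?_, ?_, ?_⟩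
      · intro i
        rcases hΦN i with ⟨u, v, huv, hφ⟩ | hφ
        · show 3 * (mv (Φ i)).card ≤ _
          rw [hφ]; exact mv_bt_card huv
        · show 3 * (mv (Φ i)).card ≤ _
          rw [hφ, mv_id]; simp
      · intro x hx
        rw [hcS] at hx
        rw [hcM]
        exact (hyD1 x hx.1 hx.2).2.1
      · intro z hz
        rw [hcM]
        exact fun hcon => hcon ((hRz z).1 hz).1.1
      · intro z hz i
        have hzB := ((hRz z).1 hz).2
        constructor
        · intro hh
          apply hzB
          rw [mem_biUnion]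
          exact ⟨i, mem_univ _, by rw [mem_insert]; exact Or.inl hh⟩
        · intro hh
          apply hzB
          rw [mem_biUnion]
          exact ⟨i, mem_univ _, by rw [mem_insert, mem_singleton]; exact Or.inr hh⟩
      · have hsub : univ \ (c.M ∪ c.Rz) ⊆ W ∪ Br := by
          intro x hx
          rw [mem_sdiff, mem_union, hcM] at hx
          rw [mem_union]
          by_contra hcon
          push Not at hcon
          apply hx.2
          by_cases hxR : Rf π x
          · right
            exact (hRz x).2 ⟨⟨hxR, hcon.1⟩, hcon.2⟩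
          · exact Or.inl hxR
        calc (univ \ (c.M ∪ c.Rz)).card ≤ (W ∪ Br).card := card_le_card hsub
          _ ≤ W.card + Br.card := card_union_le _ _
          _ ≤ m + 2 * t := by omega
      · intro v hv
        have hv' := (hRz v).1 hv
        rw [hcM, hcM]
        have := he v ((hRmem v).2 hv'.1.1) hv'.1.2
        exact ⟨this.1, this.2.1⟩
    · refine ⟨?_, ?_, ?_⟩
      · intro i
        rcases hΦN i with ⟨u, v, huv, hφ⟩ | hφ
        · show IsNA G (Φ i)
          rw [hφ]; exact bt_na hH u v
        · show IsNA G (Φ i)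
          rw [hφ]
          intro x y _ _ _ _
          simp
      · intro x hx z hz hzx hzy
        rw [hcS] at hx
        exact (hyD1 x hx.1 hx.2).2.2 z hz hzx hzy
      · intro v hv z hz
        have hv' := (hRz v).1 hv
        have hz' := (hRz z).1 hz
        have := he v ((hRmem v).2 hv'.1.1) hv'.1.2
        exact this.2.2 z hz'.1.1 hz'.1.2

end Pool.Agent.H234RC
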