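import Pool.Agent.H234RC.Defs

set_option autoImplicit false

namespace Pool.Agent.H234RC

open Finset

namespace T2aux

/-- a set of representatives of the classes meeting `Pos V` -/
theorem exists_reps {V : Type} [Fintype V] [DecidableEq V] (r : Sym2 V → Sym2 V → Prop) :
    ∃ Q : Finset (Sym2 V), Q ⊆ Pos V ∧ Q.card = ncl r ∧
      ∀ a ∈ Pos V, ∃ b ∈ Q, Relation.EqvGen r a b := by
  classical
  let f : Sym2 V → Quotient (Relation.EqvGen.setoid r) :=
    fun a => Quotient.mk (Relation.EqvGen.setoid r) a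
  have hsec : ∀ c ∈ (Pos V).image f, ∃ a ∈ Pos V, f a = c := by
    intro c hc
    simpa using hc
  choose g hg1 hg2 using hsec
  refine ⟨((Pos V).image f).attach.image (fun c => g c.1 c.2), ?_, ?_, ?_⟩
  · intro a ha
    rw [Finset.mem_image] at ha
    obtain ⟨c, _, rfl⟩ := ha
    exact hg1 c.1 c.2
  · rw [Finset.card_image_of_injOn, Finset.card_attach]
    · unfold ncl
      congr!
    · intro c _ c' _ h
      apply Subtype.ext
      rw [← hg2 c.1 c.2, ← hg2 c'.1 c'.2]
      exact congrArg f h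
  · intro a ha
    have h1 : f a ∈ (Pos V).image f := Finset.mem_image_of_mem f ha
    refine ⟨g (f a) h1, Finset.mem_image.2 ⟨⟨f a, h1⟩, Finset.mem_attach _ _, rfl⟩, ?_⟩
    have h2 : f (g (f a) h1) = f a := hg2 _ h1
    have h3 := Quotient.exact h2
    exact Relation.EqvGen.symm _ _ h3

theorem pos_card {V : Type} [Fintype V] [DecidableEq V] :
    (Pos V).card = (Fintype.card V).choose 2 := by
  classical
  unfold Pos
  rw [← Sym2.card_subtype_not_diag, Fintype.card_subtype]

theorem pow_mix (p : ℝ) (hp0 : 0 ≤ p) (hp1 : p ≤ 1) (a b : ℕ) :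
    p ^ a * (1 - p) ^ b ≤ (max p (1 - p)) ^ (a + b) := by
  have h1 : p ^ a ≤ (max p (1 - p)) ^ a := pow_le_pow_left₀ hp0 (le_max_left _ _) a
  have h2 : (1 - p) ^ b ≤ (max p (1 - p)) ^ b :=
    pow_le_pow_left₀ (by linarith) (le_max_right _ _) b
  rw [pow_add]
  exact mul_le_mul h1 h2 (pow_nonneg (by linarith) _)
    (pow_nonneg (hp0.trans (le_max_left _ _)) _)

end T2aux

open T2aux in
theorem weight_bound {V : Type} [Fintype V] [DecidableEq V] (p : ℝ) (hp0 : 0 ≤ p) (hp1 : p ≤ 1)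
    (𝒢 : Finset (SimpleGraph V)) (r : Sym2 V → Sym2 V → Prop)
    (h : ∀ G ∈ 𝒢, ∀ G' ∈ 𝒢, ∀ a b : Sym2 V, r a b →
      ((a ∈ G.edgeSet ↔ a ∈ G'.edgeSet) ↔ (b ∈ G.edgeSet ↔ b ∈ G'.edgeSet))) :
    ∑ G ∈ 𝒢, p ^ G.edgeSet.ncard * (1 - p) ^ ((Fintype.card V).choose 2 - G.edgeSet.ncard) ≤
      (max p (1 - p)) ^ ((Fintype.card V).choose 2 - ncl r) := by
  classical
  obtain ⟨Q, hQ1, hQ2, hQ3⟩ := exists_reps r
  -- links propagate
  have hE : ∀ G ∈ 𝒢, ∀ G' ∈ 𝒢, ∀ a b : Sym2 V, Relation.EqvGen r a b →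
      ((a ∈ G.edgeSet ↔ a ∈ G'.edgeSet) ↔ (b ∈ G.edgeSet ↔ b ∈ G'.edgeSet)) := by
    intro G hG G' hG' a b hab
    induction hab with
    | rel a b hab => exact h G hG G' hG' a b hab
    | refl a => exact Iff.rfl
    | symm a b _ ih => exact ih.symm
    | trans a b c _ _ ih1 ih2 => exact ih1.trans ih2
  let E : SimpleGraph V → Finset (Sym2 V) := fun G => (Pos V).filter (· ∈ G.edgeSet)
  let T : SimpleGraph V → Finset (Sym2 V) := fun G => Q.filter (· ∈ G.edgeSet)
  have hEcard : ∀ G, G.edgeSet.ncard = (E G).card := by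
    intro G
    rw [← Set.ncard_coe_finset]
    congr 1
    ext e
    simp only [E, Pos, Finset.coe_filter, Finset.mem_filter, Finset.mem_univ, true_and,
      Set.mem_ofPred_eq]
    exact ⟨fun he => ⟨G.not_isDiag_of_mem_edgeSet he, he⟩, fun he => he.2⟩
  have hinj : Set.InjOn T 𝒢 := by
    intro G hG G' hG' hT
    have hQe : ∀ b ∈ Q, (b ∈ G.edgeSet ↔ b ∈ G'.edgeSet) := by
      intro b hb
      have := Finset.ext_iff.1 hT b
      simp only [T, Finset.mem_filter, hb, true_and] at this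
      exact this
    have hall : ∀ a ∈ Pos V, (a ∈ G.edgeSet ↔ a ∈ G'.edgeSet) := by
      intro a ha
      obtain ⟨b, hb, hab⟩ := hQ3 a ha
      exact (hE G hG G' hG' a b hab).2 (hQe b hb)
    ext x y
    by_cases hxy : x = y
    · subst hxy
      simp
    · have := hall s(x, y) (by simp [Pos, hxy])
      simpa using this
  -- termwise bound
  set N := (Fintype.card V).choose 2 with hN
  have hQN : Q.card ≤ N := by
    rw [hN, ← pos_card]
    exact Finset.card_le_card hQ1
  have hterm : ∀ G ∈ 𝒢, p ^ G.edgeSet.ncard * (1 - p) ^ (N - G.edgeSet.ncard) ≤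
      (p ^ (T G).card * (1 - p) ^ (Q.card - (T G).card)) * (max p (1 - p)) ^ (N - Q.card) := by
    intro G _
    have h1 : (E G).card = (T G).card + (E G \ Q).card := by
      have h2 : T G = E G ∩ Q := by
        ext e
        simp only [T, E, Finset.mem_filter, Finset.mem_inter]
        constructor
        · rintro ⟨h3, h4⟩
          exact ⟨⟨hQ1 h3, h4⟩, h3⟩
        · rintro ⟨⟨_, h4⟩, h3⟩
          exact ⟨h3, h4⟩
      rw [h2, Finset.card_inter_add_card_sdiff]
    have hTQ : (T G).card ≤ Q.card := Finset.card_le_card (Finset.filter_subset _ _)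
    have hrest : (E G \ Q).card ≤ N - Q.card := by
      have h5 : E G \ Q ⊆ Pos V \ Q := by
        apply Finset.sdiff_subset_sdiff _ (le_refl _)
        exact Finset.filter_subset _ _
      have h6 := Finset.card_le_card h5
      rw [Finset.card_sdiff_of_subset hQ1, pos_card] at h6
      exact h6
    rw [hEcard, h1]
    have hsub : N - ((T G).card + (E G \ Q).card) =
        (Q.card - (T G).card) + ((N - Q.card) - (E G \ Q).card) := by omega
    rw [hsub, pow_add, pow_add]
    have h7 := pow_mix p hp0 hp1 (E G \ Q).card ((N - Q.card) - (E G \ Q).card)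
    rw [Nat.add_sub_cancel' hrest] at h7
    have h8 : 0 ≤ p ^ (T G).card * (1 - p) ^ (Q.card - (T G).card) :=
      mul_nonneg (pow_nonneg hp0 _) (pow_nonneg (by linarith) _)
    calc p ^ (T G).card * p ^ (E G \ Q).card * ((1 - p) ^ (Q.card - (T G).card) *
          (1 - p) ^ (N - Q.card - (E G \ Q).card))
        = (p ^ (T G).card * (1 - p) ^ (Q.card - (T G).card)) *
          (p ^ (E G \ Q).card * (1 - p) ^ (N - Q.card - (E G \ Q).card)) := by ring
      _ ≤ _ := mul_le_mul_of_nonneg_left h7 h8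
  have hsum : ∑ G ∈ 𝒢, p ^ (T G).card * (1 - p) ^ (Q.card - (T G).card) ≤ 1 := by
    have h9 : ∑ G ∈ 𝒢, p ^ (T G).card * (1 - p) ^ (Q.card - (T G).card) =
        ∑ S ∈ 𝒢.image T, p ^ S.card * (1 - p) ^ (Q.card - S.card) := by
      rw [Finset.sum_image hinj]
    rw [h9]
    have h10 : 𝒢.image T ⊆ Q.powerset := by
      intro S hS
      rw [Finset.mem_image] at hS
      obtain ⟨G, _, rfl⟩ := hS
      rw [Finset.mem_powerset]
      exact Finset.filter_subset _ _
    calc ∑ S ∈ 𝒢.image T, p ^ S.card * (1 - p) ^ (Q.card - S.card)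
        ≤ ∑ S ∈ Q.powerset, p ^ S.card * (1 - p) ^ (Q.card - S.card) := by
          apply Finset.sum_le_sum_of_subset_of_nonneg h10
          intro S _ _
          exact mul_nonneg (pow_nonneg hp0 _) (pow_nonneg (by linarith) _)
      _ = (p + (1 - p)) ^ Q.card := Finset.sum_pow_mul_eq_add_pow p (1 - p) Q
      _ = 1 := by simp
  calc ∑ G ∈ 𝒢, p ^ G.edgeSet.ncard * (1 - p) ^ (N - G.edgeSet.ncard)
      ≤ ∑ G ∈ 𝒢, (p ^ (T G).card * (1 - p) ^ (Q.card - (T G).card)) *
          (max p (1 - p)) ^ (N - Q.card) := Finset.sum_le_sum hterm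
    _ = (∑ G ∈ 𝒢, p ^ (T G).card * (1 - p) ^ (Q.card - (T G).card)) *
          (max p (1 - p)) ^ (N - Q.card) := by rw [Finset.sum_mul]
    _ ≤ 1 * (max p (1 - p)) ^ (N - Q.card) := by
        apply mul_le_mul_of_nonneg_right hsum
        exact pow_nonneg (hp0.trans (le_max_left _ _)) _
    _ = (max p (1 - p)) ^ (N - ncl r) := by rw [one_mul, hQ2]

end Pool.Agent.H234RC
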