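import Pool.Agent.H234RC.T1
import Pool.Agent.H234RC.T2
import Pool.Agent.H234RC.T3
import Pool.Agent.H234RC.T4
import Pool.Agent.H234RC.T11
import Pool.Agent.H234RC.T12

set_option autoImplicit false

namespace Pool.Agent.H234RC

open Finset

theorem L1_inv {V : Type} {m : ℕ} (Φ : Fin m → NAut V) (G G' : SimpleGraph V)
    (h1 : ∀ i, IsNA G (Φ i)) (h2 : ∀ i, IsNA G' (Φ i)) (a b : Sym2 V) (hab : L1 Φ a b) :
    ((a ∈ G.edgeSet ↔ a ∈ G'.edgeSet) ↔ (b ∈ G.edgeSet ↔ b ∈ G'.edgeSet)) := by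
  obtain ⟨i, x, y, hx1, hx2, hy1, hy2, rfl, rfl⟩ := hab
  simp only [SimpleGraph.mem_edgeSet]
  have e1 := h1 i x y hx1 hx2 hy1 hy2
  have e2 := h2 i x y hx1 hx2 hy1 hy2
  rw [e1, e2]

theorem Lk_inv {V : Type} [Fintype V] [DecidableEq V] {t d : ℕ} (c : Cert V t d)
    (G G' : SimpleGraph V) (h1 : c.Compat G) (h2 : c.Compat G') (a b : Sym2 V)
    (hab : c.Lk a b) :
    ((a ∈ G.edgeSet ↔ a ∈ G'.edgeSet) ↔ (b ∈ G.edgeSet ↔ b ∈ G'.edgeSet)) := by
  rcases hab with hab | hab | hab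
  · exact L1_inv c.Φ G G' h1.na h2.na a b hab
  · obtain ⟨x, hx, z, hz, hzx, hzy, rfl, rfl⟩ := hab
    simp only [SimpleGraph.mem_edgeSet]
    have e1 := h1.tw x hx z hz hzx hzy
    have e2 := h2.tw x hx z hz hzx hzy
    tauto
  · obtain ⟨v, hv, z, hz, rfl, rfl⟩ := hab
    simp only [SimpleGraph.mem_edgeSet]
    have e1 := h1.lb v hv z hz
    have e2 := h2.lb v hv z hz
    tauto

theorem pow_bound (q : ℝ) (hq0 : 0 < q) (hq1 : q < 1) (N k : ℕ) (B : ℝ) (hB : (k : ℝ) ≤ B) :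
    q ^ (N - k) ≤ q ^ ((N : ℝ) - B) := by
  rw [← Real.rpow_natCast]
  apply Real.rpow_le_rpow_of_exponent_ge hq0 hq1.le
  have : (N : ℝ) ≤ ((N - k : ℕ) : ℝ) + k := by
    have : N ≤ (N - k) + k := by omega
    exact_mod_cast this
  linarith

theorem card_NAut {V : Type} [Fintype V] [DecidableEq V] :
    Fintype.card (NAut V) = (Fintype.card V).factorial * (Fintype.card V) ^ 2 := by
  unfold NAut
  rw [Fintype.card_prod, Fintype.card_prod, Fintype.card_perm, sq]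

theorem card_Cert {V : Type} [Fintype V] [DecidableEq V] (t d : ℕ) :
    Fintype.card (Cert V t d) = ((Fintype.card V).factorial * (Fintype.card V) ^ 2) ^ t *
      (Fintype.card V) ^ (Fintype.card V) * (((Fintype.card V) + 1) ^ d) ^ (Fintype.card V) *
      ((Fintype.card V) ^ 2) ^ (Fintype.card V) * 2 ^ (Fintype.card V) := by
  simp only [Cert, NAut, Fintype.card_prod, Fintype.card_fun, Fintype.card_perm,
    Fintype.card_finset, Fintype.card_fin, Fintype.card_option]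
  ring

theorem sum_biUnion_le_sum_sum {α β : Type} [DecidableEq β] (s : Finset α) (f : α → Finset β)
    (w : β → ℝ) (hw : ∀ b, 0 ≤ w b) : ∑ b ∈ s.biUnion f, w b ≤ ∑ a ∈ s, ∑ b ∈ f a, w b := by
  classical
  induction s using Finset.induction_on with
  | empty => simp
  | insert a s ha ih =>
    rw [biUnion_insert, sum_insert ha]
    calc ∑ b ∈ f a ∪ s.biUnion f, w b ≤ ∑ b ∈ f a, w b + ∑ b ∈ s.biUnion f, w b := by
          rw [← sum_union_inter]
          exact le_add_of_nonneg_right (sum_nonneg (fun G _ => hw G))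
      _ ≤ _ := by linarith

open Classical in
theorem main_theorem (p : ℝ) (hp0 : 0 < p) (hp1 : p < 1) :
    ∃ n₀ : ℕ, ∀ n : ℕ, n₀ ≤ n →
      ∑ G ∈ Finset.univ.filter (fun G : SimpleGraph (Fin n) => ¬ Reconstructible G),
        p ^ G.edgeSet.ncard * (1 - p) ^ (n.choose 2 - G.edgeSet.ncard) ≤
      (max p (1 - p)) ^ ((13 / 25 : ℝ) * (n.choose 2 : ℝ)) := by
  set q := max p (1 - p) with hq
  have hq0 : 0 < q := lt_max_of_lt_left hp0
  have hq1 : q < 1 := max_lt hp1 (by linarith)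
  obtain ⟨n₀, hn₀⟩ := asym q hq0 hq1
  refine ⟨max n₀ 3, fun n hn => ?_⟩
  have hn3 : 3 ≤ n := le_trans (le_max_right _ _) hn
  obtain ⟨t, h, ht, hth, hasym⟩ := hn₀ n (le_trans (le_max_left _ _) hn)
  have hcard : Fintype.card (Fin n) = n := Fintype.card_fin n
  let w : SimpleGraph (Fin n) → ℝ := fun G => p ^ G.edgeSet.ncard * (1 - p) ^ (n.choose 2 - G.edgeSet.ncard)
  have hw : ∀ G, 0 ≤ w G := fun G => mul_nonneg (pow_nonneg hp0.le _) (pow_nonneg (by linarith) _)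
  let C1 : Finset (Fin 50 → NAut (Fin n)) := univ.filter (fun c => ∀ i j, i ≠ j →
      3 * (univ.filter (fun x => (c i).1 x = (c j).1 x)).card ≤ 2 * Fintype.card (Fin n))
  let C2 : Finset (Cert (Fin n) t (h + 2)) := univ.filter (fun c => c.Valid (50 + 2 * t))
  let G1 : (Fin 50 → NAut (Fin n)) → Finset (SimpleGraph (Fin n)) := fun c =>
    univ.filter (fun G => ∀ i, IsNA G (c i))
  let G2 : Cert (Fin n) t (h + 2) → Finset (SimpleGraph (Fin n)) := fun c =>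
    univ.filter (fun G => c.Compat G)
  have hsub : Finset.univ.filter (fun G : SimpleGraph (Fin n) => ¬ Reconstructible G) ⊆
      C1.biUnion G1 ∪ C2.biUnion G2 := by
    intro G hG
    have hG' := (mem_filter.mp hG).2
    obtain ⟨H, π, hH, hni⟩ := exists_hypo G hG'
    rw [mem_union, mem_biUnion, mem_biUnion]
    rcases extract G H π hH (by rw [hcard]; exact hn3) hni 50 t h (by norm_num) ht
      (by rw [hcard]; exact hth) with ⟨c, hc1, hc2⟩ | ⟨c, hc1, hc2⟩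
    · left
      exact ⟨c, mem_filter.mpr ⟨mem_univ _, hc2⟩, mem_filter.mpr ⟨mem_univ _, hc1⟩⟩
    · right
      exact ⟨c, mem_filter.mpr ⟨mem_univ _, hc1⟩, mem_filter.mpr ⟨mem_univ _, hc2⟩⟩
  have hwb : ∀ (𝒢 : Finset (SimpleGraph (Fin n))) (r : Sym2 (Fin n) → Sym2 (Fin n) → Prop),
      (∀ G ∈ 𝒢, ∀ G' ∈ 𝒢, ∀ a b, r a b →
        ((a ∈ G.edgeSet ↔ a ∈ G'.edgeSet) ↔ (b ∈ G.edgeSet ↔ b ∈ G'.edgeSet))) →
      ∑ G ∈ 𝒢, w G ≤ q ^ (n.choose 2 - ncl r) := by
    intro 𝒢 r hr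
    have := weight_bound p hp0.le hp1.le 𝒢 r hr
    rw [hcard] at this
    exact this
  set B1 : ℝ := (n : ℝ) ^ 2 / 100 + (2 / 9) * (n : ℝ) ^ 2 + 101 * n with hB1
  set B2 : ℝ := (238 / 1000) * (n : ℝ) ^ 2 + (50 + 2 * (t : ℝ) + 20 * (t : ℝ) ^ 2) * n with hB2
  have hk1 : ∀ c ∈ C1, ∑ G ∈ G1 c, w G ≤ q ^ ((n.choose 2 : ℝ) - B1) := by
    intro c hc
    have hc' := (mem_filter.mp hc).2
    refine (hwb (G1 c) (L1 c) ?_).trans ?_
    · intro G hG G' hG' a b hab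
      exact L1_inv c G G' (mem_filter.mp hG).2 (mem_filter.mp hG').2 a b hab
    · apply pow_bound q hq0 hq1
      have := ncl_kind1 (m := 50) (by norm_num) c hc'
      rw [hcard] at this
      refine this.trans (le_of_eq ?_)
      rw [hB1]; push_cast; ring
  have hk2 : ∀ c ∈ C2, ∑ G ∈ G2 c, w G ≤ q ^ ((n.choose 2 : ℝ) - B2) := by
    intro c hc
    have hc' := (mem_filter.mp hc).2
    by_cases hemp : (G2 c).Nonempty
    · obtain ⟨G0, hG0⟩ := hemp
      refine (hwb (G2 c) c.Lk ?_).trans ?_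
      · intro G hG G' hG' a b hab
        exact Lk_inv c G G' (mem_filter.mp hG).2 (mem_filter.mp hG').2 a b hab
      · apply pow_bound q hq0 hq1
        have := ncl_kind2 c G0 ht hc' (mem_filter.mp hG0).2
        rw [hcard] at this
        refine this.trans (le_of_eq ?_)
        rw [hB2]; push_cast; ring
    · rw [not_nonempty_iff_eq_empty] at hemp
      rw [hemp, sum_empty]
      exact Real.rpow_nonneg hq0.le _
  have hb1 : ∑ G ∈ C1.biUnion G1, w G ≤
      ((n.factorial : ℝ) * n ^ 2) ^ 50 * q ^ ((n.choose 2 : ℝ) - B1) := by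
    calc ∑ G ∈ C1.biUnion G1, w G ≤ ∑ c ∈ C1, ∑ G ∈ G1 c, w G :=
          sum_biUnion_le_sum_sum _ _ _ hw
      _ ≤ ∑ c ∈ C1, q ^ ((n.choose 2 : ℝ) - B1) := sum_le_sum hk1
      _ = C1.card * q ^ ((n.choose 2 : ℝ) - B1) := by rw [sum_const, nsmul_eq_mul]
      _ ≤ _ := by
        apply mul_le_mul_of_nonneg_right _ (Real.rpow_nonneg hq0.le _)
        have h1 : C1.card ≤ Fintype.card (Fin 50 → NAut (Fin n)) := card_le_univ _
        rw [Fintype.card_fun, card_NAut, hcard, Fintype.card_fin] at h1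
        exact_mod_cast h1
  have hb2 : ∑ G ∈ C2.biUnion G2, w G ≤
      (((n.factorial : ℝ) * n ^ 2) ^ t * (n : ℝ) ^ n * (((n : ℝ) + 1) ^ (h + 2)) ^ n *
          ((n : ℝ) ^ 2) ^ n * 2 ^ n) * q ^ ((n.choose 2 : ℝ) - B2) := by
    calc ∑ G ∈ C2.biUnion G2, w G ≤ ∑ c ∈ C2, ∑ G ∈ G2 c, w G :=
          sum_biUnion_le_sum_sum _ _ _ hw
      _ ≤ ∑ c ∈ C2, q ^ ((n.choose 2 : ℝ) - B2) := sum_le_sum hk2
      _ = C2.card * q ^ ((n.choose 2 : ℝ) - B2) := by rw [sum_const, nsmul_eq_mul]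
      _ ≤ _ := by
        apply mul_le_mul_of_nonneg_right _ (Real.rpow_nonneg hq0.le _)
        have h1 : C2.card ≤ Fintype.card (Cert (Fin n) t (h + 2)) := card_le_univ _
        rw [card_Cert, hcard] at h1
        exact_mod_cast h1
  calc ∑ G ∈ Finset.univ.filter (fun G : SimpleGraph (Fin n) => ¬ Reconstructible G), w G
      ≤ ∑ G ∈ C1.biUnion G1 ∪ C2.biUnion G2, w G :=
        sum_le_sum_of_subset_of_nonneg hsub (fun G _ _ => hw G)
    _ ≤ ∑ G ∈ C1.biUnion G1, w G + ∑ G ∈ C2.biUnion G2, w G := by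
        rw [← sum_union_inter]
        exact le_add_of_nonneg_right (sum_nonneg (fun G _ => hw G))
    _ ≤ _ := (add_le_add hb1 hb2).trans hasym

end Pool.Agent.H234RC
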