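import Pool.Agent.H234RC.Cl
import Pool.Agent.H234RC.T3
import Pool.Agent.H234RC.T5

set_option autoImplicit false

/-! Variant without the support condition, for the three-card theorem. -/

namespace Pool.Agent.H234RC

open Finset

/-- Valid certificate, no condition on the supports. -/
structure ValidW {V : Type} [Fintype V] [DecidableEq V] {t d : ℕ} (c : Cert V t d) (K : ℕ) :
    Prop where
  yM : ∀ x ∈ c.S, c.y x ∈ c.M
  RzM : ∀ z ∈ c.Rz, z ∉ c.M
  Rzbr : ∀ z ∈ c.Rz, ∀ i, z ≠ (c.Φ i).2.1 ∧ z ≠ (c.Φ i).2.2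
  Rcard : (univ \ (c.M ∪ c.Rz)).card ≤ K
  eM : ∀ v ∈ c.Rz, (c.e v).1 ∈ c.M ∧ (c.e v).2 ∈ c.M

end Pool.Agent.H234RC
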