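import Pool.Agent.H234RC.Cl
import Pool.Agent.H234RC.T3
import Pool.Agent.H234RC.WDefs

set_option autoImplicit false

/-! T10: region `S × S`. -/

namespace Pool.Agent.H234RC

open Finset

section kind2

variable {V : Type} [Fintype V] [DecidableEq V] {t d K : ℕ}

open Classical in
/-- T10: region `S × S` -/
theorem region_SS_W (c : Cert V t d) (G : SimpleGraph V) (hv : ValidW c K) (hc : c.Compat G) :
    8 * ((((Pos V).filter (fun a => ∃ x ∈ c.S, ∃ z ∈ c.S, a = s(x, z))).image (cl c)) \
      (((Pos V).filter (fun a => ∃ x ∈ c.S, ∃ z ∈ c.M0, a = s(x, z))).image (cl c))).card ≤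
      c.S.card ^ 2 + 8 * Fintype.card V := by
  obtain ⟨X, ρ, hXS, hXcard, hρ⟩ := exists_half_rank c.S c.y
    (fun x hx => (Finset.mem_filter.mp hx).2.2)
  set T : Finset V := c.S \ X with hT
  set Q1 : Finset (Sym2 V) := (Pos V).filter (fun a => ∃ x ∈ T, ∃ z ∈ T, a = s(x, z)) with hQ1
  set Q2 : Finset (Sym2 V) := X.image (fun x => s(x, c.y x)) with hQ2
  set AM := (Pos V).filter (fun a => ∃ x ∈ c.S, ∃ z ∈ c.M0, a = s(x, z)) with hAM
  have hTcard : 2 * T.card ≤ c.S.card := by
    have : T.card = c.S.card - X.card := Finset.card_sdiff_of_subset hXS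
    have h2 : X.card ≤ c.S.card := Finset.card_le_card hXS
    omega
  have hQ1card : 2 * Q1.card ≤ T.card ^ 2 := by
    refine (T3aux.two_mul_card_pos (V := V) (fun a => ∃ x ∈ T, ∃ z ∈ T, a = s(x, z))).trans ?_
    calc _ ≤ (T ×ˢ T).card := by
          apply Finset.card_le_card
          rintro ⟨a, b⟩ hq
          obtain ⟨_, x, hx, z, hz, h⟩ := (Finset.mem_filter.mp hq).2
          simp only [Sym2.eq_iff] at h
          rcases h with ⟨rfl, rfl⟩ | ⟨rfl, rfl⟩
          · exact Finset.mem_product.mpr ⟨hx, hz⟩
          · exact Finset.mem_product.mpr ⟨hz, hx⟩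
      _ = T.card ^ 2 := by rw [Finset.card_product, sq]
  have hQ2card : Q2.card ≤ Fintype.card V := Finset.card_image_le.trans (Finset.card_le_univ _)
  have key : ∀ N : ℕ, ∀ x z : V, ρ x + ρ z = N → x ∈ c.S → z ∈ c.S → x ≠ z →
      cl c s(x, z) ∈ (Q1 ∪ Q2).image (cl c) ∨ cl c s(x, z) ∈ AM.image (cl c) := by
    intro N
    induction N using Nat.strong_induction_on with
    | _ N ih =>
      -- one step along the twin map
      have step : ∀ x z : V, ρ x + ρ z = N → x ∈ c.S → z ∈ c.S → x ≠ z → x ∈ X →
          cl c s(x, z) ∈ (Q1 ∪ Q2).image (cl c) ∨ cl c s(x, z) ∈ AM.image (cl c) := by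
        intro x z hN hx hz hxz hxX
        by_cases hzy : z = c.y x
        · left
          apply Finset.mem_image_of_mem
          rw [Finset.mem_union]; right
          rw [hzy]
          exact Finset.mem_image_of_mem (fun x => s(x, c.y x)) hxX
        · have hcl : cl c s(x, z) = cl c s(c.y x, z) := by
            unfold cl
            apply Quotient.sound
            apply Relation.EqvGen.rel
            right; left
            exact ⟨x, hx, z, (Finset.mem_filter.mp hz).2.1, hxz.symm, hzy, rfl, rfl⟩
          rw [hcl]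
          have hyM := hv.yM x hx
          rcases Finset.mem_union.mp hyM with hy | hy
          · right
            apply Finset.mem_image_of_mem
            rw [hAM, Finset.mem_filter]
            exact ⟨T3aux.mem_Pos.mpr (fun h => hzy h.symm), z, hz, c.y x, hy, Sym2.eq_swap⟩
          · have := hρ x hxX
            exact ih (ρ (c.y x) + ρ z) (by omega) (c.y x) z rfl hy hz (fun h => hzy h.symm)
      intro x z hN hx hz hxz
      by_cases hxX : x ∈ X
      · exact step x z hN hx hz hxz hxX
      · by_cases hzX : z ∈ X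
        · have := step z x (by omega) hz hx hxz.symm hzX
          rw [Sym2.eq_swap] at this
          exact this
        · left
          apply Finset.mem_image_of_mem
          rw [Finset.mem_union]; left
          rw [hQ1, Finset.mem_filter]
          exact ⟨T3aux.mem_Pos.mpr hxz, x, Finset.mem_sdiff.mpr ⟨hx, hxX⟩, z,
            Finset.mem_sdiff.mpr ⟨hz, hzX⟩, rfl⟩
  have hsub : (((Pos V).filter (fun a => ∃ x ∈ c.S, ∃ z ∈ c.S, a = s(x, z))).image (cl c)) \
      (AM.image (cl c)) ⊆ (Q1 ∪ Q2).image (cl c) := by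
    intro q hq
    rw [Finset.mem_sdiff] at hq
    obtain ⟨a, ha, rfl⟩ := Finset.mem_image.mp hq.1
    obtain ⟨hpos, x, hx, z, hz, rfl⟩ := Finset.mem_filter.mp ha
    rcases key _ x z rfl hx hz (T3aux.mem_Pos.mp hpos) with h | h
    · exact h
    · exact absurd h hq.2
  have h1 : ((((Pos V).filter (fun a => ∃ x ∈ c.S, ∃ z ∈ c.S, a = s(x, z))).image (cl c)) \
      (AM.image (cl c))).card ≤ Q1.card + Q2.card :=
    (Finset.card_le_card hsub).trans (Finset.card_image_le.trans (Finset.card_union_le _ _))
  nlinarith [hTcard, hQ1card, hQ2card, Nat.zero_le T.card]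

end kind2

end Pool.Agent.H234RC
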