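import Pool.Agent.H234RC.WDefs


set_option autoImplicit false

/-! T7: region `Rz × M` (helper943) -/

namespace Pool.Agent.H234RC

open Finset

namespace W7aux

/-- the number of classes of a finite type: every class outside `E` has at least two elements -/
theorem card_quot_le {α : Type} [Fintype α] (r : α → α → Prop) (E : Finset α)
    (h : ∀ a, a ∉ E → ∃ b, b ≠ a ∧ (Relation.EqvGen r a b ∨ Relation.EqvGen r b a)) :
    2 * Nat.card (Quotient (Relation.EqvGen.setoid r)) ≤ Fintype.card α + E.card := by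
  classical
  have h1 := image_card_le_two (univ : Finset α) E
    (fun a => (Quotient.mk (Relation.EqvGen.setoid r) a)) (by
      intro a _ ha
      obtain ⟨b, hb, hab⟩ := h a ha
      have hab' : Relation.EqvGen r b a := by
        rcases hab with h2 | h2
        · exact h2.symm
        · exact h2
      have hsub : ({a, b} : Finset α) ⊆ univ.filter (fun b =>
          (Quotient.mk (Relation.EqvGen.setoid r) b) = Quotient.mk (Relation.EqvGen.setoid r) a) := by
        intro z hz
        rw [mem_insert, mem_singleton] at hz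
        rw [mem_filter]
        refine ⟨mem_univ _, ?_⟩
        rcases hz with rfl | rfl
        · rfl
        · exact Quotient.sound hab'
      have h3 := card_le_card hsub
      rwa [card_pair (Ne.symm hb)] at h3)
  have h2 : (univ : Finset α).image (fun a => (Quotient.mk (Relation.EqvGen.setoid r) a)) = univ := by
    ext q
    simp only [mem_image, mem_univ, true_and, iff_true]
    exact Quotient.exists_rep q
  rw [h2, card_univ, card_univ] at h1
  rwa [Nat.card_eq_fintype_card]

theorem card_quot_mono {α : Type} [Fintype α] (r r' : α → α → Prop)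
    (h : ∀ a b, r' a b → r a b) :
    Nat.card (Quotient (Relation.EqvGen.setoid r)) ≤
      Nat.card (Quotient (Relation.EqvGen.setoid r')) := by
  classical
  apply Nat.card_le_card_of_surjective
    (f := Quotient.map' (s₁ := Relation.EqvGen.setoid r') (s₂ := Relation.EqvGen.setoid r) id
      (fun a b hab => Relation.EqvGen.mono h _ _ hab))
  intro q
  obtain ⟨a, rfl⟩ := Quotient.exists_rep q
  exact ⟨Quotient.mk _ a, rfl⟩

/-- merging lemma (same statement as task T6) -/
theorem merge_bound {α ι : Type} [Fintype α] [DecidableEq ι] (r0 : α → α → Prop)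
    (lam : α → ι → Prop) (R : Finset ι)
    (hlam : ∀ a b, r0 a b → ∀ z ∈ R, (lam a z ↔ lam b z)) (x x' : ι → α)
    (hx : ∀ v ∈ R, ∀ z ∈ R, ((lam (x v) z ↔ lam (x' v) z) ↔ z ≠ v)) :
    Nat.card (Quotient (Relation.EqvGen.setoid
        (fun a b => r0 a b ∨ ∃ v ∈ R, a = x v ∧ b = x' v))) + R.card ≤
      Nat.card (Quotient (Relation.EqvGen.setoid r0)) := by
  classical
  induction R using Finset.induction_on generalizing r0 with
  | empty =>
    rw [card_empty, add_zero]
    exact card_quot_mono _ _ (fun a b h => Or.inl h)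
  | insert v R' hvR ih =>
    set r1 : α → α → Prop := fun a b => r0 a b ∨ (a = x v ∧ b = x' v) with hr1
    have h1 := ih r1 (by
      rintro a b (h | ⟨rfl, rfl⟩) z hz
      · exact hlam a b h z (mem_insert_of_mem hz)
      · rw [hx v (mem_insert_self v R') z (mem_insert_of_mem hz)]
        rintro rfl
        exact hvR hz) (fun w hw z hz => hx w (mem_insert_of_mem hw) z (mem_insert_of_mem hz))
    have h2 : Nat.card (Quotient (Relation.EqvGen.setoid r1)) + 1 ≤
        Nat.card (Quotient (Relation.EqvGen.setoid r0)) := by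
      rw [Nat.card_eq_fintype_card, Nat.card_eq_fintype_card]
      let f : Quotient (Relation.EqvGen.setoid r0) → Quotient (Relation.EqvGen.setoid r1) :=
        Quotient.map' id (fun a b hab => Relation.EqvGen.mono (fun _ _ h => Or.inl h) _ _ hab)
      apply Fintype.card_lt_of_surjective_not_injective f
      · intro q
        obtain ⟨a, rfl⟩ := Quotient.exists_rep q
        exact ⟨Quotient.mk _ a, rfl⟩
      · intro hinj
        have h3 : f (Quotient.mk _ (x v)) = f (Quotient.mk _ (x' v)) :=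
          Quotient.sound (s := Relation.EqvGen.setoid r1)
            (Relation.EqvGen.rel _ _ (Or.inr ⟨rfl, rfl⟩))
        have h4 : Relation.EqvGen r0 (x v) (x' v) := Quotient.exact (hinj h3)
        have h5 : ∀ a b, Relation.EqvGen r0 a b → (lam a v ↔ lam b v) := by
          intro a b h
          induction h with
          | rel a b h => exact hlam a b h v (mem_insert_self v R')
          | refl a => exact Iff.rfl
          | symm a b _ ih => exact ih.symm
          | trans a b d _ _ ih1 ih2 => exact ih1.trans ih2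
        exact ((hx v (mem_insert_self v R') v (mem_insert_self v R')).1 (h5 _ _ h4)) rfl
    have h3 := card_quot_mono (fun a b => r0 a b ∨ ∃ w ∈ insert v R', a = x w ∧ b = x' w)
      (fun a b => r1 a b ∨ ∃ w ∈ R', a = x w ∧ b = x' w) (by
        rintro a b ((h | h) | ⟨w, hw, h⟩)
        · exact Or.inl h
        · exact Or.inr ⟨v, mem_insert_self v R', h⟩
        · exact Or.inr ⟨w, mem_insert_of_mem hw, h⟩)
    rw [card_insert_of_notMem hvR]
    omega

section
variable {V : Type} [Fintype V] [DecidableEq V] {t d K : ℕ}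

/-- links of the near-automorphisms on `M` -/
def r0 (c : Cert V t d) (a b : {x // x ∈ c.M}) : Prop :=
  ∃ i, a.1 ∈ mv (c.Φ i) ∧ b.1 = (c.Φ i).1 a.1 ∧ b.1 ≠ (c.Φ i).2.1 ∧ b.1 ≠ (c.Φ i).2.2

/-- label links on `M` -/
def rl (c : Cert V t d) (a b : {x // x ∈ c.M}) : Prop :=
  ∃ v ∈ c.Rz, a.1 = (c.e v).1 ∧ b.1 = (c.e v).2

/-- all links on `M` -/
def rr (c : Cert V t d) (a b : {x // x ∈ c.M}) : Prop :=
  (r0 c a b ∨ rl c a b) ∨ (a.1 ∈ c.S ∧ b.1 = c.y a.1)

theorem mem_M0 {c : Cert V t d} {x : V} : x ∈ c.M0 ↔ ∃ i, x ∈ mv (c.Φ i) := by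
  unfold Cert.M0
  simp

theorem fix_of {φ : NAut V} {x : V} (h1 : x ≠ φ.2.1) (h2 : x ≠ φ.2.2) (h3 : x ∉ mv φ) :
    φ.1 x = x := by
  by_contra h
  exact h3 (by unfold mv; simp [h1, h2, h])

theorem mv_iff {φ : NAut V} {x : V} : x ∈ mv φ ↔ x ≠ φ.2.1 ∧ x ≠ φ.2.2 ∧ φ.1 x ≠ x := by
  unfold mv; simp

/-- the class of `s(v, a)` only depends on the class of `a` -/
theorem cl_eq (c : Cert V t d) (hv : ValidW c K) {v : V} (hvR : v ∈ c.Rz) {a b : {x // x ∈ c.M}}
    (h : Relation.EqvGen (rr c) a b) :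
    (Quotient.mk (Relation.EqvGen.setoid c.Lk) s(v, a.1)) =
      Quotient.mk (Relation.EqvGen.setoid c.Lk) s(v, b.1) := by
  have hvM : v ∉ c.M := hv.RzM v hvR
  have hvM0 : v ∉ c.M0 := fun h => hvM (mem_union_left _ h)
  induction h with
  | rel a b h =>
    apply Quotient.sound
    apply Relation.EqvGen.rel
    rcases h with (⟨i, ha, hb, hb1, hb2⟩ | ⟨w, hw, ha, hb⟩) | ⟨ha, hb⟩
    · left
      have hbr := hv.Rzbr v hvR i
      rw [mv_iff] at ha
      refine ⟨i, v, a.1, hbr.1, hbr.2, ha.1, ha.2.1, rfl, ?_⟩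
      have hfix : (c.Φ i).1 v = v :=
        fix_of hbr.1 hbr.2 (fun h => hvM0 (mem_M0.2 ⟨i, h⟩))
      rw [hfix, hb]
    · right; right
      exact ⟨w, hw, v, hvR, by rw [ha], by rw [hb]⟩
    · right; left
      refine ⟨a.1, ha, v, hvM0, ?_, ?_, ?_, ?_⟩
      · rintro h
        exact hvM (by rw [h]; exact a.2)
      · rintro h
        exact hvM (by rw [h, ← hb]; exact b.2)
      · exact Sym2.eq_swap
      · rw [← hb]; exact Sym2.eq_swap
  | refl a => rfl
  | symm a b _ ih => exact ih.symm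
  | trans a b d _ _ ih1 ih2 => exact ih1.trans ih2

/-- exceptional elements: those mapped to a break point -/
theorem exc_card (c : Cert V t d) (P : Finset {x // x ∈ c.M})
    (hP : ∀ x ∈ P, ∃ i, (c.Φ i).1 x.1 = (c.Φ i).2.1 ∨ (c.Φ i).1 x.1 = (c.Φ i).2.2) :
    P.card ≤ 2 * t := by
  classical
  have h1 : P.map ⟨Subtype.val, Subtype.val_injective⟩ ⊆
      (univ : Finset (Fin t × Bool)).image (fun p =>
        (c.Φ p.1).1.symm (if p.2 then (c.Φ p.1).2.1 else (c.Φ p.1).2.2)) := by
    intro x hx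
    rw [mem_map] at hx
    obtain ⟨y, hy, rfl⟩ := hx
    obtain ⟨i, hi⟩ := hP y hy
    rw [mem_image]
    rcases hi with hi | hi
    · refine ⟨(i, true), mem_univ _, ?_⟩
      simp only [if_true]
      rw [← hi, Equiv.symm_apply_apply]
      rfl
    · refine ⟨(i, false), mem_univ _, ?_⟩
      simp only [Bool.false_eq_true, if_false]
      rw [← hi, Equiv.symm_apply_apply]
      rfl
  have h2 := card_le_card h1
  rw [card_map] at h2
  refine h2.trans (card_image_le.trans ?_)
  rw [card_univ, Fintype.card_prod, Fintype.card_fin, Fintype.card_bool]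
  omega

theorem r0_partner (c : Cert V t d) {a : {x // x ∈ c.M}} (ha : a.1 ∈ c.M0)
    (hE : ∀ i, a.1 ∈ mv (c.Φ i) → (c.Φ i).1 a.1 ≠ (c.Φ i).2.1 ∧ (c.Φ i).1 a.1 ≠ (c.Φ i).2.2) :
    ∃ b, b ≠ a ∧ r0 c a b := by
  obtain ⟨i, hi⟩ := mem_M0.1 ha
  have h1 := hE i hi
  have h2 := mv_iff.1 hi
  have hmv : (c.Φ i).1 a.1 ∈ mv (c.Φ i) := by
    rw [mv_iff]
    exact ⟨h1.1, h1.2, fun h => h2.2.2 ((c.Φ i).1.injective h)⟩
  refine ⟨⟨(c.Φ i).1 a.1, mem_union_left _ (mem_M0.2 ⟨i, hmv⟩)⟩, ?_, i, hi, rfl, h1.1, h1.2⟩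
  intro h
  exact h2.2.2 (congrArg Subtype.val h)

end

end W7aux

section kind2

variable {V : Type} [Fintype V] [DecidableEq V] {t d K : ℕ}

open Classical in
/-- T7: region `Rz × M`. `κ` is a number of classes on `M`. -/
theorem region_RM_W (c : Cert V t d) (G : SimpleGraph V) (hv : ValidW c K) (hc : c.Compat G) :
    ∃ κ : ℕ, (((Pos V).filter (fun a => ∃ v ∈ c.Rz, ∃ x ∈ c.M, a = s(v, x))).image
        (cl c)).card ≤ c.Rz.card * κ ∧
      2 * κ ≤ c.M.card + 2 * t ∧
      2 * κ + 2 * c.Rz.card ≤ 2 * c.S.card + c.M0.card + 2 * t := by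
  have hdis : Disjoint c.M0 c.S := by
    rw [disjoint_right]
    intro x hx
    unfold Cert.S at hx
    exact (mem_filter.1 hx).2.1
  have hMcard : c.M.card = c.M0.card + c.S.card := card_union_of_disjoint hdis
  refine ⟨Nat.card (Quotient (Relation.EqvGen.setoid (W7aux.rr c))), ?_, ?_, ?_⟩
  · -- the image
    have hsub : ((Pos V).filter (fun a => ∃ v ∈ c.Rz, ∃ x ∈ c.M, a = s(v, x))).image (cl c) ⊆
        (c.Rz ×ˢ (univ : Finset (Quotient (Relation.EqvGen.setoid (W7aux.rr c))))).image
          (fun p => cl c s(p.1, p.2.out.1)) := by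
      intro q hq
      rw [mem_image] at hq
      obtain ⟨a, ha, rfl⟩ := hq
      obtain ⟨-, v, hvR, x, hx, rfl⟩ := mem_filter.1 ha
      rw [mem_image]
      refine ⟨(v, Quotient.mk _ ⟨x, hx⟩), ?_, ?_⟩
      · rw [mem_product]
        exact ⟨hvR, mem_univ _⟩
      · have h1 : Relation.EqvGen (W7aux.rr c)
            (Quotient.mk (Relation.EqvGen.setoid (W7aux.rr c)) ⟨x, hx⟩).out ⟨x, hx⟩ :=
          Quotient.mk_out (s := Relation.EqvGen.setoid (W7aux.rr c)) ⟨x, hx⟩
        exact W7aux.cl_eq c hv hvR h1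
    refine (card_le_card hsub).trans (card_image_le.trans ?_)
    rw [card_product, card_univ, Nat.card_eq_fintype_card]
  · -- two elements in every class
    have h1 := W7aux.card_quot_le (W7aux.rr c)
      (univ.filter (fun x : {x // x ∈ c.M} =>
        ∃ i, (c.Φ i).1 x.1 = (c.Φ i).2.1 ∨ (c.Φ i).1 x.1 = (c.Φ i).2.2)) (by
        intro a ha
        rw [mem_filter] at ha
        simp only [mem_univ, true_and, not_exists, not_or] at ha
        have haM := a.2
        unfold Cert.M at haM
        rcases mem_union.1 haM with h0 | hS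
        · obtain ⟨b, hb, hr⟩ := W7aux.r0_partner c h0 (fun i _ => ha i)
          exact ⟨b, hb, Or.inl (Relation.EqvGen.rel _ _ (Or.inl (Or.inl hr)))⟩
        · refine ⟨⟨c.y a.1, hv.yM a.1 hS⟩, ?_, Or.inl (Relation.EqvGen.rel _ _ (Or.inr ⟨hS, rfl⟩))⟩
          intro h
          have h2 : c.y a.1 = a.1 := congrArg Subtype.val h
          unfold Cert.S at hS
          exact (mem_filter.1 hS).2.2 h2)
    have h2 := W7aux.exc_card c (univ.filter (fun x : {x // x ∈ c.M} =>
        ∃ i, (c.Φ i).1 x.1 = (c.Φ i).2.1 ∨ (c.Φ i).1 x.1 = (c.Φ i).2.2))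
        (fun x hx => (mem_filter.1 hx).2)
    rw [Fintype.card_coe] at h1
    omega
  · -- classes of the near-automorphisms
    have h0 : 2 * Nat.card (Quotient (Relation.EqvGen.setoid (W7aux.r0 c))) ≤
        2 * c.S.card + c.M0.card + 2 * t := by
      have h1 := W7aux.card_quot_le (W7aux.r0 c)
        ((univ.filter (fun x : {x // x ∈ c.M} =>
          ∃ i, (c.Φ i).1 x.1 = (c.Φ i).2.1 ∨ (c.Φ i).1 x.1 = (c.Φ i).2.2)) ∪
          univ.filter (fun x : {x // x ∈ c.M} => x.1 ∈ c.S)) (by
          intro a ha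
          rw [mem_union, not_or, mem_filter, mem_filter] at ha
          simp only [mem_univ, true_and, not_exists, not_or] at ha
          have haM := a.2
          unfold Cert.M at haM
          rcases mem_union.1 haM with h0 | hS
          · obtain ⟨b, hb, hr⟩ := W7aux.r0_partner c h0 (fun i _ => ha.1 i)
            exact ⟨b, hb, Or.inl (Relation.EqvGen.rel _ _ hr)⟩
          · exact absurd hS ha.2)
      have h2 := W7aux.exc_card c (univ.filter (fun x : {x // x ∈ c.M} =>
          ∃ i, (c.Φ i).1 x.1 = (c.Φ i).2.1 ∨ (c.Φ i).1 x.1 = (c.Φ i).2.2))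
          (fun x hx => (mem_filter.1 hx).2)
      have h3 : (univ.filter (fun x : {x // x ∈ c.M} => x.1 ∈ c.S)).card ≤ c.S.card := by
        apply card_le_card_of_injOn (fun x => x.1)
        · intro x hx
          exact (mem_filter.1 hx).2
        · intro x _ y _ h
          exact Subtype.ext h
      have h4 := card_union_le (univ.filter (fun x : {x // x ∈ c.M} =>
          ∃ i, (c.Φ i).1 x.1 = (c.Φ i).2.1 ∨ (c.Φ i).1 x.1 = (c.Φ i).2.2))
          (univ.filter (fun x : {x // x ∈ c.M} => x.1 ∈ c.S))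
      rw [Fintype.card_coe] at h1
      omega
    by_cases hne : c.M.Nonempty
    · obtain ⟨z0, hz0⟩ := hne
      have hR : ∀ v ∈ c.Rz, (c.e v).1 ∈ c.M ∧ (c.e v).2 ∈ c.M := hv.eM
      let x : V → {x // x ∈ c.M} := fun v =>
        if h : (c.e v).1 ∈ c.M then ⟨(c.e v).1, h⟩ else ⟨z0, hz0⟩
      let x' : V → {x // x ∈ c.M} := fun v =>
        if h : (c.e v).2 ∈ c.M then ⟨(c.e v).2, h⟩ else ⟨z0, hz0⟩
      have hx1 : ∀ v ∈ c.Rz, (x v).1 = (c.e v).1 := by
        intro v hvR
        simp only [x, dif_pos (hR v hvR).1]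
      have hx2 : ∀ v ∈ c.Rz, (x' v).1 = (c.e v).2 := by
        intro v hvR
        simp only [x', dif_pos (hR v hvR).2]
      have hm := W7aux.merge_bound (W7aux.r0 c) (fun a z => G.Adj z a.1) c.Rz (by
        rintro a b ⟨i, ha, hb, hb1, hb2⟩ z hz
        have hbr := hv.Rzbr z hz i
        have hzM : z ∉ c.M := hv.RzM z hz
        have hfix : (c.Φ i).1 z = z :=
          W7aux.fix_of hbr.1 hbr.2
            (fun h => hzM (mem_union_left _ (W7aux.mem_M0.2 ⟨i, h⟩)))
        have ha' := W7aux.mv_iff.1 ha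
        have h1 := hc.na i z a.1 hbr.1 hbr.2 ha'.1 ha'.2.1
        rw [hfix, ← hb] at h1
        exact h1.symm) x x' (by
        intro v hvR z hzR
        rw [hx1 v hvR, hx2 v hvR]
        exact hc.lb v hvR z hzR)
      have h5 := W7aux.card_quot_mono (W7aux.rr c)
        (fun a b => W7aux.r0 c a b ∨ ∃ v ∈ c.Rz, a = x v ∧ b = x' v) (by
        rintro a b (h | ⟨v, hvR, rfl, rfl⟩)
        · exact Or.inl (Or.inl h)
        · exact Or.inl (Or.inr ⟨v, hvR, hx1 v hvR, hx2 v hvR⟩))
      omega
    · have hRz : c.Rz = ∅ := by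
        rw [← not_nonempty_iff_eq_empty]
        rintro ⟨v, hvR⟩
        exact hne ⟨_, (hv.eM v hvR).1⟩
      have h5 := W7aux.card_quot_mono (W7aux.rr c) (W7aux.r0 c)
        (fun a b h => Or.inl (Or.inl h))
      rw [hRz, card_empty]
      omega

end kind2

end Pool.Agent.H234RC
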