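import Pool.Agent.H234RC.WDefs
import Pool.Agent.H234RC.T9

set_option autoImplicit false

namespace Pool.Agent.H234RC

open Finset T9aux

variable {V : Type} [Fintype V] [DecidableEq V] {t d K : ℕ}

open Classical in
/-- region `M0 × M0`, no support condition -/
theorem region_MM_W (c : Cert V t d) (G : SimpleGraph V) (hv : ValidW c K) (hc : c.Compat G) :
    4 * (((Pos V).filter (fun a => ∃ x ∈ c.M0, ∃ z ∈ c.M0, a = s(x, z))).image (cl c)).card ≤
      c.M0.card ^ 2 + 2 * (4 * t + 5 * t ^ 2) * Fintype.card V := by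
  set A := (Pos V).filter (fun a => ∃ x ∈ c.M0, ∃ z ∈ c.M0, a = s(x, z)) with hA
  have memA : ∀ {x z : V}, x ∈ c.M0 → z ∈ c.M0 → x ≠ z → s(x, z) ∈ A := by
    intro x z hx hz hxz
    rw [hA, mem_filter]
    refine ⟨?_, x, hx, z, hz, rfl⟩
    simp only [Pos, mem_filter, mem_univ, true_and, Sym2.isDiag_iff_proj_eq]
    exact hxz
  have ofA : ∀ {x z : V}, s(x, z) ∈ A → x ∈ c.M0 ∧ z ∈ c.M0 ∧ x ≠ z := by
    intro x z h
    rw [hA, mem_filter] at h
    obtain ⟨h1, x', hx', z', hz', he⟩ := h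
    simp only [Pos, mem_filter, mem_univ, true_and, Sym2.isDiag_iff_proj_eq] at h1
    rw [Sym2.eq_iff] at he
    rcases he with ⟨rfl, rfl⟩ | ⟨rfl, rfl⟩
    · exact ⟨hx', hz', h1⟩
    · exact ⟨hz', hx', h1⟩
  have cA : 2 * A.card ≤ c.M0.card ^ 2 := by
    have := two_mul_card_le A (c.M0 ×ˢ c.M0) ?_ ?_
    · rw [card_product] at this
      calc _ ≤ _ := this
        _ = _ := by ring
    · intro a ha
      rw [hA, mem_filter] at ha
      simpa [Pos] using ha.1
    · rintro a ha x z rfl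
      have := ofA ha
      exact mem_product.2 ⟨this.1, this.2.1⟩
  have cE := card_Eset c
  have key := image_card_le_two A (Eset c) (cl c) ?_
  · nlinarith [cA, cE, key]
  · -- two elements
    intro a haA haE
    induction a with
    | _ x z =>
    obtain ⟨hx, hz, hxz⟩ := ofA haA
    obtain ⟨ex, ez, e1, e2, e3, e4⟩ := Eset_spec haE
    obtain ⟨bx1, bx2, bx3⟩ := exc_spec ex
    obtain ⟨bz1, bz2, bz3⟩ := exc_spec ez
    obtain ⟨i, _, hi⟩ := mem_biUnion.1 hx
    have hxi : (c.Φ i).1 x ≠ x := ((mem_filter.1 hi).2).2.2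
    have hne : s(x, z) ≠ s((c.Φ i).1 x, (c.Φ i).1 z) :=
      ne_pair (fun h => hxi h.1.symm) (fun h => e1 i h.2)
    rw [← card_pair hne]
    apply card_le_card
    intro b hb
    simp only [mem_insert, mem_singleton] at hb
    rcases hb with rfl | rfl
    · exact mem_filter.2 ⟨haA, rfl⟩
    · refine mem_filter.2 ⟨memA (img_mem hx (bx1 i) (bx2 i i)) (img_mem hz (bz1 i) (bz2 i i)) ?_, ?_⟩
      · exact fun h => hxz ((c.Φ i).1.injective h)
      · exact (link i (bx1 i) (bz1 i)).symm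

end Pool.Agent.H234RC
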