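import Pool.Agent.H234RC.W12a

set_option autoImplicit false

namespace Pool.Agent.H234RC

open Finset

theorem extractW {V : Type} [Fintype V] [DecidableEq V] (G : SimpleGraph V)
    (hn : 1 ≤ Fintype.card V) (hG : ¬ ThreeCards G)
    (t h : ℕ) (hth : Fintype.card V < t * h) :
    ∃ c : Cert V t (h + 2), ValidW c (2 + 2 * t) ∧ c.Compat G := by
  classical
  have hne : Nonempty V := Fintype.card_pos_iff.mp (by omega)
  obtain ⟨a0⟩ := hne
  -- the fixed set
  let R : Finset V := univ.filter (fun x => Rn G x)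
  have hRmem : ∀ x, x ∈ R ↔ Rn G x := fun x => by simp [R]
  obtain ⟨W, hWc, hW⟩ := merging G hG
  -- label edges
  have hlab : ∀ v, ∃ q : V × V, Rn G v → v ∉ W → (¬ Rn G q.1 ∧ ¬ Rn G q.2 ∧
      ∀ z, Rn G z → z ∉ W → ((G.Adj z q.1 ↔ G.Adj z q.2) ↔ z ≠ v)) := by
    intro v
    by_cases hv : Rn G v ∧ v ∉ W
    · obtain ⟨q, hq⟩ := hW v hv.1 hv.2
      exact ⟨q, fun _ _ => hq⟩
    · exact ⟨(v, v), fun h1 h2 => absurd ⟨h1, h2⟩ hv⟩
  choose e he using hlab
  -- greedy family
  let N : Set (NAut V) := {φ | IsNA G φ}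
  obtain ⟨Φ, hΦN, hΦg⟩ := greedy N t h hth a0
  set M0 : Finset V := univ.biUnion (fun i => mv (Φ i)) with hM0
  have hΦNA : ∀ i, IsNA G (Φ i) := by
    intro i
    rcases hΦN i with hφ | hφ
    · exact hφ
    · rw [hφ]
      intro x y _ _ _ _
      simp
  have hM0R : ∀ x ∈ M0, ¬ Rn G x := by
    intro x hx hR
    rw [hM0, mem_biUnion] at hx
    obtain ⟨i, _, hi⟩ := hx
    have := (mem_filter.mp hi).2
    exact this.2.2 (hR _ (hΦNA i) this.1 this.2.1)
  -- twins
  have htw : ∀ x, ∃ q : V × (Fin (h + 2) → Option V), (x ∉ M0 → ¬ Rn G x →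
      q.1 ≠ x ∧ ¬ Rn G q.1 ∧ ∀ z, z ∉ M0 → z ≠ x → z ≠ q.1 →
      ((G.Adj x z ↔ G.Adj q.1 z) ↔ ¬ ∃ j, q.2 j = some z)) ∧ ((x ∈ M0 ∨ Rn G x) → q.1 = x) := by
    intro x
    by_cases hx : x ∉ M0 ∧ ¬ Rn G x
    · have hx2 := hx.2
      unfold Rn at hx2
      push Not at hx2
      obtain ⟨φ, hφ, hxa, hxb, hmov⟩ := hx2
      set y := φ.1 x with hy
      set Dx : Finset V := univ.filter (fun z => z ∉ M0 ∧ z ≠ x ∧ z ≠ y ∧
        ¬ (G.Adj x z ↔ G.Adj y z)) with hDx
      have hsub : Dx ⊆ (mv φ \ M0) ∪ {φ.2.1, φ.2.2} := by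
        intro z hz
        rw [hDx, mem_filter] at hz
        obtain ⟨_, hzM, hzx, hzy, hzG⟩ := hz
        rw [mem_union, mem_sdiff, mem_insert, mem_singleton]
        by_contra hcon
        push Not at hcon
        obtain ⟨hc1, hc2, hc3⟩ := hcon
        have hfix : φ.1 z = z := by
          by_contra hmz
          exact hzM (hc1 (mem_filter.mpr ⟨mem_univ _, hc2, hc3, hmz⟩))
        have := hφ x z hxa hxb hc2 hc3
        rw [hfix] at this
        exact hzG this.symm
      have hcard : Dx.card ≤ h + 2 := by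
        have h1 := card_le_card hsub
        have h2 := card_union_le (mv φ \ M0) {φ.2.1, φ.2.2}
        have h3 := hΦg φ hφ
        have h4 : ({φ.2.1, φ.2.2} : Finset V).card ≤ 2 := card_le_two
        omega
      obtain ⟨f, hf⟩ := exists_enum Dx (h + 2) hcard
      refine ⟨(y, f), fun _ _ => ⟨hmov, moved_notRn hφ hxa hxb hmov, ?_⟩, ?_⟩
      · intro z hzM hzx hzy
        show (G.Adj x z ↔ G.Adj y z) ↔ ¬ ∃ j, f j = some z
        rw [hf z, hDx, mem_filter]
        constructor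
        · intro hiff hmem
          exact hmem.2.2.2.2 hiff
        · intro hnm
          by_contra hiff
          exact hnm ⟨mem_univ _, hzM, hzx, hzy, hiff⟩
      · intro hor
        rcases hor with hor | hor
        · exact absurd hor hx.1
        · exact absurd hor hx.2
    · refine ⟨(x, fun _ => none), fun h1 h2 => absurd ⟨h1, h2⟩ hx, fun _ => rfl⟩
  choose yD hyD1 hyD2 using htw
  let Br : Finset V := univ.biUnion (fun i => ({(Φ i).2.1, (Φ i).2.2} : Finset V))
  have hBr : Br.card ≤ 2 * t := by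
    calc Br.card ≤ ∑ i : Fin t, ({(Φ i).2.1, (Φ i).2.2} : Finset V).card := card_biUnion_le
      _ ≤ ∑ i : Fin t, 2 := sum_le_sum (fun i _ => card_le_two)
      _ = 2 * t := by simp [mul_comm]
  let Rz : Finset V := (R \ W) \ Br
  let c : Cert V t (h + 2) := (Φ, fun x => (yD x).1, fun x => (yD x).2, e, Rz)
  have hcM0 : c.M0 = M0 := rfl
  have hcS : ∀ x, x ∈ c.S ↔ (x ∉ M0 ∧ ¬ Rn G x) := by
    intro x
    show x ∈ univ.filter (fun x => x ∉ M0 ∧ (yD x).1 ≠ x) ↔ _
    rw [mem_filter]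
    constructor
    · rintro ⟨_, h1, h2⟩
      exact ⟨h1, fun hR => h2 (hyD2 x (Or.inr hR))⟩
    · rintro ⟨h1, h2⟩
      exact ⟨mem_univ _, h1, (hyD1 x h1 h2).1⟩
  have hcM : ∀ x, x ∈ c.M ↔ ¬ Rn G x := by
    intro x
    show x ∈ c.M0 ∪ c.S ↔ _
    rw [mem_union, hcS, hcM0]
    constructor
    · rintro (h1 | h1)
      · exact hM0R x h1
      · exact h1.2
    · intro h1
      by_cases h2 : x ∈ M0
      · exact Or.inl h2
      · exact Or.inr ⟨h2, h1⟩
  have hRz : ∀ z, z ∈ Rz ↔ (Rn G z ∧ z ∉ W) ∧ z ∉ Br := by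
    intro z
    show z ∈ (R \ W) \ Br ↔ _
    rw [mem_sdiff, mem_sdiff, hRmem]
  refine ⟨c, ?_, ?_⟩
  · refine ⟨?_, ?_, ?_, ?_, ?_⟩
    · intro x hx
      rw [hcS] at hx
      rw [hcM]
      exact (hyD1 x hx.1 hx.2).2.1
    · intro z hz
      rw [hcM]
      exact fun hcon => hcon ((hRz z).1 hz).1.1
    · intro z hz i
      have hzB := ((hRz z).1 hz).2
      constructor
      · intro hh
        apply hzB
        rw [mem_biUnion]
        exact ⟨i, mem_univ _, by rw [mem_insert]; exact Or.inl hh⟩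
      · intro hh
        apply hzB
        rw [mem_biUnion]
        exact ⟨i, mem_univ _, by rw [mem_insert, mem_singleton]; exact Or.inr hh⟩
    · have hsub : univ \ (c.M ∪ c.Rz) ⊆ W ∪ Br := by
        intro x hx
        rw [mem_sdiff, mem_union, hcM] at hx
        rw [mem_union]
        by_contra hcon
        push Not at hcon
        apply hx.2
        by_cases hxR : Rn G x
        · right
          exact (hRz x).2 ⟨⟨hxR, hcon.1⟩, hcon.2⟩
        · exact Or.inl hxR
      calc (univ \ (c.M ∪ c.Rz)).card ≤ (W ∪ Br).card := card_le_card hsub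
        _ ≤ W.card + Br.card := card_union_le _ _
        _ ≤ 2 + 2 * t := by omega
    · intro v hv
      have hv' := (hRz v).1 hv
      rw [hcM, hcM]
      have := he v hv'.1.1 hv'.1.2
      exact ⟨this.1, this.2.1⟩
  · refine ⟨hΦNA, ?_, ?_⟩
    · intro x hx z hz hzx hzy
      rw [hcS] at hx
      exact (hyD1 x hx.1 hx.2).2.2 z hz hzx hzy
    · intro v hv z hz
      have hv' := (hRz v).1 hv
      have hz' := (hRz z).1 hz
      have := he v hv'.1.1 hv'.1.2
      exact this.2.2 z hz'.1.1 hz'.1.2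

end Pool.Agent.H234RC
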