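import Pool.Agent.H234RC.T4

set_option autoImplicit false

/-! Asymptotics for the three-card theorem. -/

namespace Pool.Agent.H234RC

open Finset Filter Topology

theorem ineqW (L s l t ε : ℝ) (hL : 0 < L) (hε : 0 < ε) (hs : 600 ≤ s) (hsL : 1 ≤ L * ε / 10 * s)
    (hsε : 1350 ≤ ε * s)
    (hl : l ≤ L * ε / 200 * s) (ht : t ≤ s + 1) (ht0 : 0 ≤ t) :
    14 * s ^ 7 * l + 1 ≤ L * (ε * (s ^ 8 - s ^ 4) / 2 - s ^ 4 / 4
      - (2 + 2 * t + 20 * t ^ 2) * s ^ 4) := by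
  have h1 : 14 * s ^ 7 * l ≤ 14 * s ^ 7 * (L * ε / 200 * s) :=
    mul_le_mul_of_nonneg_left hl (by positivity)
  have h2 : 14 * s ^ 7 * (L * ε / 200 * s) = L * (7 / 100 * ε * s ^ 8) := by ring
  have ht2 : t ^ 2 ≤ (s + 1) ^ 2 := pow_le_pow_left₀ ht0 ht 2
  have h3 : 1 / 4 + (2 + 2 * t + 20 * t ^ 2) ≤ 135 * s ^ 2 := by nlinarith
  have h4 : (1 / 4 + (2 + 2 * t + 20 * t ^ 2)) * s ^ 4 ≤ 135 * s ^ 2 * s ^ 4 :=
    mul_le_mul_of_nonneg_right h3 (by positivity)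
  have h5 : 135 * s ^ 2 * s ^ 4 ≤ 1 / 10 * ε * s ^ 8 := by
    have h51 : 1350 ≤ ε * s ^ 2 := by nlinarith
    have : 0 ≤ s ^ 6 * (ε * s ^ 2 - 1350) := mul_nonneg (by positivity) (by linarith)
    nlinarith
  have h6 : 1 ≤ L * (1 / 10 * ε * s ^ 8) := by
    have : s ≤ s ^ 8 := le_self_pow₀ (by linarith) (by norm_num)
    have h7 : L * ε / 10 * s ≤ L * ε / 10 * s ^ 8 := mul_le_mul_of_nonneg_left this (by positivity)
    linarith
  have h7 : L * ((1 / 4 + (2 + 2 * t + 20 * t ^ 2)) * s ^ 4) ≤ L * (1 / 10 * ε * s ^ 8) :=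
    mul_le_mul_of_nonneg_left (h4.trans h5) hL.le
  have h8 : L * (1 / 2 * ε * s ^ 4) ≤ L * (1 / 10 * ε * s ^ 8) := by
    apply mul_le_mul_of_nonneg_left _ hL.le
    have hs4 : (600 : ℝ) ^ 4 ≤ s ^ 4 := pow_le_pow_left₀ (by norm_num) hs 4
    have : 0 ≤ ε * s ^ 4 * (s ^ 4 - 5) := mul_nonneg (by positivity) (by linarith)
    nlinarith
  have h9 : 0 ≤ L * ε * s ^ 8 := by positivity
  nlinarith

open T4aux in
theorem asymW (q : ℝ) (hq0 : 0 < q) (hq1 : q < 1) (ε : ℝ) (hε : 0 < ε) :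
    ∃ n₀ : ℕ, ∀ n : ℕ, n₀ ≤ n → ∃ t h : ℕ, 1 ≤ t ∧ n < t * h ∧
      (((n.factorial : ℝ) * n ^ 2) ^ t * (n : ℝ) ^ n * (((n : ℝ) + 1) ^ (h + 2)) ^ n *
          ((n : ℝ) ^ 2) ^ n * 2 ^ n) *
          q ^ ((n.choose 2 : ℝ) - ((n : ℝ) ^ 2 / 4 +
            (2 + 2 * (t : ℝ) + 20 * (t : ℝ) ^ 2) * n)) ≤
      q ^ ((1 / 2 - ε) * (n.choose 2 : ℝ)) := by
  set L := -Real.log q with hL
  have hL0 : 0 < L := by rw [hL]; exact neg_pos.mpr (Real.log_neg hq0 hq1)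
  obtain ⟨n₀, hn₀⟩ := Filter.eventually_atTop.mp (((ev_log (100 * (L * ε))
    (by positivity)).and (ev_s 600)).and
    (((ev_s (10 / (L * ε))).and (ev_s (1350 / ε))).and (eventually_ge_atTop 1)))
  refine ⟨n₀, fun n hn => ?_⟩
  obtain ⟨⟨hl, hs⟩, ⟨hs2, hs3⟩, hn1⟩ := hn₀ n hn
  set s : ℝ := (n : ℝ) ^ (1 / 4 : ℝ) with hsdef
  set l : ℝ := Real.log ((n : ℝ) + 1) with hldef
  have hs0 : 0 < s := by linarith
  have hLε : 0 < L * ε := by positivity
  have hsL : 1 ≤ L * ε / 10 * s := by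
    rw [div_le_iff₀ hLε] at hs2
    linarith
  have hsε : 1350 ≤ ε * s := by
    rw [div_le_iff₀ hε] at hs3
    linarith
  have hl' : l ≤ L * ε / 200 * s := by
    refine hl.trans (le_of_eq ?_)
    ring
  have hs4 : s ^ 4 = n := by
    rw [hsdef, ← Real.rpow_natCast, ← Real.rpow_mul (by positivity)]
    norm_num
  have hn1r : (1 : ℝ) ≤ n := by exact_mod_cast hn1
  have hn0r : (0 : ℝ) < n := by linarith
  have hl0 : 0 ≤ l := Real.log_nonneg (by linarith)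
  -- the choice of `t`, `h`
  set w := Nat.sqrt (Nat.sqrt n) with hw
  have hw1 : w ^ 4 ≤ n := by
    have a1 := Nat.sqrt_le' (Nat.sqrt n)
    have a2 := Nat.sqrt_le' n
    calc w ^ 4 = (w ^ 2) ^ 2 := by ring
      _ ≤ (Nat.sqrt n) ^ 2 := Nat.pow_le_pow_left a1 2
      _ ≤ n := a2
  have hw2 : n < (w + 1) ^ 4 := by
    have a1 : Nat.sqrt n < (w + 1) ^ 2 := Nat.lt_succ_sqrt' (Nat.sqrt n)
    have a2 : n < (Nat.sqrt n + 1) ^ 2 := Nat.lt_succ_sqrt' n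
    calc n < (Nat.sqrt n + 1) ^ 2 := a2
      _ ≤ ((w + 1) ^ 2) ^ 2 := Nat.pow_le_pow_left a1 2
      _ = (w + 1) ^ 4 := by ring
  have hws : (w : ℝ) ≤ s := by
    have : (w : ℝ) ^ 4 ≤ s ^ 4 := by rw [hs4]; exact_mod_cast hw1
    exact le_of_pow_le_pow_left₀ (by norm_num) hs0.le this
  have hws2 : s < (w : ℝ) + 1 := by
    have : s ^ 4 < ((w : ℝ) + 1) ^ 4 := by rw [hs4]; exact_mod_cast hw2
    exact lt_of_pow_lt_pow_left₀ 4 (by positivity) this
  refine ⟨w + 1, n / (w + 1) + 1, by omega, Nat.lt_mul_div_succ n (by omega), ?_⟩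
  set t := w + 1 with ht
  set h := n / t + 1 with hh
  have hts : (t : ℝ) ≤ s + 1 := by rw [ht]; push_cast; linarith
  have hst : s ≤ t := by rw [ht]; push_cast; linarith
  have ht0 : (0 : ℝ) < t := by linarith
  have hhs : (h : ℝ) ≤ s ^ 3 + 1 := by
    rw [hh]; push_cast
    have h1 : ((n / t : ℕ) : ℝ) ≤ (n : ℝ) / t := Nat.cast_div_le
    have h2 : (n : ℝ) / t ≤ s ^ 3 := by
      rw [div_le_iff₀ ht0, ← hs4]
      have : s ^ 3 * s ≤ s ^ 3 * t := mul_le_mul_of_nonneg_left hst (by positivity)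
      nlinarith
    linarith
  -- the factorial
  have hfac : Real.log ((n.factorial : ℝ) * n ^ 2) ≤ ((n : ℝ) + 2) * l := by
    have h1 : (n.factorial : ℝ) * n ^ 2 ≤ ((n : ℝ) + 1) ^ (n + 2) := by
      have h2 : (n.factorial : ℝ) ≤ (n : ℝ) ^ n := by exact_mod_cast Nat.factorial_le_pow n
      calc (n.factorial : ℝ) * n ^ 2 ≤ (n : ℝ) ^ n * (n : ℝ) ^ 2 :=
            mul_le_mul_of_nonneg_right h2 (by positivity)
        _ = (n : ℝ) ^ (n + 2) := (pow_add _ _ _).symm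
        _ ≤ ((n : ℝ) + 1) ^ (n + 2) := pow_le_pow_left₀ (by positivity) (by linarith) _
    have h3 := Real.log_le_log (by positivity) h1
    rw [Real.log_pow] at h3
    refine h3.trans (le_of_eq ?_)
    push_cast; rfl
  have hlogn : Real.log n ≤ l := Real.log_le_log hn0r (by linarith)
  have hlog2 : Real.log 2 ≤ l := Real.log_le_log (by norm_num) (by linarith)
  have hch : (n.choose 2 : ℝ) = (n : ℝ) * (n - 1) / 2 := Nat.cast_choose_two ℝ n
  -- second term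
  have T2 : (((n.factorial : ℝ) * n ^ 2) ^ t * (n : ℝ) ^ n * (((n : ℝ) + 1) ^ (h + 2)) ^ n *
          ((n : ℝ) ^ 2) ^ n * 2 ^ n) *
          q ^ ((n.choose 2 : ℝ) - ((n : ℝ) ^ 2 / 4 +
            (2 + 2 * (t : ℝ) + 20 * (t : ℝ) ^ 2) * n))
      ≤ 1 / 2 * q ^ ((1 / 2 - ε) * (n.choose 2 : ℝ)) := by
    apply exp_form q _ (14 * s ^ 7 * l) _ _ hq0 (by positivity)
    · rw [Real.log_mul (by positivity) (by positivity), Real.log_mul (by positivity) (by positivity),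
        Real.log_mul (by positivity) (by positivity), Real.log_mul (by positivity) (by positivity),
        Real.log_pow, Real.log_pow, Real.log_pow, Real.log_pow, Real.log_pow, Real.log_pow,
        Real.log_pow]
      rw [← hldef]
      push_cast
      have e1 : (t : ℝ) * Real.log ((n.factorial : ℝ) * n ^ 2) ≤ (t : ℝ) * (((n : ℝ) + 2) * l) :=
        mul_le_mul_of_nonneg_left hfac ht0.le
      have e2 : (n : ℝ) * Real.log n ≤ n * l := mul_le_mul_of_nonneg_left hlogn hn0r.le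
      have e3 : (n : ℝ) * Real.log 2 ≤ n * l := mul_le_mul_of_nonneg_left hlog2 hn0r.le
      have e4 : (t : ℝ) * ((n : ℝ) + 2) + n + n * (h + 2) + n * 2 + n ≤ 14 * s ^ 7 := by
        have hs1 : (1 : ℝ) ≤ s := by linarith
        have p1 : (t : ℝ) * ((n : ℝ) + 2) ≤ 2 * s * (3 * s ^ 4) := by
          rw [← hs4]
          have : (1 : ℝ) ≤ s ^ 4 := one_le_pow₀ hs1
          apply mul_le_mul (by linarith) (by linarith) (by positivity) (by positivity)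
        have p2 : (n : ℝ) * (h + 2) ≤ s ^ 4 * (4 * s ^ 3) := by
          rw [← hs4]
          have : (1 : ℝ) ≤ s ^ 3 := one_le_pow₀ hs1
          apply mul_le_mul_of_nonneg_left (by linarith) (by positivity)
        have p3 : s ^ 5 ≤ s ^ 7 := pow_le_pow_right₀ hs1 (by norm_num)
        have p4 : s ^ 4 ≤ s ^ 7 := pow_le_pow_right₀ hs1 (by norm_num)
        have p5 : (n : ℝ) = s ^ 4 := hs4.symm
        nlinarith
      have e5 : ((t : ℝ) * ((n : ℝ) + 2) + n + n * (h + 2) + n * 2 + n) * l ≤ 14 * s ^ 7 * l :=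
        mul_le_mul_of_nonneg_right e4 hl0
      nlinarith
    · refine (ineqW L s l t ε hL0 hε hs hsL hsε hl' hts ht0.le).trans (le_of_eq ?_)
      rw [hch, ← hs4]
      ring
  have hpos : 0 ≤ q ^ ((1 / 2 - ε) * (n.choose 2 : ℝ)) := Real.rpow_nonneg hq0.le _
  linarith

end Pool.Agent.H234RC
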