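import Pool.Agent.H234RC.Main
import Pool.Agent.H234RC.W4
import Pool.Agent.H234RC.W11
import Pool.Agent.H234RC.W12

set_option autoImplicit false

namespace Pool.Agent.H234RC

open Finset

open Classical in
theorem main3 (p : ℝ) (hp0 : 0 < p) (hp1 : p < 1) (ε : ℝ) (hε : 0 < ε) :
    ∃ n₀ : ℕ, ∀ n : ℕ, n₀ ≤ n →
      ∑ G ∈ Finset.univ.filter (fun G : SimpleGraph (Fin n) => ¬ ThreeCards G),
        p ^ G.edgeSet.ncard * (1 - p) ^ (n.choose 2 - G.edgeSet.ncard) ≤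
      (max p (1 - p)) ^ ((1 / 2 - ε) * (n.choose 2 : ℝ)) := by
  set q := max p (1 - p) with hq
  have hq0 : 0 < q := lt_max_of_lt_left hp0
  have hq1 : q < 1 := max_lt hp1 (by linarith)
  obtain ⟨n₀, hn₀⟩ := asymW q hq0 hq1 ε hε
  refine ⟨max n₀ 3, fun n hn => ?_⟩
  have hn3 : 3 ≤ n := le_trans (le_max_right _ _) hn
  obtain ⟨t, h, ht, hth, hasym⟩ := hn₀ n (le_trans (le_max_left _ _) hn)
  have hcard : Fintype.card (Fin n) = n := Fintype.card_fin n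
  let w : SimpleGraph (Fin n) → ℝ := fun G => p ^ G.edgeSet.ncard * (1 - p) ^ (n.choose 2 - G.edgeSet.ncard)
  have hw : ∀ G, 0 ≤ w G := fun G => mul_nonneg (pow_nonneg hp0.le _) (pow_nonneg (by linarith) _)
  let C2 : Finset (Cert (Fin n) t (h + 2)) := univ.filter (fun c => ValidW c (2 + 2 * t))
  let G2 : Cert (Fin n) t (h + 2) → Finset (SimpleGraph (Fin n)) := fun c =>
    univ.filter (fun G => c.Compat G)
  have hsub : Finset.univ.filter (fun G : SimpleGraph (Fin n) => ¬ ThreeCards G) ⊆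
      C2.biUnion G2 := by
    intro G hG
    have hG' := (mem_filter.mp hG).2
    rw [mem_biUnion]
    obtain ⟨c, hc1, hc2⟩ := extractW G (by rw [hcard]; omega) hG' t h (by rw [hcard]; exact hth)
    exact ⟨c, mem_filter.mpr ⟨mem_univ _, hc1⟩, mem_filter.mpr ⟨mem_univ _, hc2⟩⟩
  have hwb : ∀ (𝒢 : Finset (SimpleGraph (Fin n))) (r : Sym2 (Fin n) → Sym2 (Fin n) → Prop),
      (∀ G ∈ 𝒢, ∀ G' ∈ 𝒢, ∀ a b, r a b →
        ((a ∈ G.edgeSet ↔ a ∈ G'.edgeSet) ↔ (b ∈ G.edgeSet ↔ b ∈ G'.edgeSet))) →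
      ∑ G ∈ 𝒢, w G ≤ q ^ (n.choose 2 - ncl r) := by
    intro 𝒢 r hr
    have := weight_bound p hp0.le hp1.le 𝒢 r hr
    rw [hcard] at this
    exact this
  set B2 : ℝ := (n : ℝ) ^ 2 / 4 + (2 + 2 * (t : ℝ) + 20 * (t : ℝ) ^ 2) * n with hB2
  have hk2 : ∀ c ∈ C2, ∑ G ∈ G2 c, w G ≤ q ^ ((n.choose 2 : ℝ) - B2) := by
    intro c hc
    have hc' := (mem_filter.mp hc).2
    by_cases hemp : (G2 c).Nonempty
    · obtain ⟨G0, hG0⟩ := hemp
      refine (hwb (G2 c) c.Lk ?_).trans ?_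
      · intro G hG G' hG' a b hab
        exact Lk_inv c G G' (mem_filter.mp hG).2 (mem_filter.mp hG').2 a b hab
      · apply pow_bound q hq0 hq1
        have := ncl_kind2W c G0 ht hc' (mem_filter.mp hG0).2
        rw [hcard] at this
        refine this.trans (le_of_eq ?_)
        rw [hB2]; push_cast; ring
    · rw [not_nonempty_iff_eq_empty] at hemp
      rw [hemp, sum_empty]
      exact Real.rpow_nonneg hq0.le _
  have hb2 : ∑ G ∈ C2.biUnion G2, w G ≤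
      (((n.factorial : ℝ) * n ^ 2) ^ t * (n : ℝ) ^ n * (((n : ℝ) + 1) ^ (h + 2)) ^ n *
          ((n : ℝ) ^ 2) ^ n * 2 ^ n) * q ^ ((n.choose 2 : ℝ) - B2) := by
    calc ∑ G ∈ C2.biUnion G2, w G ≤ ∑ c ∈ C2, ∑ G ∈ G2 c, w G :=
          sum_biUnion_le_sum_sum _ _ _ hw
      _ ≤ ∑ c ∈ C2, q ^ ((n.choose 2 : ℝ) - B2) := sum_le_sum hk2
      _ = C2.card * q ^ ((n.choose 2 : ℝ) - B2) := by rw [sum_const, nsmul_eq_mul]
      _ ≤ _ := by
        apply mul_le_mul_of_nonneg_right _ (Real.rpow_nonneg hq0.le _)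
        have h1 : C2.card ≤ Fintype.card (Cert (Fin n) t (h + 2)) := card_le_univ _
        rw [card_Cert, hcard] at h1
        exact_mod_cast h1
  calc ∑ G ∈ Finset.univ.filter (fun G : SimpleGraph (Fin n) => ¬ ThreeCards G), w G
      ≤ ∑ G ∈ C2.biUnion G2, w G :=
        sum_le_sum_of_subset_of_nonneg hsub (fun G _ _ => hw G)
    _ ≤ _ := hb2.trans hasym

end Pool.Agent.H234RC
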