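import Pool.Agent.H234RC.Defs

set_option autoImplicit false

namespace Pool.Agent.H234RC

open Finset

namespace T1aux

variable {V W : Type}

/-- singleton element of a card -/
def sg (G : SimpleGraph V) (v : V) (x : {x : V // x ≠ v}) : TCard G v :=
  ⟨{x.1}, singleton_nonempty _, by simp, by simpa [eq_comm] using x.2⟩

theorem sg_le (G : SimpleGraph V) (v : V) (x : {x : V // x ≠ v}) (t : TCard G v) :
    sg G v x ≤ t ↔ x.1 ∈ t.1 := by
  rw [← Subtype.coe_le_coe]
  show ({x.1} : Finset V) ⊆ t.1 ↔ _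
  rw [singleton_subset_iff]

theorem sg_min (G : SimpleGraph V) (v : V) (x : {x : V // x ≠ v}) : IsMin (sg G v x) := by
  intro t ht
  have ht' : t.1 ⊆ {x.1} := ht
  obtain ⟨y, hy⟩ := t.2.1
  have := mem_singleton.mp (ht' hy)
  rw [sg_le, ← this]; exact hy

theorem exists_sg_of_min (G : SimpleGraph V) (v : V) (s : TCard G v) (hs : IsMin s) :
    ∃ x, sg G v x = s := by
  obtain ⟨x, hx⟩ := s.2.1
  have hxv : x ≠ v := fun h => s.2.2.2 (h ▸ hx)
  refine ⟨⟨x, hxv⟩, ?_⟩
  have h1 : sg G v ⟨x, hxv⟩ ≤ s := (sg_le G v _ s).2 hx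
  exact le_antisymm h1 (hs h1)

theorem sg_inj (G : SimpleGraph V) (v : V) : Function.Injective (sg G v) := by
  intro x y h
  have := congrArg (fun s : TCard G v => s.1) h
  exact Subtype.ext (singleton_inj.mp this)

theorem adj_iff (G : SimpleGraph V) (v : V) (x y : {x : V // x ≠ v}) :
    G.Adj x.1 y.1 ↔ x ≠ y ∧ ∃ t : TCard G v, sg G v x ≤ t ∧ sg G v y ≤ t := by
  classical
  constructor
  · intro h
    refine ⟨fun e => h.ne (congrArg _ e), ⟨⟨{x.1, y.1}, ⟨x.1, by simp⟩, ?_, ?_⟩, ?_, ?_⟩⟩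
    · rw [coe_insert, coe_singleton, SimpleGraph.isClique_pair]
      exact fun _ => h
    · rw [mem_insert, mem_singleton]
      rintro (e | e)
      · exact x.2 e.symm
      · exact y.2 e.symm
    · rw [sg_le]; simp
    · rw [sg_le]; simp
  · rintro ⟨hne, t, h1, h2⟩
    rw [sg_le] at h1 h2
    exact t.2.2.1 h1 h2 (fun e => hne (Subtype.ext e))

end T1aux

open T1aux

theorem card_iso {V W : Type} [Fintype V] [Fintype W] (G : SimpleGraph V) (H : SimpleGraph W)
    (v : V) (w : W) (h : Nonempty (TCard G v ≃o TCard H w)) :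
    ∃ e : {x : V // x ≠ v} ≃ {y : W // y ≠ w}, ∀ x y, H.Adj (e x : W) (e y : W) ↔ G.Adj (x : V) (y : V) := by
  obtain ⟨Φ⟩ := h
  have h1 : ∀ x, ∃ y, sg H w y = Φ (sg G v x) := fun x =>
    exists_sg_of_min H w _ ((Φ.isMin_apply).2 (sg_min G v x))
  have h2 : ∀ y, ∃ x, sg G v x = Φ.symm (sg H w y) := fun y =>
    exists_sg_of_min G v _ ((Φ.symm.isMin_apply).2 (sg_min H w y))
  choose f hf using h1
  have hinj : Function.Injective f := by
    intro a b hab
    apply sg_inj G v
    apply Φ.injective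
    rw [← hf, ← hf, hab]
  have hsurj : Function.Surjective f := by
    intro y
    obtain ⟨x, hx⟩ := h2 y
    refine ⟨x, sg_inj H w ?_⟩
    rw [hf, hx, Φ.apply_symm_apply]
  refine ⟨Equiv.ofBijective f ⟨hinj, hsurj⟩, fun x y => ?_⟩
  show H.Adj (f x : W) (f y : W) ↔ _
  rw [adj_iff, adj_iff]
  constructor
  · rintro ⟨hne, t, ht1, ht2⟩
    refine ⟨fun e => hne (by rw [e]), Φ.symm t, ?_, ?_⟩
    · rw [← Φ.symm_apply_apply (sg G v x)]
      rw [← hf x]
      exact Φ.symm.monotone ht1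
    · rw [← Φ.symm_apply_apply (sg G v y)]
      rw [← hf y]
      exact Φ.symm.monotone ht2
  · rintro ⟨hne, t, ht1, ht2⟩
    refine ⟨fun e => hne (hinj e), Φ t, ?_, ?_⟩
    · rw [hf]; exact Φ.monotone ht1
    · rw [hf]; exact Φ.monotone ht2

theorem whole_iso {V W : Type} (G : SimpleGraph V) (H : SimpleGraph W) (e : V ≃ W)
    (he : ∀ x y, H.Adj (e x) (e y) ↔ G.Adj x y) : Nonempty (TLat G ≃o TLat H) := by
  have hcl : ∀ s : Finset V, G.IsClique (s : Set V) → H.IsClique ((s.map e.toEmbedding : Finset W) : Set W) := by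
    intro s hs a ha b hb hab
    rw [mem_coe, mem_map] at ha hb
    obtain ⟨x, hx, rfl⟩ := ha
    obtain ⟨y, hy, rfl⟩ := hb
    exact (he x y).2 (hs hx hy (fun h => hab (by rw [h])))
  have hcl' : ∀ s : Finset W, H.IsClique (s : Set W) → G.IsClique ((s.map e.symm.toEmbedding : Finset V) : Set V) := by
    intro s hs a ha b hb hab
    rw [mem_coe, mem_map] at ha hb
    obtain ⟨x, hx, rfl⟩ := ha
    obtain ⟨y, hy, rfl⟩ := hb
    have := hs hx hy (fun h => hab (by rw [h]))
    rw [← he]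
    simpa using this
  refine ⟨⟨⟨fun s => ⟨s.1.map e.toEmbedding, s.2.1.map, hcl _ s.2.2⟩,
    fun s => ⟨s.1.map e.symm.toEmbedding, s.2.1.map, hcl' _ s.2.2⟩, ?_, ?_⟩, ?_⟩⟩
  · intro s
    apply Subtype.ext
    show (s.1.map e.toEmbedding).map e.symm.toEmbedding = s.1
    ext x
    simp
  · intro s
    apply Subtype.ext
    show (s.1.map e.symm.toEmbedding).map e.toEmbedding = s.1
    ext x
    simp
  · intro s t
    show s.1.map e.toEmbedding ⊆ t.1.map e.toEmbedding ↔ s.1 ⊆ t.1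
    rw [map_subset_map]

theorem exists_hypo {V : Type} [Fintype V] (G : SimpleGraph V) (hG : ¬ Reconstructible G) :
    ∃ (H : SimpleGraph V) (π : V → Equiv.Perm V), Hypo G H π ∧ NonIso G H := by
  classical
  unfold Reconstructible at hG
  push Not at hG
  obtain ⟨W, _, H, ⟨f, hf⟩, hiso⟩ := hG
  have h1 : ∀ v, ∃ σ : Equiv.Perm V, σ v = v ∧ ∀ x y, x ≠ v → y ≠ v →
      (H.Adj (f (σ x)) (f (σ y)) ↔ G.Adj x y) := by
    intro v
    obtain ⟨e, he⟩ := card_iso G H v (f v) (hf v)
    let g : {x : V // x ≠ v} ≃ {x : V // x ≠ v} :=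
      e.trans ((f.symm.subtypeEquiv (fun y => by
        constructor
        · intro h h'
          apply h
          rw [← h', Equiv.apply_symm_apply]
        · intro h h'
          apply h
          rw [h', Equiv.symm_apply_apply])))
    have hg : ∀ x, f (g x : V) = (e x : W) := by
      intro x
      show f (f.symm (e x)) = _
      simp
    let σ : Equiv.Perm V := g.extendSubtype
    refine ⟨σ, ?_, ?_⟩
    · by_contra hne
      have : ¬ (¬ (σ v ≠ v)) := not_not.mpr hne
      exact this (g.extendSubtype_not_mem v (fun h => h rfl))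
    · intro x y hx hy
      have ex : σ x = g ⟨x, hx⟩ := g.extendSubtype_apply_of_mem x hx
      have ey : σ y = g ⟨y, hy⟩ := g.extendSubtype_apply_of_mem y hy
      rw [ex, ey, hg, hg]
      exact he _ _
  choose π hπ1 hπ2 using h1
  refine ⟨H.comap f, π, ⟨hπ1, fun v x y hx hy => ?_⟩, ?_⟩
  · exact hπ2 v x y hx hy
  · rintro ⟨σ, hσ⟩
    exact hiso.false (whole_iso G H (σ.trans f) (fun x y => hσ x y)).some

end Pool.Agent.H234RC
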