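import Pool.Agent.H234RC.Defs

set_option autoImplicit false

namespace Pool.Agent.H234RC

open Finset

/-- the near-automorphism `π u⁻¹ π v` with its break points -/
def bt {V : Type} (π : V → Equiv.Perm V) (u v : V) : NAut V :=
  ((π v).trans (π u).symm, v, (π v).symm u)

theorem bt_apply {V : Type} (π : V → Equiv.Perm V) (u v x : V) :
    (bt π u v).1 x = (π u).symm (π v x) := rfl

theorem bt_na {V : Type} {G H : SimpleGraph V} {π : V → Equiv.Perm V} (hH : Hypo G H π)
    (u v : V) : IsNA G (bt π u v) := by
  intro x y hx1 hx2 hy1 hy2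
  have hx1' : x ≠ v := hx1
  have hy1' : y ≠ v := hy1
  have hx2' : x ≠ (π v).symm u := hx2
  have hy2' : y ≠ (π v).symm u := hy2
  have h1 := hH.adj v x y hx1' hy1'
  have aux : ∀ x, x ≠ (π v).symm u → (π u).symm (π v x) ≠ u := by
    intro x hx h
    apply hx
    have : π v x = π u u := (Equiv.symm_apply_eq _).1 h
    rw [hH.fix u] at this
    exact ((Equiv.symm_apply_eq _).2 this.symm).symm
  have h2 := hH.adj u _ _ (aux x hx2') (aux y hy2')
  simp only [Equiv.apply_symm_apply] at h2
  rw [bt_apply, bt_apply, ← h2, h1]

section edges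

variable {V : Type} [Fintype V] [DecidableEq V]

open Classical in
/-- ordered adjacent pairs -/
noncomputable def OE (G : SimpleGraph V) : Finset (V × V) := univ.filter (fun q => G.Adj q.1 q.2)

open Classical in
theorem sum_OE (G : SimpleGraph V) :
    ∑ v : V, ((OE G).filter (fun q => q.1 ≠ v ∧ q.2 ≠ v)).card = (OE G).card * (Fintype.card V - 2) := by
  simp_rw [card_filter]
  rw [sum_comm]
  rw [card_eq_sum_ones, sum_mul]
  apply sum_congr rfl
  intro q hq
  have hadj : G.Adj q.1 q.2 := (mem_filter.mp hq).2
  rw [← card_filter, one_mul]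
  have : (univ.filter (fun v => q.1 ≠ v ∧ q.2 ≠ v)) = univ \ {q.1, q.2} := by
    ext v; simp [eq_comm]
  rw [this, card_sdiff_of_subset (subset_univ _), card_univ, card_pair hadj.ne]

open Classical in
theorem card_OE_eq {G H : SimpleGraph V} {π : V → Equiv.Perm V} (hH : Hypo G H π)
    (hn : 3 ≤ Fintype.card V) : (OE G).card = (OE H).card := by
  have h1 := sum_OE G
  have h2 := sum_OE H
  have h3 : ∀ v : V, ((OE G).filter (fun q => q.1 ≠ v ∧ q.2 ≠ v)).card =
      ((OE H).filter (fun q => q.1 ≠ v ∧ q.2 ≠ v)).card := by
    intro v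
    apply card_bij' (fun q _ => (π v q.1, π v q.2)) (fun q _ => ((π v).symm q.1, (π v).symm q.2))
    · intro q hq
      simp only [OE, mem_filter, mem_univ, true_and] at hq ⊢
      refine ⟨(hH.adj v _ _ hq.2.1 hq.2.2).2 hq.1, ?_, ?_⟩
      · intro h
        apply hq.2.1
        apply (π v).injective
        rw [hH.fix v]; exact h
      · intro h
        apply hq.2.2
        apply (π v).injective
        rw [hH.fix v]; exact h
    · intro q hq
      simp only [OE, mem_filter, mem_univ, true_and] at hq ⊢
      have a1 : (π v).symm q.1 ≠ v := by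
        intro h
        apply hq.2.1
        have := congrArg (π v) h
        rw [hH.fix v] at this
        simpa using this
      have a2 : (π v).symm q.2 ≠ v := by
        intro h
        apply hq.2.2
        have := congrArg (π v) h
        rw [hH.fix v] at this
        simpa using this
      refine ⟨?_, a1, a2⟩
      rw [← hH.adj v _ _ a1 a2]
      simpa using hq.1
    · intro q hq; simp
    · intro q hq; simp
  have h4 : (OE G).card * (Fintype.card V - 2) = (OE H).card * (Fintype.card V - 2) := by
    rw [← h1, ← h2]; exact sum_congr rfl (fun v _ => h3 v)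
  exact Nat.eq_of_mul_eq_mul_right (by omega) h4

open Classical in
theorem broken {G H : SimpleGraph V} {π : V → Equiv.Perm V} (hH : Hypo G H π)
    (hn : 3 ≤ Fintype.card V) (hni : NonIso G H) (u v : V) (huv : u ≠ v) :
    ∃ x, x ≠ v ∧ x ≠ (π v).symm u ∧
      ¬ (G.Adj ((bt π u v).1 v) ((bt π u v).1 x) ↔ G.Adj v x) := by
  by_contra hcon
  push Not at hcon
  set z := (π v).symm u with hz
  have hzv : z ≠ v := by
    intro h
    have : π v z = u := by rw [hz]; simp
    rw [h, hH.fix v] at this
    exact huv this.symm
  -- all pairs at v except z are preserved by π v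
  have hpres : ∀ x, x ≠ v → x ≠ z → (H.Adj (π v v) (π v x) ↔ G.Adj v x) := by
    intro x hxv hxz
    rw [← hcon x hxv hxz, bt_apply, bt_apply]
    have a1 : (π u).symm (π v v) ≠ u := by
      intro h
      have := congrArg (π u) h
      rw [hH.fix u] at this
      rw [Equiv.apply_symm_apply, hH.fix v] at this
      exact huv this.symm
    have a2 : (π u).symm (π v x) ≠ u := by
      intro h
      have := congrArg (π u) h
      rw [hH.fix u, Equiv.apply_symm_apply] at this
      apply hxz
      rw [hz, ← this]; simp
    have := hH.adj u _ _ a1 a2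
    simpa using this
  have hall : ∀ x y, ¬ (x = v ∧ y = z) → ¬ (x = z ∧ y = v) →
      (H.Adj (π v x) (π v y) ↔ G.Adj x y) := by
    intro x y h1 h2
    by_cases hx : x = v
    · subst hx
      by_cases hy : y = x
      · subst hy; simp
      · exact hpres y hy (fun h => h1 ⟨rfl, h⟩)
    · by_cases hy : y = v
      · subst hy
        rw [H.adj_comm, G.adj_comm]
        exact hpres x hx (fun h => h2 ⟨h, rfl⟩)
      · exact hH.adj v x y hx hy
  -- compare edge numbers
  let G' : SimpleGraph V := H.comap (π v)
  have hG' : ∀ x y, G'.Adj x y ↔ H.Adj (π v x) (π v y) := fun x y => Iff.rfl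
  have hcard : (OE G').card = (OE H).card := by
    apply card_bij' (fun q _ => (π v q.1, π v q.2)) (fun q _ => ((π v).symm q.1, (π v).symm q.2))
    · intro q hq
      simp only [OE, mem_filter, mem_univ, true_and] at hq ⊢
      exact (hG' _ _).1 hq
    · intro q hq
      simp only [OE, mem_filter, mem_univ, true_and] at hq ⊢
      rw [hG']; simpa using hq
    · intro q hq; simp
    · intro q hq; simp
  have hGG' : (OE G).card = (OE G').card := (card_OE_eq hH hn).trans hcard.symm
  have hz2 : (H.Adj (π v v) (π v z) ↔ G.Adj v z) := by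
    by_contra hdiff
    rw [← hG'] at hdiff
    by_cases hGz : G.Adj v z
    · have hG'z : ¬ G'.Adj v z := fun h => hdiff ⟨fun _ => hGz, fun _ => h⟩
      have hss : OE G' ⊂ OE G := by
        refine ⟨?_, ?_⟩
        · intro q hq
          simp only [OE, mem_filter, mem_univ, true_and] at hq ⊢
          have c1 : ¬ (q.1 = v ∧ q.2 = z) := fun h => hG'z (by rw [← h.1, ← h.2]; exact hq)
          have c2 : ¬ (q.1 = z ∧ q.2 = v) := fun h => hG'z (by
            rw [G'.adj_comm, ← h.1, ← h.2]; exact hq)
          exact (hall _ _ c1 c2).1 hq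
        · intro hsub
          have : (v, z) ∈ OE G' := hsub (by simp [OE, hGz])
          simp only [OE, mem_filter, mem_univ, true_and] at this
          exact hG'z this
      have := card_lt_card hss
      omega
    · have hG'z : G'.Adj v z := by
        by_contra h
        exact hdiff ⟨fun h' => absurd h' h, fun h' => absurd h' hGz⟩
      have hss : OE G ⊂ OE G' := by
        refine ⟨?_, ?_⟩
        · intro q hq
          simp only [OE, mem_filter, mem_univ, true_and] at hq ⊢
          have c1 : ¬ (q.1 = v ∧ q.2 = z) := fun h => hGz (by rw [← h.1, ← h.2]; exact hq)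
          have c2 : ¬ (q.1 = z ∧ q.2 = v) := fun h => hGz (by
            rw [G.adj_comm, ← h.1, ← h.2]; exact hq)
          exact (hall _ _ c1 c2).2 hq
        · intro hsub
          have : (v, z) ∈ OE G := hsub (by simp [OE, hG'z])
          simp only [OE, mem_filter, mem_univ, true_and] at this
          exact hGz this
      have := card_lt_card hss
      omega
  apply hni
  refine ⟨π v, fun x y => ?_⟩
  by_cases h1 : x = v ∧ y = z
  · rw [h1.1, h1.2]; exact hz2
  · by_cases h2 : x = z ∧ y = v
    · rw [h2.1, h2.2, H.adj_comm, G.adj_comm]; exact hz2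
    · exact hall x y h1 h2

end edges

end Pool.Agent.H234RC
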