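import Pool.Agent.H234RC.T12a

set_option autoImplicit false

namespace Pool.Agent.H234RC

open Finset

section ext

variable {V : Type} [Fintype V] [DecidableEq V]

/-- number of agreements -/
def agr (π : V → Equiv.Perm V) (u v : V) : ℕ := (univ.filter (fun x => π u x = π v x)).card

/-- agree at more than two thirds of the vertices -/
def Close (π : V → Equiv.Perm V) (u v : V) : Prop := u ≠ v ∧ 2 * Fintype.card V < 3 * agr π u v

theorem agr_comm (π : V → Equiv.Perm V) (u v : V) : agr π u v = agr π v u := by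
  unfold agr
  congr 1
  ext x
  simp [eq_comm]

theorem Close.symm {π : V → Equiv.Perm V} {u v : V} (h : Close π u v) : Close π v u :=
  ⟨h.1.symm, by rw [agr_comm]; exact h.2⟩

/-- fixed by all near-automorphisms of close pairs -/
def Rf (π : V → Equiv.Perm V) (x : V) : Prop :=
  ∀ u v, Close π u v → x ≠ v → x ≠ (π v).symm u → (bt π u v).1 x = x

theorem lemA {G H : SimpleGraph V} {π : V → Equiv.Perm V} (hH : Hypo G H π) {u v x : V}
    (huv : Close π u v) (h1 : x ≠ v) (h2 : x ≠ (π v).symm u) (h3 : (bt π u v).1 x ≠ x) :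
    ¬ Rf π ((bt π u v).1 x) := by
  intro hR
  have h := hR v u huv.symm
  rw [bt_apply] at h h3
  have a1 : (π u).symm (π v x) ≠ u := by
    intro e
    have e' : π v x = π u u := (Equiv.symm_apply_eq _).1 e
    rw [hH.fix u] at e'
    exact h2 ((Equiv.symm_apply_eq _).2 e'.symm).symm
  have a2 : (π u).symm (π v x) ≠ (π u).symm v := by
    intro e
    have e' : π v x = v := (π u).symm.injective e
    apply h1
    apply (π v).injective
    rw [e', hH.fix v]
  have h4 := h a1 a2
  rw [bt_apply, Equiv.apply_symm_apply, Equiv.symm_apply_apply] at h4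
  exact h3 h4.symm

theorem lemB {G H : SimpleGraph V} {π : V → Equiv.Perm V} (hH : Hypo G H π) {w v : V}
    (hwv : Close π w v) (hw : Rf π w) (hv : Rf π v) :
    (π v).symm w = w ∧ ∀ x, Rf π x → (bt π w v).1 x = x := by
  have h1 : (π v).symm w = w := by
    by_contra hne
    have := hw w v hwv hwv.1 (fun h => hne h.symm)
    rw [bt_apply] at this
    have e : π v w = π w w := (Equiv.symm_apply_eq _).1 this
    rw [hH.fix w] at e
    exact hne ((Equiv.symm_apply_eq _).2 e.symm)
  have h1' : π v w = w := by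
    have := congrArg (π v) h1
    rw [Equiv.apply_symm_apply] at this
    exact this.symm
  have h2 : π w v = v := by
    by_cases hne : v = (π w).symm v
    · have := congrArg (π w) hne
      rw [Equiv.apply_symm_apply] at this
      exact this
    · have := hv v w hwv.symm hwv.1.symm hne
      rw [bt_apply] at this
      have e : π w v = π v v := (Equiv.symm_apply_eq _).1 this
      rw [hH.fix v] at e
      exact e
  refine ⟨h1, fun x hx => ?_⟩
  by_cases hxv : x = v
  · subst hxv
    rw [bt_apply, hH.fix x]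
    exact (Equiv.symm_apply_eq _).2 h2.symm
  · by_cases hxw : x = w
    · subst hxw
      rw [bt_apply, h1']
      exact (Equiv.symm_apply_eq _).2 (hH.fix x).symm
    · exact hx w v hwv hxv (by rw [h1]; exact hxw)

theorem lemC {G H : SimpleGraph V} {π : V → Equiv.Perm V} (hH : Hypo G H π)
    (hn : 3 ≤ Fintype.card V) (hni : NonIso G H) {w v : V}
    (hwv : Close π w v) (hw : Rf π w) (hv : Rf π v) :
    ∃ q : V × V, ¬ Rf π q.1 ∧ ¬ Rf π q.2 ∧ ∀ z, Rf π z → z ≠ w →
      ((G.Adj z q.1 ↔ G.Adj z q.2) ↔ z ≠ v) := by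
  obtain ⟨h1, h2⟩ := lemB hH hwv hw hv
  obtain ⟨x, hxv, hxz, hx⟩ := broken hH hn hni w v hwv.1
  rw [h2 v hv] at hx
  have hne : (bt π w v).1 x ≠ x := by
    intro e
    rw [e] at hx
    exact hx Iff.rfl
  refine ⟨(x, (bt π w v).1 x), fun h => hne (h2 x h), lemA hH hwv hxv hxz hne, ?_⟩
  intro z hz hzw
  have hna := bt_na hH w v
  constructor
  · intro h e
    subst e
    exact hx h.symm
  · intro hzv
    have := hna z x hzv (by show z ≠ (π v).symm w; rw [h1]; exact hzw) hxv hxz
    rw [h2 z hz] at this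
    exact this.symm

theorem mv_id (a : V) : mv ((1, a, a) : NAut V) = ∅ := by
  unfold mv
  ext x
  simp

theorem greedy (N : Set (NAut V)) (t h : ℕ) (hth : Fintype.card V < t * h) (a0 : V) :
    ∃ Φ : Fin t → NAut V, (∀ i, Φ i ∈ N ∨ Φ i = (1, a0, a0)) ∧
      ∀ φ ∈ N, (mv φ \ univ.biUnion (fun i => mv (Φ i))).card < h := by
  classical
  let P : ℕ → Prop := fun k => ∃ Φ : Fin k → NAut V, (∀ i, Φ i ∈ N) ∧
    k * h ≤ (univ.biUnion (fun i => mv (Φ i))).card
  have hP0 : P 0 := ⟨Fin.elim0, fun i => i.elim0, by simp⟩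
  have hPt : ¬ P t := by
    rintro ⟨Φ, -, hΦ⟩
    have := card_le_univ (univ.biUnion (fun i => mv (Φ i)))
    omega
  obtain ⟨k, hkt, hk, hk1⟩ : ∃ k, k < t ∧ P k ∧ ¬ P (k + 1) := by
    by_contra hcon
    push Not at hcon
    have : ∀ k, k ≤ t → P k := by
      intro k
      induction k with
      | zero => intro _; exact hP0
      | succ k ih => intro hk; exact hcon k (by omega) (ih (by omega))
    exact hPt (this t le_rfl)
  obtain ⟨Φ, hΦN, hΦc⟩ := hk
  have hU : univ.biUnion (fun i : Fin t => mv (if hi : i.1 < k then Φ ⟨i.1, hi⟩ else (1, a0, a0))) =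
      univ.biUnion (fun i => mv (Φ i)) := by
    ext x
    simp only [mem_biUnion, mem_univ, true_and]
    constructor
    · rintro ⟨i, hi⟩
      by_cases hik : i.1 < k
      · rw [dif_pos hik] at hi
        exact ⟨⟨i.1, hik⟩, hi⟩
      · rw [dif_neg hik, mv_id] at hi
        simp at hi
    · rintro ⟨i, hi⟩
      refine ⟨⟨i.1, by omega⟩, ?_⟩
      rw [dif_pos i.2]
      exact hi
  refine ⟨fun i => if hi : i.1 < k then Φ ⟨i.1, hi⟩ else (1, a0, a0), ?_, ?_⟩
  · intro i
    by_cases hik : i.1 < k
    · left; simp only [hik, dif_pos]; exact hΦN _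
    · right; simp only [hik, dif_neg, not_false_iff]
  · intro φ hφ
    rw [hU]
    by_contra hcon
    push Not at hcon
    apply hk1
    refine ⟨Fin.snoc Φ φ, ?_, ?_⟩
    · intro i
      refine Fin.lastCases ?_ (fun i => ?_) i
      · simp only [Fin.snoc_last]; exact hφ
      · simp only [Fin.snoc_castSucc]; exact hΦN i
    · have hsub : (univ.biUnion (fun i => mv (Φ i))) ∪ (mv φ \ univ.biUnion (fun i => mv (Φ i))) ⊆
          univ.biUnion (fun i => mv ((Fin.snoc Φ φ : Fin (k+1) → NAut V) i)) := by
        intro x hx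
        rw [mem_union] at hx
        rw [mem_biUnion]
        rcases hx with hx | hx
        · rw [mem_biUnion] at hx
          obtain ⟨i, _, hi⟩ := hx
          refine ⟨i.castSucc, mem_univ _, ?_⟩
          rw [Fin.snoc_castSucc]; exact hi
        · refine ⟨Fin.last k, mem_univ _, ?_⟩
          rw [Fin.snoc_last]; exact (mem_sdiff.mp hx).1
      have hc := card_le_card hsub
      rw [card_union_of_disjoint disjoint_sdiff] at hc
      calc (k + 1) * h = k * h + h := by ring
        _ ≤ _ := by omega

theorem exists_enum (A : Finset V) (d : ℕ) (hA : A.card ≤ d) :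
    ∃ f : Fin d → Option V, ∀ z, (∃ j, f j = some z) ↔ z ∈ A := by
  refine ⟨fun j => A.toList[j.1]?, fun z => ?_⟩
  constructor
  · rintro ⟨j, hj⟩
    rw [← mem_toList]
    exact List.mem_of_getElem? hj
  · intro hz
    rw [← mem_toList] at hz
    obtain ⟨i, hi⟩ := List.mem_iff_getElem?.mp hz
    have hi' : i < A.toList.length := by
      by_contra hcon
      rw [List.getElem?_eq_none (by omega)] at hi
      simp at hi
    rw [length_toList] at hi'
    exact ⟨⟨i, by omega⟩, hi⟩

end ext

end Pool.Agent.H234RC
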