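import Pool.Agent.H234RC.Defs

set_option autoImplicit false

/-! T6: merging lemma (Bondy type). -/

namespace Pool.Agent.H234RC

open Finset

namespace T6aux

theorem lam_eqv {α ι : Type} (r0 : α → α → Prop) (lam : α → ι → Prop) (z : ι)
    (h : ∀ a b, r0 a b → (lam a z ↔ lam b z)) {a b : α} (hab : Relation.EqvGen r0 a b) :
    lam a z ↔ lam b z := by
  induction hab with
  | rel a b hab => exact h a b hab
  | refl a => exact Iff.rfl
  | symm a b _ ih => exact ih.symm
  | trans a b c _ _ ih1 ih2 => exact ih1.trans ih2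

theorem step {α : Type} [Fintype α] (r0 : α → α → Prop) (p p' : α)
    (hp : ¬ Relation.EqvGen r0 p p') :
    Nat.card (Quotient (Relation.EqvGen.setoid (fun a b => r0 a b ∨ (a = p ∧ b = p')))) + 1 ≤
      Nat.card (Quotient (Relation.EqvGen.setoid r0)) := by
  classical
  let r1 : α → α → Prop := fun a b => r0 a b ∨ (a = p ∧ b = p')
  have hmono : ∀ a b, Relation.EqvGen r0 a b → Relation.EqvGen r1 a b := fun a b h =>
    Relation.EqvGen.mono (p := r1) (fun a b h => Or.inl h) a b h
  let f : Quotient (Relation.EqvGen.setoid r0) → Quotient (Relation.EqvGen.setoid r1) :=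
    Quotient.map' id hmono
  have hsurj : Function.Surjective f := by
    intro q
    induction q using Quotient.inductionOn with
    | h a => exact ⟨Quotient.mk _ a, rfl⟩
  have hninj : ¬ Function.Injective f := by
    intro hinj
    apply hp
    have h1 : f (Quotient.mk _ p) = f (Quotient.mk _ p') := by
      apply Quotient.sound
      exact Relation.EqvGen.rel p p' (Or.inr ⟨rfl, rfl⟩)
    exact Quotient.exact (hinj h1)
  let : Fintype (Quotient (Relation.EqvGen.setoid r0)) := Fintype.ofFinite _
  let : Fintype (Quotient (Relation.EqvGen.setoid r1)) := Fintype.ofFinite _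
  have := Fintype.card_lt_of_surjective_not_injective f hsurj hninj
  rw [← Nat.card_eq_fintype_card, ← Nat.card_eq_fintype_card] at this
  exact this

end T6aux

open T6aux in
theorem merge_bound {α ι : Type} [Fintype α] [DecidableEq ι] (r0 : α → α → Prop)
    (lam : α → ι → Prop) (R : Finset ι)
    (hlam : ∀ a b, r0 a b → ∀ z ∈ R, (lam a z ↔ lam b z)) (x x' : ι → α)
    (hx : ∀ v ∈ R, ∀ z ∈ R, ((lam (x v) z ↔ lam (x' v) z) ↔ z ≠ v)) :
    Nat.card (Quotient (Relation.EqvGen.setoid
        (fun a b => r0 a b ∨ ∃ v ∈ R, a = x v ∧ b = x' v))) + R.card ≤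
      Nat.card (Quotient (Relation.EqvGen.setoid r0)) := by
  induction R using Finset.induction_on generalizing r0 with
  | empty =>
    have : (fun a b => r0 a b ∨ ∃ v ∈ (∅ : Finset ι), a = x v ∧ b = x' v) = r0 := by
      funext a b
      simp
    rw [this]; simp
  | insert v R hv ih =>
    have h1 := ih (fun a b => r0 a b ∨ (a = x v ∧ b = x' v)) (by
      rintro a b (h | ⟨rfl, rfl⟩) z hz
      · exact hlam a b h z (Finset.mem_insert_of_mem hz)
      · apply (hx v (Finset.mem_insert_self v R) z (Finset.mem_insert_of_mem hz)).mpr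
        rintro rfl
        exact hv hz) (fun w hw z hz => hx w (Finset.mem_insert_of_mem hw) z
          (Finset.mem_insert_of_mem hz))
    have h2 : (fun a b => (r0 a b ∨ (a = x v ∧ b = x' v)) ∨ ∃ w ∈ R, a = x w ∧ b = x' w)
        = (fun a b => r0 a b ∨ ∃ w ∈ insert v R, a = x w ∧ b = x' w) := by
      funext a b
      apply propext
      constructor
      · rintro ((h | h) | ⟨w, hw, h⟩)
        · exact Or.inl h
        · exact Or.inr ⟨v, Finset.mem_insert_self v R, h⟩
        · exact Or.inr ⟨w, Finset.mem_insert_of_mem hw, h⟩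
      · rintro (h | ⟨w, hw, h⟩)
        · exact Or.inl (Or.inl h)
        · rcases Finset.mem_insert.mp hw with rfl | hw
          · exact Or.inl (Or.inr h)
          · exact Or.inr ⟨w, hw, h⟩
    rw [h2] at h1
    have h3 := step r0 (x v) (x' v) (by
      intro h
      have h4 := lam_eqv r0 lam v (fun a b hab => hlam a b hab v (Finset.mem_insert_self v R)) h
      exact (hx v (Finset.mem_insert_self v R) v (Finset.mem_insert_self v R)).mp h4 rfl)
    rw [Finset.card_insert_of_notMem hv]
    omega

end Pool.Agent.H234RC
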