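import Pool.Agent.H234RC.WDefs
import Pool.Agent.H234RC.T1
import Pool.Agent.H234RC.T12b

set_option autoImplicit false

/-! Three cards: the criterion. -/

namespace Pool.Agent.H234RC

open Finset

/-- Three cards of `T(G)` determine `T(G)`. -/
def ThreeCards {V : Type} (G : SimpleGraph V) : Prop :=
  ∃ a b c : V, a ≠ b ∧ a ≠ c ∧ b ≠ c ∧
    ∀ (W : Type) [Fintype W] (H : SimpleGraph W) (a' b' c' : W), a' ≠ b' → a' ≠ c' → b' ≠ c' →
      Nonempty (TCard G a ≃o TCard H a') → Nonempty (TCard G b ≃o TCard H b') →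
      Nonempty (TCard G c ≃o TCard H c') → Nonempty (TLat G ≃o TLat H)

theorem card_ext {V W : Type} [Fintype V] [Fintype W] (G : SimpleGraph V) (H : SimpleGraph W)
    (v : V) (w : W) (h : Nonempty (TCard G v ≃o TCard H w)) :
    ∃ π : V ≃ W, π v = w ∧ ∀ x y, x ≠ v → y ≠ v → (H.Adj (π x) (π y) ↔ G.Adj x y) := by
  classical
  obtain ⟨e, he⟩ := card_iso G H v w h
  let f : V → W := fun x => if hx : x = v then w else (e ⟨x, hx⟩ : W)
  have fv : f v = w := by simp [f]
  have fne : ∀ x (hx : x ≠ v), f x = (e ⟨x, hx⟩ : W) := fun x hx => by simp [f, hx]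
  have hinj : Function.Injective f := by
    intro x y hxy
    by_cases hx : x = v
    · by_cases hy : y = v
      · rw [hx, hy]
      · rw [hx, fv, fne y hy] at hxy
        exact absurd hxy.symm (e ⟨y, hy⟩).2
    · by_cases hy : y = v
      · rw [hy, fv, fne x hx] at hxy
        exact absurd hxy (e ⟨x, hx⟩).2
      · rw [fne x hx, fne y hy] at hxy
        have := e.injective (Subtype.ext hxy)
        exact congrArg Subtype.val this
  have hsurj : Function.Surjective f := by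
    intro y
    by_cases hy : y = w
    · exact ⟨v, by rw [fv, hy]⟩
    · refine ⟨(e.symm ⟨y, hy⟩ : V), ?_⟩
      rw [fne _ (e.symm ⟨y, hy⟩).2]
      simp
  refine ⟨Equiv.ofBijective f ⟨hinj, hsurj⟩, fv, fun x y hx hy => ?_⟩
  show H.Adj (f x) (f y) ↔ _
  rw [fne x hx, fne y hy]
  exact he _ _

/-- fixed by all near-automorphisms -/
def Rn {V : Type} (G : SimpleGraph V) (x : V) : Prop :=
  ∀ φ : NAut V, IsNA G φ → x ≠ φ.2.1 → x ≠ φ.2.2 → φ.1 x = x

theorem na_inv {V : Type} {G : SimpleGraph V} {φ : NAut V} (h : IsNA G φ) :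
    IsNA G (φ.1.symm, φ.1 φ.2.1, φ.1 φ.2.2) := by
  intro x y hx1 hx2 hy1 hy2
  have a1 : φ.1.symm x ≠ φ.2.1 := fun e => hx1 ((Equiv.symm_apply_eq _).1 e)
  have a2 : φ.1.symm x ≠ φ.2.2 := fun e => hx2 ((Equiv.symm_apply_eq _).1 e)
  have b1 : φ.1.symm y ≠ φ.2.1 := fun e => hy1 ((Equiv.symm_apply_eq _).1 e)
  have b2 : φ.1.symm y ≠ φ.2.2 := fun e => hy2 ((Equiv.symm_apply_eq _).1 e)
  have := h _ _ a1 a2 b1 b2
  rw [Equiv.apply_symm_apply, Equiv.apply_symm_apply] at this
  exact this.symm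

theorem moved_notRn {V : Type} {G : SimpleGraph V} {φ : NAut V} (h : IsNA G φ) {x : V}
    (h1 : x ≠ φ.2.1) (h2 : x ≠ φ.2.2) (h3 : φ.1 x ≠ x) : ¬ Rn G (φ.1 x) := by
  intro hR
  have := hR _ (na_inv h) (fun e => h1 (φ.1.injective e)) (fun e => h2 (φ.1.injective e))
  have h4 : φ.1.symm (φ.1 x) = φ.1 x := this
  rw [Equiv.symm_apply_apply] at h4
  exact h3 h4.symm

theorem trans_na {V W : Type} {G : SimpleGraph V} {H : SimpleGraph W} {v1 v2 : V} {w1 w2 : W}
    {π1 π2 : V ≃ W} (e1 : π1 v1 = w1) (e2 : π2 v2 = w2)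
    (h1 : ∀ x y, x ≠ v1 → y ≠ v1 → (H.Adj (π1 x) (π1 y) ↔ G.Adj x y))
    (h2 : ∀ x y, x ≠ v2 → y ≠ v2 → (H.Adj (π2 x) (π2 y) ↔ G.Adj x y)) :
    IsNA G (π1.trans π2.symm, v1, π1.symm w2) := by
  intro x y hx1 hx2 hy1 hy2
  have aux : ∀ x, x ≠ π1.symm w2 → π2.symm (π1 x) ≠ v2 := by
    intro x hx e
    apply hx
    have e' : π1 x = π2 v2 := (Equiv.symm_apply_eq _).1 e
    rw [e2] at e'
    exact ((Equiv.symm_apply_eq _).2 e'.symm).symm
  have a := h1 x y hx1 hy1
  have b := h2 _ _ (aux x hx2) (aux y hy2)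
  rw [Equiv.apply_symm_apply, Equiv.apply_symm_apply] at b
  show G.Adj (π2.symm (π1 x)) (π2.symm (π1 y)) ↔ _
  rw [← b, a]

theorem three_fix {V W : Type} {G : SimpleGraph V} {H : SimpleGraph W} {v1 v2 : V} {w1 w2 : W}
    {π1 π2 : V ≃ W} (hv : v1 ≠ v2) (e1 : π1 v1 = w1) (e2 : π2 v2 = w2)
    (h1 : ∀ x y, x ≠ v1 → y ≠ v1 → (H.Adj (π1 x) (π1 y) ↔ G.Adj x y))
    (h2 : ∀ x y, x ≠ v2 → y ≠ v2 → (H.Adj (π2 x) (π2 y) ↔ G.Adj x y))
    (hR : Rn G v2) : π1 v2 = w2 := by
  by_contra hne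
  have h := hR _ (trans_na e1 e2 h1 h2) hv.symm (fun e => hne ((Equiv.symm_apply_eq _).1 e.symm).symm)
  have h' : π2.symm (π1 v2) = v2 := h
  have h'' : π1 v2 = π2 v2 := (Equiv.symm_apply_eq _).1 h'
  rw [e2] at h''
  exact hne h''

theorem criterion {V : Type} [Fintype V] (G : SimpleGraph V) (v1 v2 v3 : V) (h12 : v1 ≠ v2)
    (h13 : v1 ≠ v3) (h23 : v2 ≠ v3) (R1 : Rn G v1) (R2 : Rn G v2) (R3 : Rn G v3)
    (hs : ∀ s t : V, ¬ Rn G s → ¬ Rn G t →
      (∀ z, Rn G z → z ≠ v1 → z ≠ v2 → (G.Adj z s ↔ G.Adj z t)) →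
      ∀ z, Rn G z → (G.Adj z s ↔ G.Adj z t)) : ThreeCards G := by
  refine ⟨v1, v2, v3, h12, h13, h23, ?_⟩
  intro W _ H w1 w2 w3 g12 g13 g23 c1 c2 c3
  obtain ⟨π1, e1, a1⟩ := card_ext G H v1 w1 c1
  obtain ⟨π2, e2, a2⟩ := card_ext G H v2 w2 c2
  obtain ⟨π3, e3, a3⟩ := card_ext G H v3 w3 c3
  have f12 : π1 v2 = w2 := three_fix h12 e1 e2 a1 a2 R2
  have f13 : π1 v3 = w3 := three_fix h13 e1 e3 a1 a3 R3
  have f21 : π2 v1 = w1 := three_fix h12.symm e2 e1 a2 a1 R1
  have f23 : π2 v3 = w3 := three_fix h23 e2 e3 a2 a3 R3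
  have f31 : π3 v1 = w1 := three_fix h13.symm e3 e1 a3 a1 R1
  have f32 : π3 v2 = w2 := three_fix h23.symm e3 e2 a3 a2 R2
  have p12 : π1.symm w2 = v2 := (Equiv.symm_apply_eq _).2 f12.symm
  have na := trans_na e1 e2 a1 a2
  rw [p12] at na
  -- agreement on R
  have ag12 : ∀ x, Rn G x → π1 x = π2 x := by
    intro x hx
    by_cases x1 : x = v1
    · rw [x1, e1, f21]
    · by_cases x2 : x = v2
      · rw [x2, f12, e2]
      · have h : π2.symm (π1 x) = x := hx _ na x1 x2
        exact (Equiv.symm_apply_eq _).1 h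
  -- agreement at v1, v2 for π3
  have key : ∀ x, x ≠ v1 → (H.Adj (π1 v1) (π1 x) ↔ G.Adj v1 x) := by
    intro x hx1
    by_cases hxR : Rn G x
    · by_cases hx2 : x = v2
      · rw [hx2, e1, f12, ← f31, ← f32]
        exact a3 _ _ h13 h23
      · rw [ag12 x hxR, ag12 v1 R1]
        exact a2 _ _ h12 hx2
    · have hx2 : x ≠ v2 := fun e => hxR (e ▸ R2)
      set y := π2.symm (π1 x) with hy
      have hπy : π2 y = π1 x := by rw [hy, Equiv.apply_symm_apply]
      have hy2 : y ≠ v2 := by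
        intro e
        rw [e, e2, ← f12] at hπy
        exact hx2 (π1.injective hπy).symm
      have hstep : H.Adj (π1 v1) (π1 x) ↔ G.Adj v1 y := by
        rw [← hπy, ag12 v1 R1]
        exact a2 _ _ h12 hy2
      rw [hstep]
      by_cases hyx : y = x
      · rw [hyx]
      · have hyR : ¬ Rn G y := moved_notRn na hx1 hx2 hyx
        have := hs y x hyR hxR (fun z hz z1 z2 => by
          have h := na z x z1 z2 hx1 hx2
          have hz' : π2.symm (π1 z) = z := by
            rw [ag12 z hz, Equiv.symm_apply_apply]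
          have h' : G.Adj (π2.symm (π1 z)) (π2.symm (π1 x)) ↔ G.Adj z x := h
          rw [hz'] at h'
          exact h') v1 R1
        exact this
  apply whole_iso G H π1
  intro x y
  by_cases hx : x = v1
  · by_cases hy : y = v1
    · rw [hx, hy]; simp
    · rw [hx]; exact key y hy
  · by_cases hy : y = v1
    · rw [hy, H.adj_comm, G.adj_comm]; exact key x hx
    · exact a1 x y hx hy

/-- failure of the criterion gives merging pairs -/
theorem merging {V : Type} [Fintype V] (G : SimpleGraph V) (hG : ¬ ThreeCards G) :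
    ∃ W : Finset V, W.card ≤ 2 ∧ ∀ v, Rn G v → v ∉ W → ∃ q : V × V, ¬ Rn G q.1 ∧ ¬ Rn G q.2 ∧
      ∀ z, Rn G z → z ∉ W → ((G.Adj z q.1 ↔ G.Adj z q.2) ↔ z ≠ v) := by
  classical
  by_cases h2 : (univ.filter (fun x => Rn G x)).card ≤ 2
  · exact ⟨_, h2, fun v hv hvW => absurd (mem_filter.2 ⟨mem_univ _, hv⟩) hvW⟩
  · push Not at h2
    -- D1
    let D1 : V → Prop := fun v => ∃ s t : V, ¬ Rn G s ∧ ¬ Rn G t ∧
      ∀ z, Rn G z → ((G.Adj z s ↔ G.Adj z t) ↔ z ≠ v)
    by_cases hall : ∀ v, Rn G v → D1 v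
    · refine ⟨∅, by simp, fun v hv _ => ?_⟩
      obtain ⟨s, t, hs, ht, h⟩ := hall v hv
      exact ⟨(s, t), hs, ht, fun z hz _ => h z hz⟩
    · push Not at hall
      obtain ⟨v1, hv1, hD⟩ := hall
      refine ⟨{v1}, by simp, fun v2 hv2 hne => ?_⟩
      rw [mem_singleton] at hne
      -- a third point
      obtain ⟨v3, hv3, h31, h32⟩ : ∃ v3, Rn G v3 ∧ v1 ≠ v3 ∧ v2 ≠ v3 := by
        by_contra hcon
        push Not at hcon
        have : (univ.filter (fun x => Rn G x)) ⊆ {v1, v2} := by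
          intro x hx
          rw [mem_insert, mem_singleton]
          by_contra hx'
          push Not at hx'
          exact hx'.2 (hcon x (mem_filter.1 hx).2 (Ne.symm hx'.1)).symm
        have := (card_le_card this).trans card_le_two
        omega
      by_contra hno
      apply hG
      apply criterion G v1 v2 v3 (Ne.symm hne) h31 h32 hv1 hv2 hv3
      intro s t hs ht hst
      by_contra hdiff
      push Not at hdiff
      -- the difference set is a nonempty subset of {v1, v2}, different from {v1}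
      have hv2d : ¬ (G.Adj v2 s ↔ G.Adj v2 t) := by
        intro heq
        apply hD
        obtain ⟨z0, hz0, hz0d⟩ := hdiff
        have hz01 : z0 = v1 := by
          by_contra h1
          by_cases h22 : z0 = v2
          · rw [h22] at hz0d; tauto
          · have := hst z0 hz0 h1 h22
            tauto
        refine ⟨s, t, hs, ht, fun z hz => ?_⟩
        constructor
        · rintro h rfl
          rw [hz01] at hz0d
          tauto
        · intro hz1
          by_cases hz2 : z = v2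
          · rw [hz2]; exact heq
          · exact hst z hz hz1 hz2
      apply hno
      refine ⟨(s, t), hs, ht, fun z hz hzW => ?_⟩
      rw [mem_singleton] at hzW
      constructor
      · rintro h rfl
        exact hv2d h
      · intro hz2
        exact hst z hz hzW hz2

end Pool.Agent.H234RC
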